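import Mathlib

/-! Expansions in non-integer bases: basics. -/

namespace Pool.Agent.V11309.Uni

open Filter Topology

/-- `d` is a `q`-expansion of `x`. -/
def IsExp (q x : ℝ) (d : ℕ → Fin 2) : Prop :=
  HasSum (fun i => (((d i : Fin 2) : ℕ) : ℝ) / q ^ (i + 1)) x

/-- `x` has exactly one `q`-expansion. -/
def UE (q x : ℝ) : Prop := ∃! d : ℕ → Fin 2, IsExp q x d

/-- `x` has two different `q`-expansions. -/
def TwoExp (q x : ℝ) : Prop := ∃ d d' : ℕ → Fin 2, d ≠ d' ∧ IsExp q x d ∧ IsExp q x d'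

lemma TwoExp.not_UE {q x : ℝ} (h : TwoExp q x) : ¬ UE q x := by
  rintro ⟨d, _, hd⟩
  obtain ⟨e, e', hne, he, he'⟩ := h
  exact hne ((hd e he).trans (hd e' he').symm)

lemma isExp_tail {q x : ℝ} (hq : 0 < q) {d : ℕ → Fin 2} (h : IsExp q x d) :
    IsExp q (q * x - ((d 0 : Fin 2) : ℕ)) (fun n => d (n + 1)) := by
  unfold IsExp at *
  have h1 := (hasSum_nat_add_iff' 1).mpr h
  simp only [Finset.range_one, Finset.sum_singleton, zero_add, pow_one] at h1
  have h2 := h1.mul_left q
  have h3 : q * (x - (((d 0 : Fin 2) : ℕ) : ℝ) / q) = q * x - ((d 0 : Fin 2) : ℕ) := by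
    field_simp
  rw [h3] at h2
  refine h2.congr_fun ?_ |> fun h => h
  intro i
  rw [pow_succ q (i + 1)]
  field_simp

/-- Prepend a digit. -/
def cons (b : Fin 2) (d : ℕ → Fin 2) : ℕ → Fin 2
  | 0 => b
  | n + 1 => d n

lemma isExp_cons {q y : ℝ} (hq : 0 < q) {d : ℕ → Fin 2} (b : Fin 2) (h : IsExp q y d) :
    IsExp q ((((b : Fin 2) : ℕ) + y) / q) (cons b d) := by
  unfold IsExp at *
  apply (hasSum_nat_add_iff' 1).mp
  simp only [Finset.range_one, Finset.sum_singleton, zero_add, pow_one]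
  have h2 := h.mul_left (1 / q)
  have h3 : (1 / q) * y = (((b : Fin 2) : ℕ) + y) / q - (((cons b d 0 : Fin 2) : ℕ) : ℝ) / q := by
    simp only [cons]
    field_simp
    ring
  rw [h3] at h2
  refine h2.congr_fun ?_ |> fun h => h
  intro i
  simp only [cons]
  rw [pow_succ q (i + 1)]
  field_simp

lemma isExp_nonneg {q x : ℝ} (hq : 0 < q) {d : ℕ → Fin 2} (h : IsExp q x d) : 0 ≤ x :=
  h.nonneg (fun i => by positivity)

lemma digit_le_one (b : Fin 2) : (((b : Fin 2) : ℕ) : ℝ) ≤ 1 := by
  have : ((b : Fin 2) : ℕ) ≤ 1 := by omega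
  exact_mod_cast this

lemma hasSum_geom {q : ℝ} (hq : 1 < q) : HasSum (fun i : ℕ => 1 / q ^ (i + 1)) (1 / (q - 1)) := by
  have h0 : 0 < q := by linarith
  have h1 := hasSum_geometric_of_lt_one (r := 1 / q) (by positivity)
    (by rw [div_lt_one h0]; exact hq)
  have h2 := h1.mul_left (1 / q)
  have h3 : 1 / q * (1 - 1 / q)⁻¹ = 1 / (q - 1) := by
    have : q - 1 ≠ 0 := by linarith
    field_simp
  rw [h3] at h2
  refine h2.congr_fun ?_ |> fun h => h
  intro i
  rw [pow_succ, one_div_pow]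
  field_simp

lemma isExp_le {q x : ℝ} (hq : 1 < q) {d : ℕ → Fin 2} (h : IsExp q x d) : x ≤ 1 / (q - 1) := by
  refine hasSum_le (fun i => ?_) h (hasSum_geom hq)
  have := digit_le_one (d i)
  have h0 : 0 < q ^ (i + 1) := by positivity
  gcongr

/-- Greedy-type orbit used to construct an expansion. -/
noncomputable def orb (q x : ℝ) : ℕ → ℝ
  | 0 => x
  | n + 1 => if q * orb q x n ≤ 1 / (q - 1) then q * orb q x n else q * orb q x n - 1

/-- The digits of the orbit. -/
noncomputable def dig (q x : ℝ) (n : ℕ) : Fin 2 := if q * orb q x n ≤ 1 / (q - 1) then 0 else 1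

lemma orb_mem {q x : ℝ} (hq : 1 < q) (hq2 : q ≤ 2) (hx0 : 0 ≤ x) (hx : x ≤ 1 / (q - 1)) (n : ℕ) :
    0 ≤ orb q x n ∧ orb q x n ≤ 1 / (q - 1) := by
  have hq1 : 0 < q - 1 := by linarith
  induction n with
  | zero => exact ⟨hx0, hx⟩
  | succ n ih =>
    obtain ⟨h1, h2⟩ := ih
    rw [orb]
    split_ifs with h
    · exact ⟨by positivity, h⟩
    · push Not at h
      constructor
      · have : (1 : ℝ) ≤ 1 / (q - 1) := by rw [le_div_iff₀ hq1]; linarith
        linarith
      · have h3 : q * orb q x n ≤ q * (1 / (q - 1)) := by gcongr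
        have h4 : q * (1 / (q - 1)) - 1 = 1 / (q - 1) := by field_simp; ring
        linarith

lemma orb_sum {q x : ℝ} (hq : 1 < q) (n : ℕ) :
    ∑ i ∈ Finset.range n, (((dig q x i : Fin 2) : ℕ) : ℝ) / q ^ (i + 1) = x - orb q x n / q ^ n := by
  have h0 : q ≠ 0 := by linarith
  induction n with
  | zero => simp [orb]
  | succ n ih =>
    rw [Finset.sum_range_succ, ih, orb, dig, pow_succ]
    split_ifs with h
    · simp
      field_simp
    · simp
      field_simp
      ring

lemma exists_exp {q x : ℝ} (hq : 1 < q) (hq2 : q ≤ 2) (hx0 : 0 ≤ x) (hx : x ≤ 1 / (q - 1)) :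
    ∃ d, IsExp q x d := by
  refine ⟨dig q x, ?_⟩
  have h0 : 0 < q := by linarith
  unfold IsExp
  rw [hasSum_iff_tendsto_nat_of_nonneg (fun i => by positivity)]
  simp_rw [orb_sum hq]
  have h1 : Tendsto (fun n => orb q x n / q ^ n) atTop (𝓝 0) := by
    have h2 : Tendsto (fun n : ℕ => (1 / (q - 1)) * (1 / q) ^ n) atTop (𝓝 0) := by
      have := (tendsto_pow_atTop_nhds_zero_of_lt_one (r := 1 / q) (by positivity)
        (by rw [div_lt_one h0]; exact hq)).const_mul (1 / (q - 1))
      simpa using this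
    refine squeeze_zero (fun n => ?_) (fun n => ?_) h2
    · exact div_nonneg (orb_mem hq hq2 hx0 hx n).1 (by positivity)
    · have := (orb_mem hq hq2 hx0 hx n).2
      rw [one_div_pow, mul_one_div]
      gcongr
  have := (tendsto_const_nhds (x := x)).sub h1
  simpa using this

lemma two_of_switch {q y : ℝ} (hq : 1 < q) (hq2 : q ≤ 2) (h1 : 1 / q ≤ y)
    (h2 : y ≤ 1 / (q * (q - 1))) : TwoExp q y := by
  have h0 : 0 < q := by linarith
  have hq1 : 0 < q - 1 := by linarith
  have a1 : 0 ≤ q * y - 1 := by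
    rw [div_le_iff₀ h0] at h1; linarith
  have a2 : q * y ≤ 1 / (q - 1) := by
    rw [le_div_iff₀ (by positivity)] at h2
    rw [le_div_iff₀ hq1]; linarith
  obtain ⟨d, hd⟩ := exists_exp hq hq2 (x := q * y) (by linarith) a2
  obtain ⟨d', hd'⟩ := exists_exp hq hq2 (x := q * y - 1) a1 (by linarith)
  refine ⟨cons 0 d, cons 1 d', ?_, ?_, ?_⟩
  · intro h
    have := congrFun h 0
    simp [cons] at this
  · have := isExp_cons h0 0 hd
    have e : ((((0 : Fin 2) : ℕ) : ℝ) + q * y) / q = y := by simp; field_simp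
    rwa [e] at this
  · have := isExp_cons h0 1 hd'
    have e : ((((1 : Fin 2) : ℕ) : ℝ) + (q * y - 1)) / q = y := by simp; field_simp
    rwa [e] at this

lemma TwoExp.cons {q y : ℝ} (hq : 0 < q) (h : TwoExp q y) (b : Fin 2) :
    TwoExp q ((((b : Fin 2) : ℕ) + y) / q) := by
  obtain ⟨d, d', hne, h1, h2⟩ := h
  refine ⟨Uni.cons b d, Uni.cons b d', ?_, isExp_cons hq b h1, isExp_cons hq b h2⟩
  intro h
  apply hne
  funext n
  exact congrFun h (n + 1)

lemma TwoExp.zero {q y : ℝ} (hq : 0 < q) (h : TwoExp q y) : TwoExp q (y / q) := by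
  have := h.cons hq 0
  simpa using this

lemma TwoExp.one {q y : ℝ} (hq : 0 < q) (h : TwoExp q y) : TwoExp q ((1 + y) / q) := by
  have := h.cons hq 1
  simpa using this

/-- First digit forced to be zero. -/
lemma digit_zero {q x : ℝ} (hq : 0 < q) {d : ℕ → Fin 2} (h : IsExp q x d) (hx : q * x < 1) :
    d 0 = 0 := by
  by_contra hne
  have h1 : d 0 = 1 := by
    have := (d 0).2; rcases hd : d 0 with ⟨v, hv⟩; rw [hd] at hne
    interval_cases v
    · exact absurd rfl hne
    · rfl
  have h2 := isExp_nonneg hq (isExp_tail hq h)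
  rw [h1] at h2
  simp at h2
  linarith

/-- First digit forced to be one. -/
lemma digit_one {q x : ℝ} (hq : 1 < q) {d : ℕ → Fin 2} (h : IsExp q x d)
    (hx : (2 - q) / (q - 1) < q * x - 1) : d 0 = 1 := by
  have h0 : 0 < q := by linarith
  have hq1 : 0 < q - 1 := by linarith
  by_contra hne
  have h1 : d 0 = 0 := by
    have := (d 0).2; rcases hd : d 0 with ⟨v, hv⟩; rw [hd] at hne
    interval_cases v
    · rfl
    · exact absurd rfl hne
  have h2 := isExp_le hq (isExp_tail h0 h)
  rw [h1] at h2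
  simp only [Fin.val_zero, Nat.cast_zero, sub_zero] at h2
  have h3 : 1 / (q - 1) = (2 - q) / (q - 1) + 1 := by field_simp; ring
  linarith

lemma UE_zero_step {q y : ℝ} (hq : 1 < q) (h : UE q y) (hy : y < 1) : UE q (y / q) := by
  have h0 : 0 < q := by linarith
  obtain ⟨d, hd, hu⟩ := h
  have e1 : q * (y / q) = y := by field_simp
  refine ⟨cons 0 d, ?_, ?_⟩
  · have := isExp_cons h0 0 hd
    simpa using this
  · intro e he
    have h1 : e 0 = 0 := digit_zero h0 he (by rw [e1]; exact hy)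
    have h2 := isExp_tail h0 he
    rw [h1, e1] at h2
    simp only [Fin.val_zero, Nat.cast_zero, sub_zero] at h2
    have h3 := hu _ h2
    funext n
    cases n with
    | zero => exact h1
    | succ n => exact congrFun h3 n

lemma UE_one_step {q y : ℝ} (hq : 1 < q) (h : UE q y) (hy : (2 - q) / (q - 1) < y) :
    UE q ((1 + y) / q) := by
  have h0 : 0 < q := by linarith
  obtain ⟨d, hd, hu⟩ := h
  have e1 : q * ((1 + y) / q) - 1 = y := by field_simp; ring
  refine ⟨cons 1 d, ?_, ?_⟩
  · have := isExp_cons h0 1 hd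
    simpa using this
  · intro e he
    have h1 : e 0 = 1 := digit_one hq he (by rw [e1]; exact hy)
    have h2 := isExp_tail h0 he
    rw [h1] at h2
    simp only [Fin.val_one, Nat.cast_one, e1] at h2
    have h3 := hu _ h2
    funext n
    cases n with
    | zero => exact h1
    | succ n => exact congrFun h3 n

/-- Points of an invariant set with forced digits have a unique expansion. -/
lemma UE_of_invariant {q : ℝ} (hq : 1 < q) (hq2 : q ≤ 2) (S : Set ℝ)
    (hS : ∀ y ∈ S, 0 ≤ y ∧ y ≤ 1 / (q - 1))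
    (hinv : ∀ y ∈ S, (q * y ∈ S ∧ q * y < 1) ∨ (q * y - 1 ∈ S ∧ (2 - q) / (q - 1) < q * y - 1)) :
    ∀ y ∈ S, UE q y := by
  have h0 : 0 < q := by linarith
  have key : ∀ n, ∀ y ∈ S, ∀ e e', IsExp q y e → IsExp q y e' → e n = e' n := by
    intro n
    induction n with
    | zero =>
      intro y hy e e' he he'
      rcases hinv y hy with ⟨_, h⟩ | ⟨_, h⟩
      · rw [digit_zero h0 he h, digit_zero h0 he' h]
      · rw [digit_one hq he h, digit_one hq he' h]
    | succ n ih =>
      intro y hy e e' he he'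
      rcases hinv y hy with ⟨hm, h⟩ | ⟨hm, h⟩
      · have h1 := digit_zero h0 he h
        have h2 := digit_zero h0 he' h
        have t1 := isExp_tail h0 he
        have t2 := isExp_tail h0 he'
        rw [h1] at t1; rw [h2] at t2
        simp only [Fin.val_zero, Nat.cast_zero, sub_zero] at t1 t2
        exact ih _ hm _ _ t1 t2
      · have h1 := digit_one hq he h
        have h2 := digit_one hq he' h
        have t1 := isExp_tail h0 he
        have t2 := isExp_tail h0 he'
        rw [h1] at t1; rw [h2] at t2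
        simp only [Fin.val_one, Nat.cast_one] at t1 t2
        exact ih _ hm _ _ t1 t2
  intro y hy
  obtain ⟨d, hd⟩ := exists_exp hq hq2 (hS y hy).1 (hS y hy).2
  exact ⟨d, hd, fun e he => funext fun n => key n y hy e d he hd⟩

end Pool.Agent.V11309.Uni
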