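import Mathlib
import Pool.Agent.V11309.Uni.Basic

/-! Non-uniqueness of the expansions of `x` for `x₀ ≤ x ≤ F q`. -/

namespace Pool.Agent.V11309.Uni

/-- `F q = 1/q + 1/(q^4 (q-1))`. -/
noncomputable def F (q : ℝ) : ℝ := 1 / q + 1 / (q ^ 4 * (q - 1))

lemma TwoExp.zeros {q y : ℝ} (hq : 0 < q) (n : ℕ) (h : TwoExp q (q ^ n * y)) : TwoExp q y := by
  induction n with
  | zero => simpa using h
  | succ n ih =>
    apply ih
    have := h.zero hq
    have e : q ^ (n + 1) * y / q = q ^ n * y := by rw [pow_succ]; field_simp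
    rwa [e] at this

lemma two_of_le_F {q x G : ℝ} (hG : G ^ 2 = G + 1) (hG0 : 0 < G) (hq : 1 < q) (hq2 : q ≤ 2)
    (hx0 : 1 / G ≤ x) (hx1 : x < 1) (hxF : x ≤ F q) : TwoExp q x := by
  have h0 : 0 < q := by linarith
  have hq1 : 0 < q - 1 := by linarith
  have hx0' : 1 ≤ G * x := by rw [div_le_iff₀ hG0] at hx0; linarith
  have hxpos : 0 < x := by
    have : 0 < 1 / G := by positivity
    linarith
  have hG1 : 1 < G := by nlinarith
  by_cases hA : q * (q - 1) * x ≤ 1
  · have hxS : x ≤ 1 / (q * (q - 1)) := by rw [le_div_iff₀ (by positivity)]; linarith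
    by_cases hA1 : 1 / q ≤ x
    · exact two_of_switch hq hq2 hA1 hxS
    · push Not at hA1
      rw [lt_div_iff₀ h0] at hA1
      -- q < G
      have hqG : q < G := by
        by_contra h
        push Not at h
        nlinarith
      have hqq : q * (q - 1) ≤ 1 := by nlinarith
      obtain ⟨n, hn⟩ := pow_unbounded_of_one_lt (1 / (q * x)) hq
      have hex : ∃ n : ℕ, 1 / q ≤ q ^ n * x := by
        refine ⟨n, ?_⟩
        rw [div_lt_iff₀ (by positivity)] at hn
        rw [div_le_iff₀ h0]
        nlinarith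
      classical
      set k := Nat.find hex with hk
      have hk1 : 1 / q ≤ q ^ k * x := Nat.find_spec hex
      have hkpos : k ≠ 0 := by
        intro h
        rw [h] at hk1
        simp only [pow_zero, one_mul] at hk1
        rw [div_le_iff₀ h0] at hk1
        linarith
      obtain ⟨m, hm⟩ := Nat.exists_eq_succ_of_ne_zero hkpos
      have hmin : ¬ (1 / q ≤ q ^ m * x) := Nat.find_min hex (by rw [← hk, hm]; exact Nat.lt_succ_self m)
      push Not at hmin
      rw [lt_div_iff₀ h0] at hmin
      have hlt : q ^ k * x < 1 := by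
        rw [hm, Nat.succ_eq_add_one, pow_succ]
        nlinarith
      have hle : q ^ k * x ≤ 1 / (q * (q - 1)) := by
        rw [le_div_iff₀ (by positivity)]
        have : 0 < q * (q - 1) := by positivity
        nlinarith
      exact TwoExp.zeros h0 k (two_of_switch hq hq2 hk1 hle)
  · push Not at hA
    have hlow : 1 ≤ q ^ 4 * x - q ^ 3 := by
      by_cases hu : G ≤ q ^ 2 - q
      · have hqG : G < q := by nlinarith
        have e1 : q ^ 3 * (q - G) ≥ G := by
          have h3 : q ^ 3 ≥ G * (q * G + 1) := by nlinarith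
          have h4 : (q * G + 1) * (q - G) ≥ 1 := by nlinarith
          have h5 : 0 < q - G := by linarith
          nlinarith
        have e2 : G * (q ^ 4 * x - q ^ 3) ≥ q ^ 3 * (q - G) := by
          have : q ^ 4 * (G * x) ≥ q ^ 4 := by
            have : 0 < q ^ 4 := by positivity
            nlinarith
          nlinarith
        nlinarith
      · push Not at hu
        have e1 : (q ^ 2 - q) ^ 2 - (q ^ 2 - q) - 1 ≤ 0 := by
          have : 0 < q ^ 2 - q := by nlinarith
          nlinarith
        have e2 : q ^ 3 * (q * (q - 1) * x) ≥ q ^ 3 := by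
          have : 0 < q ^ 3 := by positivity
          nlinarith
        -- (q-1)(q^4 x - q^3) ≥ q^3 - q^3 (q-1) = q^3 (2 - q) ≥ q - 1
        have e3 : (q - 1) * (q ^ 4 * x - q ^ 3) ≥ (q - 1) * 1 := by nlinarith
        exact le_of_mul_le_mul_left e3 hq1
    have hup : q ^ 3 * x - q ^ 2 ≤ 1 / (q * (q - 1)) := by
      unfold F at hxF
      have h1 : q ^ 3 * x ≤ q ^ 3 * (1 / q + 1 / (q ^ 4 * (q - 1))) := by gcongr
      have h2 : q ^ 3 * (1 / q + 1 / (q ^ 4 * (q - 1))) = q ^ 2 + 1 / (q * (q - 1)) := by
        field_simp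
      linarith
    have hlow' : 1 / q ≤ q ^ 3 * x - q ^ 2 := by
      rw [div_le_iff₀ h0]; nlinarith
    have h1 := two_of_switch hq hq2 hlow' hup
    have h2 := ((h1.zero h0).zero h0).one h0
    have e : (1 + (q ^ 3 * x - q ^ 2) / q / q) / q = x := by
      field_simp
      ring
    rwa [e] at h2

end Pool.Agent.V11309.Uni
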