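import Mathlib
import Pool.Agent.V11309.Uni.NonUnique

/-! Families of unique expansions and coverage of most of `(0, ∞)` by bases at most `1.88`. -/

namespace Pool.Agent.V11309.Uni

lemma UE_top {q : ℝ} (hq : 1 < q) (hq2 : q ≤ 2) : UE q (1 / (q - 1)) := by
  have hq1 : 0 < q - 1 := by linarith
  refine UE_of_invariant hq hq2 {1 / (q - 1)} ?_ ?_ _ rfl
  · rintro y rfl
    exact ⟨by positivity, le_refl _⟩
  · rintro y rfl
    right
    have e : q * (1 / (q - 1)) - 1 = 1 / (q - 1) := by field_simp; ring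
    rw [e]
    refine ⟨rfl, ?_⟩
    gcongr
    linarith

/-- The value of `(10)^∞`. -/
noncomputable def v10 (q : ℝ) : ℝ := q / (q ^ 2 - 1)

lemma UE_v10 {q : ℝ} (hq : 1 < q) (hq2 : q ≤ 2) (hg : 0 < q ^ 2 - q - 1) : UE q (v10 q) := by
  have h1 : 0 < q ^ 2 - 1 := by nlinarith
  have hq1 : 0 < q - 1 := by linarith
  refine UE_of_invariant hq hq2 {q / (q ^ 2 - 1), 1 / (q ^ 2 - 1)} ?_ ?_ _ (Or.inl rfl)
  · rintro y (rfl | rfl)
    · refine ⟨by positivity, ?_⟩
      rw [div_le_div_iff₀ h1 hq1]; nlinarith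
    · refine ⟨by positivity, ?_⟩
      rw [div_le_div_iff₀ h1 hq1]; nlinarith
  · rintro y (rfl | rfl)
    · right
      have e : q * (q / (q ^ 2 - 1)) - 1 = 1 / (q ^ 2 - 1) := by field_simp; ring
      rw [e]
      refine ⟨Or.inr rfl, ?_⟩
      rw [div_lt_div_iff₀ hq1 h1]; nlinarith
    · left
      have e : q * (1 / (q ^ 2 - 1)) = q / (q ^ 2 - 1) := by field_simp
      rw [e]
      refine ⟨Or.inl rfl, ?_⟩
      rw [div_lt_one h1]; linarith

lemma v10_lt_one {q : ℝ} (hq : 1 < q) (hg : 0 < q ^ 2 - q - 1) : v10 q < 1 := by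
  have h1 : 0 < q ^ 2 - 1 := by nlinarith
  unfold v10
  rw [div_lt_one h1]; linarith

lemma kappa_lt_v10 {q : ℝ} (hq : 1 < q) (hg : 0 < q ^ 2 - q - 1) : (2 - q) / (q - 1) < v10 q := by
  have h1 : 0 < q ^ 2 - 1 := by nlinarith
  have hq1 : 0 < q - 1 := by linarith
  unfold v10
  rw [div_lt_div_iff₀ hq1 h1]; nlinarith

/-- The value of `(1001)^∞`. -/
noncomputable def v1001 (q : ℝ) : ℝ := (q ^ 3 + 1) / (q ^ 4 - 1)

lemma inv_1001 {q : ℝ} (hq : 1 < q) (hq2 : q ≤ 2) (hg : 0 < q ^ 3 - 2 * q ^ 2 + q - 1) :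
    ∀ y ∈ ({(q ^ 3 + 1) / (q ^ 4 - 1), (q + 1) / (q ^ 4 - 1), (q ^ 2 + q) / (q ^ 4 - 1),
      (q ^ 3 + q ^ 2) / (q ^ 4 - 1)} : Set ℝ), UE q y := by
  have h1 : 0 < q ^ 4 - 1 := by nlinarith [sq_nonneg (q ^ 2 - 1), sq_nonneg (q - 1)]
  have hq1 : 0 < q - 1 := by linarith
  have hgg : 0 < (q + 1) * (q ^ 3 - 2 * q ^ 2 + q - 1) := by positivity
  have hgg' : 0 < (q - 1) * (q + 1) * (q ^ 3 - 2 * q ^ 2 + q - 1) := by positivity
  have hqq : q < q ^ 2 := by nlinarith
  have hqqq : q ^ 2 < q ^ 3 := by nlinarith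
  refine UE_of_invariant hq hq2 _ ?_ ?_
  · rintro y (rfl | rfl | rfl | rfl)
    · refine ⟨by positivity, ?_⟩
      rw [div_le_div_iff₀ h1 hq1]; nlinarith
    · refine ⟨by positivity, ?_⟩
      rw [div_le_div_iff₀ h1 hq1]; nlinarith
    · refine ⟨by positivity, ?_⟩
      rw [div_le_div_iff₀ h1 hq1]; nlinarith
    · refine ⟨by positivity, ?_⟩
      rw [div_le_div_iff₀ h1 hq1]; nlinarith
  · rintro y (rfl | rfl | rfl | rfl)
    · right
      have e : q * ((q ^ 3 + 1) / (q ^ 4 - 1)) - 1 = (q + 1) / (q ^ 4 - 1) := by field_simp; ring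
      rw [e]
      refine ⟨Or.inr (Or.inl rfl), ?_⟩
      rw [div_lt_div_iff₀ hq1 h1]; nlinarith
    · left
      have e : q * ((q + 1) / (q ^ 4 - 1)) = (q ^ 2 + q) / (q ^ 4 - 1) := by field_simp
      rw [e]
      refine ⟨Or.inr (Or.inr (Or.inl rfl)), ?_⟩
      rw [div_lt_one h1]; nlinarith
    · left
      have e : q * ((q ^ 2 + q) / (q ^ 4 - 1)) = (q ^ 3 + q ^ 2) / (q ^ 4 - 1) := by
        field_simp
      rw [e]
      refine ⟨Or.inr (Or.inr (Or.inr rfl)), ?_⟩
      rw [div_lt_one h1]; nlinarith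
    · right
      have e : q * ((q ^ 3 + q ^ 2) / (q ^ 4 - 1)) - 1 = (q ^ 3 + 1) / (q ^ 4 - 1) := by
        field_simp; ring
      rw [e]
      refine ⟨Or.inl rfl, ?_⟩
      rw [div_lt_div_iff₀ hq1 h1]; nlinarith

lemma UE_v1001 {q : ℝ} (hq : 1 < q) (hq2 : q ≤ 2) (hg : 0 < q ^ 3 - 2 * q ^ 2 + q - 1) :
    UE q (v1001 q) := inv_1001 hq hq2 hg _ (Or.inl rfl)

/-- The value of `(0011)^∞`. -/
noncomputable def v0011 (q : ℝ) : ℝ := (q + 1) / (q ^ 4 - 1)

lemma UE_v0011 {q : ℝ} (hq : 1 < q) (hq2 : q ≤ 2) (hg : 0 < q ^ 3 - 2 * q ^ 2 + q - 1) :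
    UE q (v0011 q) := inv_1001 hq hq2 hg _ (Or.inr (Or.inl rfl))

/-- The value of `(100)^∞`. -/
noncomputable def v100 (q : ℝ) : ℝ := q ^ 2 / (q ^ 3 - 1)

/-- The value of `(001)^∞`. -/
noncomputable def v001 (q : ℝ) : ℝ := 1 / (q ^ 3 - 1)

lemma inv_100 {q : ℝ} (hq : 1 < q) (hq2 : q ≤ 2) (hg : 0 < q ^ 3 - q ^ 2 - q - 1) :
    ∀ y ∈ ({q ^ 2 / (q ^ 3 - 1), 1 / (q ^ 3 - 1), q / (q ^ 3 - 1)} : Set ℝ), UE q y := by
  have h1 : 0 < q ^ 3 - 1 := by nlinarith
  have hq1 : 0 < q - 1 := by linarith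
  have hgg' : 0 < (q - 1) * (q ^ 3 - q ^ 2 - q - 1) := by positivity
  refine UE_of_invariant hq hq2 _ ?_ ?_
  · rintro y (rfl | rfl | rfl)
    · refine ⟨by positivity, ?_⟩
      rw [div_le_div_iff₀ h1 hq1]; nlinarith
    · refine ⟨by positivity, ?_⟩
      rw [div_le_div_iff₀ h1 hq1]; nlinarith
    · refine ⟨by positivity, ?_⟩
      rw [div_le_div_iff₀ h1 hq1]; nlinarith
  · rintro y (rfl | rfl | rfl)
    · right
      have e : q * (q ^ 2 / (q ^ 3 - 1)) - 1 = 1 / (q ^ 3 - 1) := by field_simp; ring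
      rw [e]
      refine ⟨Or.inr (Or.inl rfl), ?_⟩
      rw [div_lt_div_iff₀ hq1 h1]; nlinarith
    · left
      have e : q * (1 / (q ^ 3 - 1)) = q / (q ^ 3 - 1) := by field_simp
      rw [e]
      refine ⟨Or.inr (Or.inr rfl), ?_⟩
      rw [div_lt_one h1]; nlinarith
    · left
      have e : q * (q / (q ^ 3 - 1)) = q ^ 2 / (q ^ 3 - 1) := by field_simp
      rw [e]
      refine ⟨Or.inl rfl, ?_⟩
      rw [div_lt_one h1]; nlinarith

lemma UE_v100 {q : ℝ} (hq : 1 < q) (hq2 : q ≤ 2) (hg : 0 < q ^ 3 - q ^ 2 - q - 1) :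
    UE q (v100 q) := inv_100 hq hq2 hg _ (Or.inl rfl)

lemma UE_v001 {q : ℝ} (hq : 1 < q) (hq2 : q ≤ 2) (hg : 0 < q ^ 3 - q ^ 2 - q - 1) :
    UE q (v001 q) := inv_100 hq hq2 hg _ (Or.inr (Or.inl rfl))

/-- Intermediate value cover. -/
lemma cover {f : ℝ → ℝ} {ql qr x : ℝ} (hlr : ql ≤ qr) (hf : ContinuousOn f (Set.Icc ql qr))
    (h1 : f qr ≤ x) (h2 : x ≤ f ql) (hU : ∀ q ∈ Set.Icc ql qr, UE q (f q)) :
    ∃ q, ql ≤ q ∧ q ≤ qr ∧ UE q x := by
  obtain ⟨q, hq, hqx⟩ := intermediate_value_Icc' hlr hf ⟨h1, h2⟩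
  exact ⟨q, hq.1, hq.2, hqx ▸ hU q hq⟩

lemma cover_C1 {x : ℝ} (hx : 1.2 ≤ x) : ∃ q, 1 < q ∧ q ≤ 1.88 ∧ UE q x := by
  have hx0 : 0 < x := by linarith
  refine ⟨1 + 1 / x, by linarith [show 0 < 1 / x by positivity], ?_, ?_⟩
  · have : 1 / x ≤ 1 / 1.2 := by gcongr
    norm_num at this ⊢
    linarith
  · have h1 : 1 < 1 + 1 / x := by linarith [show 0 < 1 / x by positivity]
    have h2 : 1 + 1 / x ≤ 2 := by
      have : 1 / x ≤ 1 / 1.2 := by gcongr
      norm_num at this ⊢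
      linarith
    have := UE_top h1 h2
    have e : 1 / (1 + 1 / x - 1) = x := by field_simp; ring
    rwa [e] at this

lemma cover_C2 {x : ℝ} (h1 : 0.93 ≤ x) (h2 : x ≤ 1.2) : ∃ q, 1 < q ∧ q ≤ 1.88 ∧ UE q x := by
  obtain ⟨q, hq1, hq2, hU⟩ := cover (f := fun q => (1 + v10 q) / q) (ql := 1.62) (qr := 1.88)
    (x := x) (by norm_num) (by
      unfold v10
      apply ContinuousOn.div _ continuousOn_id
      · intro q hq; have := hq.1; simp; linarith
      · apply ContinuousOn.add continuousOn_const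
        apply ContinuousOn.div continuousOn_id (by fun_prop)
        intro q hq; have := hq.1; nlinarith)
    (by unfold v10; norm_num at h1 ⊢; linarith) (by unfold v10; norm_num at h2 ⊢; linarith) (by
      intro q hq
      have a1 := hq.1; have a2 := hq.2
      norm_num at a1 a2
      have hg : 0 < q ^ 2 - q - 1 := by nlinarith
      exact UE_one_step (by linarith) (UE_v10 (by linarith) (by linarith) hg)
        (kappa_lt_v10 (by linarith) hg))
  exact ⟨q, by linarith, by linarith, hU⟩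

lemma cover_C3 {x : ℝ} (h1 : 0.75 ≤ x) (h2 : x ≤ 0.97) : ∃ q, 1 < q ∧ q ≤ 1.88 ∧ UE q x := by
  obtain ⟨q, hq1, hq2, hU⟩ := cover (f := v10) (ql := 1.62) (qr := 1.88)
    (x := x) (by norm_num) (by
      unfold v10
      apply ContinuousOn.div continuousOn_id (by fun_prop)
      intro q hq; have := hq.1; nlinarith)
    (by unfold v10; norm_num at h1 ⊢; linarith) (by unfold v10; norm_num at h2 ⊢; linarith) (by
      intro q hq
      have a1 := hq.1; have a2 := hq.2
      norm_num at a1 a2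
      have hg : 0 < q ^ 2 - q - 1 := by nlinarith
      exact UE_v10 (by linarith) (by linarith) hg)
  exact ⟨q, by linarith, by linarith, hU⟩

lemma cover_C4 {x : ℝ} (h1 : 0.67 ≤ x) (h2 : x ≤ 0.753) : ∃ q, 1 < q ∧ q ≤ 1.88 ∧ UE q x := by
  obtain ⟨q, hq1, hq2, hU⟩ := cover (f := v1001) (ql := 1.755) (qr := 1.88)
    (x := x) (by norm_num) (by
      unfold v1001
      apply ContinuousOn.div (by fun_prop) (by fun_prop)
      intro q hq
      have a1 := hq.1
      have : (1.755 : ℝ) ^ 4 ≤ q ^ 4 := by gcongr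
      norm_num at this
      linarith)
    (by unfold v1001; norm_num at h1 ⊢; linarith) (by unfold v1001; norm_num at h2 ⊢; linarith) (by
      intro q hq
      have a1 := hq.1; have a2 := hq.2
      norm_num at a1 a2
      have hg : 0 < q ^ 3 - 2 * q ^ 2 + q - 1 := by
        nlinarith [mul_nonneg (sub_nonneg.mpr a1) (sub_nonneg.mpr a1),
          mul_nonneg (mul_nonneg (sub_nonneg.mpr a1) (sub_nonneg.mpr a1)) (sub_nonneg.mpr a1)]
      exact UE_v1001 (by linarith) (by linarith) hg)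
  exact ⟨q, by linarith, by linarith, hU⟩

lemma cover_C5 {x : ℝ} (h1 : 0.645 ≤ x) (h2 : x ≤ 0.691) : ∃ q, 1 < q ∧ q ≤ 1.88 ∧ UE q x := by
  obtain ⟨q, hq1, hq2, hU⟩ := cover (f := fun q => (1 + v10 q / q / q) / q) (ql := 1.802)
    (qr := 1.88) (x := x) (by norm_num) (by
      unfold v10
      have hne : ∀ q ∈ Set.Icc (1.802 : ℝ) 1.88, q ≠ 0 := by
        intro q hq; have := hq.1; norm_num at this; linarith
      apply ContinuousOn.div _ continuousOn_id hne
      apply ContinuousOn.add continuousOn_const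
      apply ContinuousOn.div _ continuousOn_id hne
      apply ContinuousOn.div _ continuousOn_id hne
      apply ContinuousOn.div continuousOn_id (by fun_prop)
      intro q hq; have := hq.1; nlinarith)
    (by unfold v10; norm_num at h1 ⊢; linarith) (by unfold v10; norm_num at h2 ⊢; linarith) (by
      intro q hq
      have a1 := hq.1; have a2 := hq.2
      norm_num at a1 a2
      have hg : 0 < q ^ 2 - q - 1 := by nlinarith
      have hv := v10_lt_one (by linarith) hg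
      have hv0 : 0 < v10 q := by
        unfold v10
        have : 0 < q ^ 2 - 1 := by nlinarith
        positivity
      have s1 := UE_zero_step (by linarith) (UE_v10 (by linarith) (by linarith) hg) hv
      have hv1 : v10 q / q < 1 := by rw [div_lt_one (by linarith)]; linarith
      have s2 := UE_zero_step (by linarith) s1 hv1
      refine UE_one_step (by linarith) s2 ?_
      have e : v10 q / q / q = 1 / (q * (q ^ 2 - 1)) := by
        unfold v10
        have : q ^ 2 - 1 ≠ 0 := by nlinarith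
        have : q ≠ 0 := by linarith
        field_simp
      rw [e, div_lt_div_iff₀ (by linarith) (by
        have : 0 < q ^ 2 - 1 := by nlinarith
        have : 0 < q := by linarith
        positivity)]
      have hh : 0 < q ^ 3 - q ^ 2 - 2 * q + 1 := by
        nlinarith [mul_nonneg (sub_nonneg.mpr a1) (sub_nonneg.mpr a1),
          mul_nonneg (mul_nonneg (sub_nonneg.mpr a1) (sub_nonneg.mpr a1)) (sub_nonneg.mpr a1)]
      nlinarith)
  exact ⟨q, by linarith, by linarith, hU⟩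

lemma cover_C6 {x : ℝ} (h1 : 0.6262 ≤ x) (h2 : x ≤ 0.647) : ∃ q, 1 < q ∧ q ≤ 1.88 ∧ UE q x := by
  obtain ⟨q, hq1, hq2, hU⟩ := cover (f := v100) (ql := 1.84) (qr := 1.88)
    (x := x) (by norm_num) (by
      unfold v100
      apply ContinuousOn.div (by fun_prop) (by fun_prop)
      intro q hq
      have a1 := hq.1
      have : (1.84 : ℝ) ^ 3 ≤ q ^ 3 := by gcongr
      norm_num at this
      linarith)
    (by unfold v100; norm_num at h1 ⊢; linarith) (by unfold v100; norm_num at h2 ⊢; linarith) (by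
      intro q hq
      have a1 := hq.1; have a2 := hq.2
      norm_num at a1 a2
      have hg : 0 < q ^ 3 - q ^ 2 - q - 1 := by
        nlinarith [mul_nonneg (sub_nonneg.mpr a1) (sub_nonneg.mpr a1),
          mul_nonneg (mul_nonneg (sub_nonneg.mpr a1) (sub_nonneg.mpr a1)) (sub_nonneg.mpr a1)]
      exact UE_v100 (by linarith) (by linarith) hg)
  exact ⟨q, by linarith, by linarith, hU⟩

/-- Everything at least `0.6262` is covered. -/
lemma cover_big {x : ℝ} (h : 0.6262 ≤ x) : ∃ q, 1 < q ∧ q ≤ 1.88 ∧ UE q x := by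
  rcases le_or_gt 1.2 x with h1 | h1
  · exact cover_C1 h1
  rcases le_or_gt 0.93 x with h2 | h2
  · exact cover_C2 h2 h1.le
  rcases le_or_gt 0.75 x with h3 | h3
  · exact cover_C3 h3 (by norm_num at h2 ⊢; linarith)
  rcases le_or_gt 0.67 x with h4 | h4
  · exact cover_C4 h4 (by norm_num at h3 ⊢; linarith)
  rcases le_or_gt 0.645 x with h5 | h5
  · exact cover_C5 h5 (by norm_num at h4 ⊢; linarith)
  exact cover_C6 h (by norm_num at h5 ⊢; linarith)

end Pool.Agent.V11309.Uni
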