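import Mathlib
import Pool.Agent.V11309.Uni.Families

/-! Coverage of `(0, 1/G)`. -/

namespace Pool.Agent.V11309.Uni

lemma UE_v10_pow {q : ℝ} (hq : 1 < q) (hq2 : q ≤ 2) (hg : 0 < q ^ 2 - q - 1) (k : ℕ) :
    UE q (v10 q / q ^ k) := by
  have h0 : 0 < q := by linarith
  induction k with
  | zero => simpa using UE_v10 hq hq2 hg
  | succ k ih =>
    have hv := v10_lt_one hq hg
    have hlt : v10 q / q ^ k < 1 := by
      have h1 : 1 ≤ q ^ k := one_le_pow₀ hq.le
      rw [div_lt_one (by positivity)]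
      linarith
    have := UE_zero_step hq ih hlt
    have e : v10 q / q ^ k / q = v10 q / q ^ (k + 1) := by rw [pow_succ]; field_simp
    rwa [e] at this

lemma G_bounds {G : ℝ} (hG : G ^ 2 = G + 1) (hG0 : 0 < G) : 1.618 < G ∧ G < 1.6181 := by
  constructor <;> nlinarith

lemma v10_G {G : ℝ} (hG : G ^ 2 = G + 1) (hG0 : 0 < G) : v10 G = 1 := by
  unfold v10
  have h : G ^ 2 - 1 = G := by linarith
  rw [h, div_self hG0.ne']

lemma cover_pow {G x : ℝ} (hG : G ^ 2 = G + 1) (hG0 : 0 < G) (k : ℕ)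
    (h1 : v10 1.88 / 1.88 ^ k ≤ x) (h2 : x < (1 / G) ^ k) :
    ∃ q, 1 < q ∧ q ≤ 1.88 ∧ UE q x := by
  obtain ⟨g1, g2⟩ := G_bounds hG hG0
  have hcont : ContinuousOn (fun q : ℝ => v10 q / q ^ k) (Set.Icc G 1.88) := by
    unfold v10
    apply ContinuousOn.div
    · apply ContinuousOn.div continuousOn_id (by fun_prop)
      intro q hq; have := hq.1; nlinarith
    · fun_prop
    · intro q hq; have := hq.1
      have : 0 < q := by linarith
      positivity
  have hxG : x ≤ v10 G / G ^ k := by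
    rw [v10_G hG hG0, ← one_div_pow]; exact h2.le
  obtain ⟨q, hq, hqx⟩ := intermediate_value_Icc' (by norm_num at g2 ⊢; linarith) hcont ⟨h1, hxG⟩
  have hqG : G ≠ q := by
    rintro rfl
    simp only at hqx
    rw [v10_G hG hG0, ← one_div_pow] at hqx
    linarith
  have hqG' : G < q := lt_of_le_of_ne hq.1 hqG
  have a2 := hq.2
  norm_num at a2 g1
  have hg : 0 < q ^ 2 - q - 1 := by nlinarith
  refine ⟨q, by linarith, hq.2, ?_⟩
  have := UE_v10_pow (q := q) (by linarith) (by linarith) hg k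
  simp only at hqx
  rwa [hqx] at this

lemma cover_mid {x : ℝ} (h1 : 0.38 ≤ x) (h2 : x ≤ 0.395) : ∃ q, 1 < q ∧ q ≤ 1.88 ∧ UE q x := by
  obtain ⟨q, hq1, hq2, hU⟩ := cover (f := fun q => v1001 q / q) (ql := 1.755) (qr := 1.88)
    (x := x) (by norm_num) (by
      unfold v1001
      apply ContinuousOn.div
      · apply ContinuousOn.div (by fun_prop) (by fun_prop)
        intro q hq
        have a1 := hq.1
        have : (1.755 : ℝ) ^ 4 ≤ q ^ 4 := by gcongr
        norm_num at this
        linarith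
      · exact continuousOn_id
      · intro q hq; have := hq.1; norm_num at this; simp; linarith)
    (by unfold v1001; norm_num at h1 ⊢; linarith) (by unfold v1001; norm_num at h2 ⊢; linarith) (by
      intro q hq
      have a1 := hq.1; have a2 := hq.2
      norm_num at a1 a2
      have hg : 0 < q ^ 3 - 2 * q ^ 2 + q - 1 := by
        nlinarith [mul_nonneg (sub_nonneg.mpr a1) (sub_nonneg.mpr a1),
          mul_nonneg (mul_nonneg (sub_nonneg.mpr a1) (sub_nonneg.mpr a1)) (sub_nonneg.mpr a1)]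
      have hgg : 0 < (q + 1) * (q ^ 3 - 2 * q ^ 2 + q - 1) := by
        have : 0 < q + 1 := by linarith
        positivity
      refine UE_zero_step (by linarith) (UE_v1001 (by linarith) (by linarith) hg) ?_
      unfold v1001
      have h4 : (1.755 : ℝ) ^ 4 ≤ q ^ 4 := pow_le_pow_left₀ (by norm_num) hq.1 4
      norm_num at h4
      rw [div_lt_one (by linarith)]
      nlinarith)
  exact ⟨q, by linarith, by linarith, hU⟩

lemma cover_small {G x : ℝ} (hG : G ^ 2 = G + 1) (hG0 : 0 < G) (hx : 0 < x) (hxG : x < 1 / G) :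
    ∃ q, 1 < q ∧ q ≤ 1.88 ∧ UE q x := by
  obtain ⟨g1, g2⟩ := G_bounds hG hG0
  norm_num at g1 g2
  have hex : ∃ n : ℕ, (1 / G) ^ n ≤ x := by
    obtain ⟨n, hn⟩ := exists_pow_lt_of_lt_one hx (y := 1 / G) (by rw [div_lt_one hG0]; linarith)
    exact ⟨n, hn.le⟩
  classical
  set n0 := Nat.find hex with hn0
  have hs : (1 / G) ^ n0 ≤ x := Nat.find_spec hex
  have hn1 : ¬ n0 ≤ 1 := by
    intro h
    have h1G : 1 / G < 1 := by rw [div_lt_one hG0]; linarith
    interval_cases n0
    · simp at hs; linarith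
    · simp at hs; simp at hxG; linarith
  push Not at hn1
  obtain ⟨k, hk⟩ : ∃ k, n0 = k + 1 := ⟨n0 - 1, by omega⟩
  have hk1 : 1 ≤ k := by omega
  have hmin : ¬ ((1 / G) ^ k ≤ x) := Nat.find_min hex (by rw [← hn0, hk]; exact Nat.lt_succ_self k)
  push Not at hmin
  rw [hk] at hs
  rcases Nat.lt_or_ge k 2 with h2 | h2
  · have : k = 1 := by omega
    subst this
    rcases le_or_gt 0.395 x with h3 | h3
    · refine cover_pow hG hG0 1 ?_ hmin
      unfold v10
      norm_num at h3 ⊢
      linarith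
    · refine cover_mid ?_ h3.le
      have : (0.38 : ℝ) ≤ (1 / G) ^ 2 := by
        rw [one_div_pow, hG, le_div_iff₀ (by linarith)]
        linarith
      norm_num at this hs ⊢
      linarith
  · refine cover_pow hG hG0 k ?_ hmin
    refine le_trans ?_ hs
    -- v10 1.88 / 1.88^k ≤ (1/G)^(k+1)
    have key : ∀ m : ℕ, v10 1.88 * G ^ (m + 3) ≤ 1.88 ^ (m + 2) := by
      intro m
      induction m with
      | zero =>
        have e : G ^ 3 = 2 * G + 1 := by nlinarith
        simp only [zero_add]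
        rw [e]
        unfold v10
        norm_num
        linarith
      | succ m ih =>
        have e1 : v10 1.88 * G ^ (m + 1 + 3) = v10 1.88 * G ^ (m + 3) * G := by ring
        have e2 : (1.88 : ℝ) ^ (m + 1 + 2) = 1.88 ^ (m + 2) * 1.88 := by ring
        rw [e1, e2]
        apply mul_le_mul ih (by norm_num; linarith) hG0.le (by positivity)
    obtain ⟨m, rfl⟩ : ∃ m, k = m + 2 := ⟨k - 2, by omega⟩
    have := key m
    rw [one_div_pow, div_le_div_iff₀ (by positivity) (by positivity)]
    simpa using this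

end Pool.Agent.V11309.Uni
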