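import Mathlib
import Pool.Agent.V11309.Uni.Small

/-! Coverage near the point `F a`, where `a` is the base with quasi-greedy expansion
`(1110010)^∞`. -/

namespace Pool.Agent.V11309.Uni

/-- `κ q = 1/(q-1) - 1`. -/
noncomputable def kap (q : ℝ) : ℝ := (2 - q) / (q - 1)

/-- Value of `(0001101)^∞`. -/
noncomputable def Ys (q : ℝ) : ℝ := (q ^ 3 + q ^ 2 + 1) / (q ^ 7 - 1)

/-- Value of `(0001101)^k` followed by a tail of value `y`. -/
noncomputable def Yk (q y : ℝ) (k : ℕ) : ℝ := Ys q + (y - Ys q) / q ^ (7 * k)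

lemma Yk_zero (q y : ℝ) : Yk q y 0 = y := by simp [Yk]

lemma Yk_succ {q : ℝ} (hq : 1 < q) (y : ℝ) (k : ℕ) :
    Yk q y (k + 1) = (q ^ 3 + q ^ 2 + 1 + Yk q y k) / q ^ 7 := by
  have h0 : q ≠ 0 := by linarith
  have h7 : q ^ 7 - 1 ≠ 0 := by
    have : 1 < q ^ 7 := one_lt_pow₀ hq (by norm_num)
    linarith
  unfold Yk Ys
  rw [show 7 * (k + 1) = 7 * k + 7 by ring, pow_add]
  field_simp
  ring

lemma UE_block {q Y : ℝ} (h1 : 1.84 ≤ q) (h2 : q ≤ 1.9) (hU : UE q Y) (hk : kap q < Y)
    (hY : Y < q - 1) : UE q ((q ^ 3 + q ^ 2 + 1 + Y) / q ^ 7) := by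
  norm_num at h1 h2
  have h0 : 0 < q := by linarith
  have hq : 1 < q := by linarith
  have hq1 : 0 < q - 1 := by linarith
  have hkap : kap q ≤ 0.2 := by
    unfold kap; rw [div_le_iff₀ hq1]; norm_num; linarith
  have hkap0 : 0 < kap q := by
    unfold kap; apply div_pos <;> linarith
  have hYpos : 0 < Y := by linarith
  norm_num at hkap
  have s1 := UE_one_step hq hU hk
  have b1 : (1 + Y) / q < 1 := by rw [div_lt_one h0]; linarith
  have b1' : 1 / q < (1 + Y) / q := by gcongr; linarith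
  have s2 := UE_zero_step hq s1 b1
  have hq2 : 0.27 < 1 / q / q := by
    rw [div_div, lt_div_iff₀ (by positivity)]; norm_num; nlinarith
  norm_num at hq2
  have b2 : kap q < (1 + Y) / q / q := by
    have : 1 / q / q < (1 + Y) / q / q := by gcongr
    rw [one_div] at this
    linarith
  have s3 := UE_one_step hq s2 b2
  have b2' : (1 + Y) / q / q < 1 / q := by gcongr
  have b3 : kap q < (1 + (1 + Y) / q / q) / q := by
    have e1 : 1 / q < (1 + (1 + Y) / q / q) / q := by
      gcongr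
      have : 0 < (1 + Y) / q / q := by positivity
      linarith
    have e2 : 0.5 < 1 / q := by rw [lt_div_iff₀ h0]; norm_num; linarith
    norm_num at e2
    rw [one_div] at e1
    linarith
  have s4 := UE_one_step hq s3 b3
  have b4 : (1 + (1 + (1 + Y) / q / q) / q) / q < 1 := by
    rw [div_lt_one h0]
    have e1 : (1 + (1 + Y) / q / q) / q < (1 + 1 / q) / q := by gcongr
    have e2 : (1 + 1 / q) / q < q - 1 := by
      rw [div_lt_iff₀ h0]
      have e3 : 1 / q < q * (q - 1) - 1 := by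
        rw [div_lt_iff₀ h0]
        nlinarith [mul_nonneg (sub_nonneg.mpr h1) (sub_nonneg.mpr h1),
          mul_nonneg (mul_nonneg (sub_nonneg.mpr h1) (sub_nonneg.mpr h1)) (sub_nonneg.mpr h1)]
      linarith
    linarith
  have s5 := UE_zero_step hq s4 b4
  have b5 : (1 + (1 + (1 + Y) / q / q) / q) / q / q < 1 := by
    rw [div_lt_one h0]; linarith
  have s6 := UE_zero_step hq s5 b5
  have b6 : (1 + (1 + (1 + Y) / q / q) / q) / q / q / q < 1 := by
    rw [div_lt_one h0]; linarith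
  have s7 := UE_zero_step hq s6 b6
  have e : (1 + (1 + (1 + Y) / q / q) / q) / q / q / q / q = (q ^ 3 + q ^ 2 + 1 + Y) / q ^ 7 := by
    field_simp
    ring
  rwa [e] at s7

lemma UE_prefix {q Y : ℝ} (h1 : 1.84 ≤ q) (h2 : q ≤ 1.9) (hU : UE q Y) (hk : kap q < Y)
    (hY : Y < q - 1) : UE q ((q ^ 3 + 1 + Y) / q ^ 4) := by
  norm_num at h1 h2
  have h0 : 0 < q := by linarith
  have hq : 1 < q := by linarith
  have hq1 : 0 < q - 1 := by linarith
  have s1 := UE_one_step hq hU hk
  have b1 : (1 + Y) / q < 1 := by rw [div_lt_one h0]; linarith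
  have s2 := UE_zero_step hq s1 b1
  have b2 : (1 + Y) / q / q < 1 := by rw [div_lt_one h0]; linarith
  have s3 := UE_zero_step hq s2 b2
  have b3 : (2 - q) / (q - 1) < (1 + Y) / q / q / q := by
    have e1 : (1 + kap q) / q / q / q < (1 + Y) / q / q / q := by gcongr
    have e2 : (1 + kap q) / q / q / q = 1 / ((q - 1) * q ^ 3) := by
      unfold kap; field_simp; ring
    have e3 : (2 - q) / (q - 1) < 1 / ((q - 1) * q ^ 3) := by
      rw [div_lt_div_iff₀ hq1 (by positivity)]
      have : (2 - q) * q ^ 3 < 1 := by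
        nlinarith [mul_nonneg (sub_nonneg.mpr h1) (sub_nonneg.mpr h1),
          mul_nonneg (mul_nonneg (sub_nonneg.mpr h1) (sub_nonneg.mpr h1)) (sub_nonneg.mpr h1),
          mul_nonneg (mul_nonneg (sub_nonneg.mpr h1) (sub_nonneg.mpr h1))
            (mul_nonneg (sub_nonneg.mpr h1) (sub_nonneg.mpr h1))]
      nlinarith
    rw [e2] at e1
    linarith
  have s4 := UE_one_step hq s3 b3
  have e : (1 + (1 + Y) / q / q / q) / q = (q ^ 3 + 1 + Y) / q ^ 4 := by
    field_simp
    ring
  rwa [e] at s4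

lemma UE_Yk {q y : ℝ} (h1 : 1.84 ≤ q) (h2 : q ≤ 1.9) (hU : UE q y) (hy : y < q - 1)
    (hs : Ys q ≤ kap q) (k : ℕ) (hk : kap q < Yk q y k) :
    UE q (Yk q y k) ∧ Yk q y k < q - 1 := by
  have h1' := h1
  have h2' := h2
  norm_num at h1' h2'
  have hq : 1 < q := by linarith
  have h0 : 0 < q := by linarith
  induction k with
  | zero => rw [Yk_zero] at *; exact ⟨hU, hy⟩
  | succ k ih =>
    have hpos : 0 < y - Ys q := by
      by_contra h
      push Not at h
      unfold Yk at hk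
      have : (y - Ys q) / q ^ (7 * (k + 1)) ≤ 0 := div_nonpos_of_nonpos_of_nonneg h (by positivity)
      linarith
    have hmono : Yk q y (k + 1) ≤ Yk q y k := by
      unfold Yk
      have : (y - Ys q) / q ^ (7 * (k + 1)) ≤ (y - Ys q) / q ^ (7 * k) := by
        gcongr
        · exact hq.le
        · omega
      linarith
    obtain ⟨i1, i2⟩ := ih (by linarith)
    refine ⟨?_, by linarith⟩
    rw [Yk_succ hq]
    exact UE_block h1 h2 i1 (by linarith) i2

lemma pow_diff {t a : ℝ} (ht : 0 < t) (hta : t ≤ a) (n : ℕ) :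
    (n + 1 : ℝ) * t ^ n * (a - t) ≤ a ^ (n + 1) - t ^ (n + 1) ∧
    a ^ (n + 1) - t ^ (n + 1) ≤ (n + 1 : ℝ) * a ^ n * (a - t) := by
  have ha : 0 < a := by linarith
  have hd : 0 ≤ a - t := by linarith
  induction n with
  | zero => simp
  | succ n ih =>
    obtain ⟨i1, i2⟩ := ih
    constructor
    · have e : a ^ (n + 1 + 1) - t ^ (n + 1 + 1) =
          a * (a ^ (n + 1) - t ^ (n + 1)) + t ^ (n + 1) * (a - t) := by ring
      rw [e]
      have h1 : t * ((n + 1 : ℝ) * t ^ n * (a - t)) ≤ a * (a ^ (n + 1) - t ^ (n + 1)) := by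
        apply mul_le_mul hta i1 (by positivity) ha.le
      push_cast
      calc ((n : ℝ) + 1 + 1) * t ^ (n + 1) * (a - t) =
          t * ((n + 1 : ℝ) * t ^ n * (a - t)) + t ^ (n + 1) * (a - t) := by ring
        _ ≤ _ := by linarith
    · have e : a ^ (n + 1 + 1) - t ^ (n + 1 + 1) =
          t * (a ^ (n + 1) - t ^ (n + 1)) + a ^ (n + 1) * (a - t) := by ring
      rw [e]
      have h1 : t * (a ^ (n + 1) - t ^ (n + 1)) ≤ a * ((n + 1 : ℝ) * a ^ n * (a - t)) := by
        apply mul_le_mul hta i2 _ ha.le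
        have : t ^ (n + 1) ≤ a ^ (n + 1) := by gcongr
        linarith
      push_cast
      calc _ ≤ a * ((n + 1 : ℝ) * a ^ n * (a - t)) + a ^ (n + 1) * (a - t) := by linarith
        _ = _ := by ring

end Pool.Agent.V11309.Uni
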