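import Mathlib
import Pool.Agent.V11309.Uni.Near

/-! Coverage near the point `F a`: hits. -/

namespace Pool.Agent.V11309.Uni

lemma F_eq_iff {q x : ℝ} (hq : 1 < q) : F q = x ↔ kap q = q ^ 4 * x - q ^ 3 - 1 := by
  have h0 : 0 < q := by linarith
  have hq1 : 0 < q - 1 := by linarith
  unfold F kap
  constructor
  · rintro rfl
    field_simp
    ring
  · intro h
    have e : x = ((2 - q) / (q - 1) + q ^ 3 + 1) / q ^ 4 := by
      rw [h]; field_simp; ring
    rw [e]
    field_simp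
    ring

lemma F_strictAnti {s t : ℝ} (hs : 1 < s) (hst : s < t) : F t < F s := by
  unfold F
  have hs1 : 0 < s - 1 := by linarith
  have h0 : 0 < s := by linarith
  have e1 : 1 / t < 1 / s := by gcongr
  have e2 : 1 / (t ^ 4 * (t - 1)) < 1 / (s ^ 4 * (s - 1)) := by
    gcongr
  linarith

lemma kap_lt_iff {q x : ℝ} (hq : 1 < q) : F q < x ↔ kap q < q ^ 4 * x - q ^ 3 - 1 := by
  have h0 : 0 < q := by linarith
  have h := (F_eq_iff (q := q) (x := F q) hq).mp rfl
  rw [h]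
  have h4 : 0 < q ^ 4 := by positivity
  constructor
  · intro h; nlinarith
  · intro h; by_contra hn; push Not at hn; nlinarith

lemma F_cont : ContinuousOn F (Set.Icc 1.87 1.9) := by
  unfold F
  apply ContinuousOn.add
  · apply ContinuousOn.div continuousOn_const continuousOn_id
    intro q hq; have := hq.1; norm_num at this; simp; linarith
  · apply ContinuousOn.div continuousOn_const (by fun_prop)
    intro q hq; have := hq.1; norm_num at this
    have : 0 < q := by linarith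
    have : 0 < q - 1 := by linarith
    positivity

lemma kap_cont : ContinuousOn kap (Set.Icc 1.87 1.9) := by
  unfold kap
  apply ContinuousOn.div (by fun_prop) (by fun_prop)
  intro q hq; have := hq.1; norm_num at this; linarith

lemma Ys_cont : ContinuousOn Ys (Set.Icc 1.87 1.9) := by
  unfold Ys
  apply ContinuousOn.div (by fun_prop) (by fun_prop)
  intro q hq; have := hq.1; norm_num at this
  have : 1 < q ^ 7 := one_lt_pow₀ (by linarith) (by norm_num)
  linarith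

lemma Yk_cont {y : ℝ → ℝ} (hy : ContinuousOn y (Set.Icc 1.87 1.9)) (k : ℕ) :
    ContinuousOn (fun q => Yk q (y q) k) (Set.Icc 1.87 1.9) := by
  unfold Yk
  apply ContinuousOn.add Ys_cont
  apply ContinuousOn.div (hy.sub Ys_cont) (by fun_prop)
  intro q hq; have := hq.1; norm_num at this
  have : 0 < q := by linarith
  positivity

/-- The polynomial whose root is the base. -/
def gp (q : ℝ) : ℝ := q ^ 7 - q ^ 6 - q ^ 5 - q ^ 4 - q - 1

lemma kap_sub_Ys {q : ℝ} (hq : 1 < q) : kap q - Ys q = - gp q / (q ^ 7 - 1) := by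
  have hq1 : q - 1 ≠ 0 := by linarith
  have h7 : q ^ 7 - 1 ≠ 0 := by
    have : 1 < q ^ 7 := one_lt_pow₀ hq (by norm_num)
    linarith
  unfold kap Ys gp
  field_simp
  ring

lemma gp_diff {t a : ℝ} (h1 : 1.874 ≤ t) (hta : t ≤ a) (ha : a ≤ 1.8801) :
    70 * (a - t) ≤ gp a - gp t ∧ gp a - gp t ≤ 81.6 * (a - t) := by
  norm_num at h1 ha
  have ht0 : 0 < t := by linarith
  have ha0 : 0 < a := by linarith
  have hd : 0 ≤ a - t := by linarith
  obtain ⟨l7, u7⟩ := pow_diff ht0 hta 6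
  obtain ⟨l6, u6⟩ := pow_diff ht0 hta 5
  obtain ⟨l5, u5⟩ := pow_diff ht0 hta 4
  obtain ⟨l4, u4⟩ := pow_diff ht0 hta 3
  norm_num at l7 u7 l6 u6 l5 u5 l4 u4
  have a6 : a ^ 6 ≤ (1.8801 : ℝ) ^ 6 := by gcongr; norm_num; linarith
  have a5 : a ^ 5 ≤ (1.8801 : ℝ) ^ 5 := by gcongr; norm_num; linarith
  have a4 : a ^ 4 ≤ (1.8801 : ℝ) ^ 4 := by gcongr; norm_num; linarith
  have a3 : a ^ 3 ≤ (1.8801 : ℝ) ^ 3 := by gcongr; norm_num; linarith
  have t6 : (1.874 : ℝ) ^ 6 ≤ t ^ 6 := by gcongr; norm_num; linarith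
  have t5 : (1.874 : ℝ) ^ 5 ≤ t ^ 5 := by gcongr; norm_num; linarith
  have t4 : (1.874 : ℝ) ^ 4 ≤ t ^ 4 := by gcongr; norm_num; linarith
  have t3 : (1.874 : ℝ) ^ 3 ≤ t ^ 3 := by gcongr; norm_num; linarith
  norm_num at a6 a5 a4 a3 t6 t5 t4 t3
  have e : gp a - gp t = (a ^ 7 - t ^ 7) - (a ^ 6 - t ^ 6) - (a ^ 5 - t ^ 5) - (a ^ 4 - t ^ 4)
      - (a - t) := by unfold gp; ring
  rw [e]
  have q1 := mul_le_mul_of_nonneg_right a6 hd
  have q2 := mul_le_mul_of_nonneg_right a5 hd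
  have q3 := mul_le_mul_of_nonneg_right a4 hd
  have q4 := mul_le_mul_of_nonneg_right a3 hd
  have q5 := mul_le_mul_of_nonneg_right t6 hd
  have q6 := mul_le_mul_of_nonneg_right t5 hd
  have q7 := mul_le_mul_of_nonneg_right t4 hd
  have q8 := mul_le_mul_of_nonneg_right t3 hd
  constructor
  · nlinarith
  · nlinarith

/-- Upper bound for `κ t - Y* t`. -/
lemma E_bound {t a : ℝ} (h1 : 1.874 ≤ t) (hta : t ≤ a) (ha : a ≤ 1.8801) (hga : gp a = 0) :
    0 ≤ kap t - Ys t ∧ kap t - Ys t ≤ 1.03 * (a - t) := by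
  obtain ⟨g1, g2⟩ := gp_diff h1 hta ha
  norm_num at h1 ha
  rw [kap_sub_Ys (by linarith)]
  have h7 : (1.874 : ℝ) ^ 7 ≤ t ^ 7 := by gcongr; norm_num; linarith
  norm_num at h7 g2
  have h7' : 0 < t ^ 7 - 1 := by linarith
  constructor
  · apply div_nonneg _ h7'.le
    have hd : 0 ≤ a - t := by linarith
    linarith
  · rw [div_le_iff₀ h7']
    norm_num
    have hd : 0 ≤ a - t := by linarith
    nlinarith

/-- Lower bound for `a^4 (F t - F a)`. -/
lemma D_bound {t a : ℝ} (h1 : 1.874 ≤ t) (hta : t ≤ a) (ha : a ≤ 1.8801) :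
    7 * (a - t) ≤ a ^ 4 * (F t - F a) := by
  norm_num at h1 ha
  have ht0 : 0 < t := by linarith
  have ha0 : 0 < a := by linarith
  have ht1 : 0 < t - 1 := by linarith
  have ha1 : 0 < a - 1 := by linarith
  have hd : 0 ≤ a - t := by linarith
  obtain ⟨l5, u5⟩ := pow_diff ht0 hta 4
  obtain ⟨l4, u4⟩ := pow_diff ht0 hta 3
  norm_num at l5 u5 l4 u4
  have e : a ^ 4 * (F t - F a) = a ^ 3 * (a - t) / t +
      ((a ^ 5 - t ^ 5) - (a ^ 4 - t ^ 4)) / ((a - 1) * (t ^ 4 * (t - 1))) := by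
    unfold F; field_simp; ring
  rw [e]
  have b1 : 3.5 * (a - t) ≤ a ^ 3 * (a - t) / t := by
    rw [le_div_iff₀ ht0]
    have : (1.874 : ℝ) ^ 2 ≤ a ^ 2 := by gcongr; norm_num; linarith
    norm_num at this ⊢
    have h3 : 7 / 2 * t ≤ a ^ 3 := by nlinarith
    nlinarith
  have b2 : 3.5 * (a - t) ≤
      ((a ^ 5 - t ^ 5) - (a ^ 4 - t ^ 4)) / ((a - 1) * (t ^ 4 * (t - 1))) := by
    rw [le_div_iff₀ (by positivity)]
    have t4 : (1.874 : ℝ) ^ 4 ≤ t ^ 4 := by gcongr; norm_num; linarith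
    have a3 : a ^ 3 ≤ (1.8801 : ℝ) ^ 3 := by gcongr; norm_num; linarith
    have a4 : t ^ 4 ≤ (1.8801 : ℝ) ^ 4 := by gcongr; norm_num; linarith
    norm_num at t4 a3 a4 ⊢
    have c1 : (a - 1) * (t ^ 4 * (t - 1)) ≤ 9.7 := by
      have d1 : t ^ 4 * (t - 1) ≤ (12.4947 : ℝ) * 0.8801 := by
        apply mul_le_mul _ (by norm_num; linarith) ht1.le (by norm_num)
        norm_num at a4 ⊢; linarith
      have d2 : (a - 1) * (t ^ 4 * (t - 1)) ≤ 0.8801 *
          ((12.4947 : ℝ) * 0.8801) := by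
        apply mul_le_mul (by norm_num; linarith) d1 (by positivity) (by norm_num)
      norm_num at d2 ⊢
      linarith
    have q1 := mul_le_mul_of_nonneg_right t4 hd
    have q2 := mul_le_mul_of_nonneg_right a3 hd
    have q3 := mul_le_mul_of_nonneg_right c1 hd
    norm_num at q1 q2 q3
    nlinarith
  norm_num at b1 b2
  linarith

/-- The hitting lemma. -/
lemma near_hit {y : ℝ → ℝ} {t a x : ℝ} {k : ℕ}
    (hy : ContinuousOn y (Set.Icc 1.87 1.9))
    (hyU : ∀ q ∈ Set.Icc (1.87 : ℝ) 1.9, UE q (y q) ∧ y q < q - 1)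
    (h1 : 1.874 ≤ t) (hta : t < a) (ha : a ≤ 1.8801) (hga : gp a = 0) (hF : F t = x)
    (hk1 : kap t < Yk t (y t) k) (hk2 : (y a - kap a) / a ^ (7 * k) < a ^ 4 * (x - F a)) :
    ∃ q, 1 < q ∧ q < a ∧ UE q x := by
  have h1' := h1
  have ha' := ha
  norm_num at h1' ha'
  have hsub : Set.Icc t a ⊆ Set.Icc (1.87 : ℝ) 1.9 := by
    intro q hq
    constructor
    · have := hq.1; norm_num; linarith
    · have := hq.2; norm_num; linarith
  let Φ : ℝ → ℝ := fun q => q ^ 4 * x - q ^ 3 - 1 - Yk q (y q) k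
  have hcont : ContinuousOn Φ (Set.Icc t a) := by
    apply ContinuousOn.sub (by fun_prop) ((Yk_cont hy k).mono hsub)
  have hΦt : Φ t < 0 := by
    have := (F_eq_iff (q := t) (x := x) (by linarith)).mp hF
    simp only [Φ]
    linarith
  have hYsa : Ys a = kap a := by
    have := kap_sub_Ys (q := a) (by linarith)
    rw [hga] at this
    simp at this
    linarith
  have hΦa : 0 < Φ a := by
    have h2 := (F_eq_iff (q := a) (x := F a) (by linarith)).mp rfl
    simp only [Φ, Yk, hYsa]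
    have : a ^ 4 * x - a ^ 3 - 1 = kap a + a ^ 4 * (x - F a) := by rw [h2]; ring
    linarith
  obtain ⟨q, hq, hqΦ⟩ := intermediate_value_Icc hta.le hcont ⟨hΦt.le, hΦa.le⟩
  have hqt : t < q := by
    rcases lt_or_eq_of_le hq.1 with h | h
    · exact h
    · exfalso; rw [← h] at hqΦ; linarith
  have hqa : q < a := by
    rcases lt_or_eq_of_le hq.2 with h | h
    · exact h
    · exfalso; rw [h] at hqΦ; linarith
  refine ⟨q, by linarith, hqa, ?_⟩
  have hYq : Yk q (y q) k = q ^ 4 * x - q ^ 3 - 1 := by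
    simp only [Φ] at hqΦ; linarith
  have hkap : kap q < Yk q (y q) k := by
    rw [hYq]
    apply (kap_lt_iff (by linarith)).mp
    rw [← hF]
    exact F_strictAnti (by linarith) hqt
  obtain ⟨u1, u2⟩ := hyU q (hsub hq)
  have hE := (E_bound (t := q) (a := a) (by norm_num; linarith) hqa.le ha hga).1
  have h184 : (1.84 : ℝ) ≤ q := by norm_num; linarith
  have h19 : q ≤ (1.9 : ℝ) := by norm_num; linarith
  obtain ⟨r1, r2⟩ := UE_Yk h184 h19 u1 u2 (by linarith) k hkap
  have := UE_prefix h184 h19 r1 hkap r2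
  rw [hYq] at this
  have e : (q ^ 3 + 1 + (q ^ 4 * x - q ^ 3 - 1)) / q ^ 4 = x := by
    have : q ≠ 0 := by linarith
    field_simp
    ring
  rwa [e] at this

end Pool.Agent.V11309.Uni
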