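import Mathlib
import Pool.Agent.V11309.Uni.Near2

/-! Coverage near the point `F a`: selection of the right sequence. -/

namespace Pool.Agent.V11309.Uni

lemma v10_cont : ContinuousOn v10 (Set.Icc 1.87 1.9) := by
  unfold v10
  apply ContinuousOn.div continuousOn_id (by fun_prop)
  intro q hq; have := hq.1; norm_num at this; nlinarith

lemma v0011_cont : ContinuousOn v0011 (Set.Icc 1.87 1.9) := by
  unfold v0011
  apply ContinuousOn.div (by fun_prop) (by fun_prop)
  intro q hq; have := hq.1; norm_num at this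
  have : 1 < q ^ 4 := one_lt_pow₀ (by linarith) (by norm_num)
  linarith

lemma v001_cont : ContinuousOn v001 (Set.Icc 1.87 1.9) := by
  unfold v001
  apply ContinuousOn.div (by fun_prop) (by fun_prop)
  intro q hq; have := hq.1; norm_num at this
  have : 1 < q ^ 3 := one_lt_pow₀ (by linarith) (by norm_num)
  linarith

lemma v10_good : ∀ q ∈ Set.Icc (1.87 : ℝ) 1.9, UE q (v10 q) ∧ v10 q < q - 1 := by
  intro q hq
  have a1 := hq.1; have a2 := hq.2
  norm_num at a1 a2
  refine ⟨UE_v10 (by linarith) (by linarith) (by nlinarith), ?_⟩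
  unfold v10
  rw [div_lt_iff₀ (by nlinarith)]
  nlinarith [mul_nonneg (sub_nonneg.mpr a1) (sub_nonneg.mpr a1)]

lemma v0011_good : ∀ q ∈ Set.Icc (1.87 : ℝ) 1.9, UE q (v0011 q) ∧ v0011 q < q - 1 := by
  intro q hq
  have a1 := hq.1; have a2 := hq.2
  norm_num at a1 a2
  have h3 : 0 < q ^ 3 - 2 * q ^ 2 + q - 1 := by
    nlinarith [mul_nonneg (sub_nonneg.mpr a1) (sub_nonneg.mpr a1),
      mul_nonneg (mul_nonneg (sub_nonneg.mpr a1) (sub_nonneg.mpr a1)) (sub_nonneg.mpr a1)]
  refine ⟨UE_v0011 (by linarith) (by linarith) h3, ?_⟩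
  unfold v0011
  have h4 : (1.87 : ℝ) ^ 4 ≤ q ^ 4 := pow_le_pow_left₀ (by norm_num) hq.1 4
  norm_num at h4
  rw [div_lt_iff₀ (by linarith)]
  nlinarith

lemma v001_good : ∀ q ∈ Set.Icc (1.87 : ℝ) 1.9, UE q (v001 q) ∧ v001 q < q - 1 := by
  intro q hq
  have a1 := hq.1; have a2 := hq.2
  norm_num at a1 a2
  have h3 : 0 < q ^ 3 - q ^ 2 - q - 1 := by
    nlinarith [mul_nonneg (sub_nonneg.mpr a1) (sub_nonneg.mpr a1),
      mul_nonneg (mul_nonneg (sub_nonneg.mpr a1) (sub_nonneg.mpr a1)) (sub_nonneg.mpr a1)]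
  refine ⟨UE_v001 (by linarith) (by linarith) h3, ?_⟩
  unfold v001
  have h4 : (1.87 : ℝ) ^ 3 ≤ q ^ 3 := pow_le_pow_left₀ (by norm_num) hq.1 3
  norm_num at h4
  rw [div_lt_iff₀ (by linarith)]
  nlinarith

lemma kap_le {t : ℝ} (h1 : 1.874 ≤ t) : kap t ≤ 0.1442 := by
  norm_num at h1
  unfold kap
  rw [div_le_iff₀ (by linarith)]
  norm_num
  linarith

lemma kap_ge {t : ℝ} (h0 : 1 < t) (h1 : t ≤ 1.8801) : 0.1362 ≤ kap t := by
  norm_num at h1
  unfold kap
  rw [le_div_iff₀ (by linarith)]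
  norm_num
  linarith

lemma v10_ge {t : ℝ} (h0 : 1.874 ≤ t) (h1 : t ≤ 1.8801) : 0.7415 ≤ v10 t := by
  norm_num at h0 h1
  unfold v10
  rw [le_div_iff₀ (by nlinarith)]
  norm_num
  nlinarith

lemma v10_le {t : ℝ} (h0 : 1.88 ≤ t) : v10 t ≤ 0.7418 := by
  norm_num at h0
  unfold v10
  rw [div_le_iff₀ (by nlinarith)]
  norm_num
  nlinarith

lemma v0011_ge {t : ℝ} (h0 : 1.874 ≤ t) (h1 : t ≤ 1.8801) : 0.2505 ≤ v0011 t := by
  have h0' := h0
  have h1' := h1
  norm_num at h0' h1'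
  unfold v0011
  have h4 : (1.874 : ℝ) ^ 4 ≤ t ^ 4 := pow_le_pow_left₀ (by norm_num) h0 4
  have h5 : t ^ 4 ≤ (1.8801 : ℝ) ^ 4 := pow_le_pow_left₀ (by linarith) h1 4
  norm_num at h4 h5
  rw [le_div_iff₀ (by linarith)]
  norm_num
  -- need 0.2505 (t^4 - 1) ≤ t + 1
  have key : t ^ 4 ≤ (1.8801 : ℝ) ^ 4 - 4 * 1.874 ^ 3 * (1.8801 - t) := by
    have := (pow_diff (t := t) (a := 1.8801) (by linarith) h1 3).1
    norm_num at this
    have h3 : (1.874 : ℝ) ^ 3 ≤ t ^ 3 := pow_le_pow_left₀ (by norm_num) h0 3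
    norm_num at h3 ⊢
    nlinarith
  norm_num at key
  linarith

lemma v0011_le {t : ℝ} (h0 : 1.88 ≤ t) (h1 : t ≤ 1.8801) : v0011 t ≤ 0.2507 := by
  have h0' := h0
  have h1' := h1
  norm_num at h0' h1'
  unfold v0011
  have h4 : (1.88 : ℝ) ^ 4 ≤ t ^ 4 := pow_le_pow_left₀ (by norm_num) h0 4
  norm_num at h4
  rw [div_le_iff₀ (by linarith)]
  norm_num
  linarith

lemma v001_ge {t : ℝ} (h0 : 1.874 ≤ t) (h1 : t ≤ 1.8801) : 0.1771 ≤ v001 t := by
  have h0' := h0
  have h1' := h1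
  norm_num at h0' h1'
  unfold v001
  have h4 : (1.874 : ℝ) ^ 3 ≤ t ^ 3 := pow_le_pow_left₀ (by norm_num) h0 3
  have h5 : t ^ 3 ≤ (1.8801 : ℝ) ^ 3 := pow_le_pow_left₀ (by linarith) h1 3
  norm_num at h4 h5
  rw [le_div_iff₀ (by linarith)]
  norm_num
  linarith

lemma v001_le {t : ℝ} (h0 : 1.88 ≤ t) : v001 t ≤ 0.1772 := by
  unfold v001
  have h4 : (1.88 : ℝ) ^ 3 ≤ t ^ 3 := pow_le_pow_left₀ (by norm_num) h0 3
  norm_num at h4
  rw [div_le_iff₀ (by linarith)]
  norm_num
  linarith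

lemma sel {y t a b c D : ℝ} {k : ℕ} (h1 : 1.874 ≤ t) (hta : t < a) (ha : a ≤ 1.8801)
    (hga : gp a = 0) (hb : b ≤ y - kap t) (hb0 : 0 < b) (hc0 : 0 < c)
    (hD : 7 * (a - t) ≤ D) (hDc : D ≤ c / a ^ (7 * k)) (hbc : 1.03 * c < 7 * b) :
    kap t < Yk t y k := by
  have h1' := h1
  norm_num at h1'
  have ht0 : 0 < t := by linarith
  have ha0 : 0 < a := by linarith
  obtain ⟨e0, e1⟩ := E_bound h1 hta.le ha hga
  have hu : 0 < a - t := by linarith
  have hpa : 0 < a ^ (7 * k) := by positivity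
  have hpt : 0 < t ^ (7 * k) := by positivity
  have hle : t ^ (7 * k) ≤ a ^ (7 * k) := pow_le_pow_left₀ ht0.le hta.le _
  have s1 : b / a ^ (7 * k) ≤ (y - Ys t) / t ^ (7 * k) := by
    have : b ≤ y - Ys t := by linarith
    have h00 : 0 ≤ y - Ys t := by linarith
    gcongr
  have s2 : 7 * (a - t) * a ^ (7 * k) ≤ c := by
    rw [le_div_iff₀ hpa] at hDc
    nlinarith
  have s3 : 1.03 * (a - t) < b / a ^ (7 * k) := by
    rw [lt_div_iff₀ hpa]
    norm_num at hbc ⊢
    nlinarith [mul_pos hu hpa]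
  unfold Yk
  linarith

lemma near_cover {a x : ℝ} (ha1 : 1.88 ≤ a) (ha2 : a ≤ 1.8801) (hga : gp a = 0)
    (hx1 : F a < x) (hx2 : x ≤ 0.6262) : ∃ q, 1 < q ∧ q < a ∧ UE q x := by
  have ha1' := ha1
  have ha2' := ha2
  norm_num at ha1' ha2'
  have ha0 : 0 < a := by linarith
  have hsub : Set.Icc 1.874 a ⊆ Set.Icc (1.87 : ℝ) 1.9 := by
    intro q hq
    have b1 := hq.1; have b2 := hq.2
    norm_num at b1 b2 ⊢
    constructor <;> linarith
  have hF1 : x ≤ F 1.874 := by
    unfold F; norm_num at hx2 ⊢; linarith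
  obtain ⟨t, ht, hFt⟩ := intermediate_value_Icc' (by norm_num; linarith) (F_cont.mono hsub)
    ⟨hx1.le, hF1⟩
  have hta : t < a := by
    rcases lt_or_eq_of_le ht.2 with h | h
    · exact h
    · exfalso; rw [h] at hFt; linarith
  have ht1 := ht.1
  have ht1' := ht.1
  norm_num at ht1'
  have ht0 : 0 < t := by linarith
  have ht2 : t ≤ 1.8801 := by linarith
  have hD := D_bound ht1 hta.le ha2
  rw [hFt] at hD
  set D := a ^ 4 * (x - F a) with hDdef
  have hu : 0 < a - t := by linarith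
  have hDpos : 0 < D := by linarith
  have ka := kap_ge (t := a) (by linarith) ha2
  have kt := kap_le ht1
  have hc1 : v10 a - kap a ≤ 0.6056 := by
    have := v10_le ha1; norm_num at this ka ⊢; linarith
  have hc2 : v0011 a - kap a ≤ 0.1145 := by
    have := v0011_le ha1 ha2; norm_num at this ka ⊢; linarith
  have hc3 : v001 a - kap a ≤ 0.0410 := by
    have := v001_le ha1; norm_num at this ka ⊢; linarith
  have hb1 : 0.597 ≤ v10 t - kap t := by
    have := v10_ge ht1 ht2; norm_num at this kt ⊢; linarith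
  have hb2 : 0.106 ≤ v0011 t - kap t := by
    have := v0011_ge ht1 ht2; norm_num at this kt ⊢; linarith
  have hb3 : 0.0329 ≤ v001 t - kap t := by
    have := v001_ge ht1 ht2; norm_num at this kt ⊢; linarith
  have ha7 : a ^ 7 ≤ 83.04 := by
    have : a ^ 7 ≤ (1.8801 : ℝ) ^ 7 := pow_le_pow_left₀ ha0.le ha2 7
    norm_num at this ⊢; linarith
  by_cases h0 : (v10 a - kap a) / a ^ (7 * 1) < D
  · refine near_hit v10_cont v10_good ht1 hta ha2 hga hFt (k := 1) ?_ h0
    obtain ⟨e0, e1⟩ := E_bound ht1 hta.le ha2 hga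
    have s1 : 0.597 / 83.04 ≤ (v10 t - Ys t) / t ^ (7 * 1) := by
      have h7 : t ^ (7 * 1) ≤ 83.04 := by
        have : t ^ 7 ≤ a ^ 7 := pow_le_pow_left₀ ht0.le hta.le 7
        norm_num at this ha7 ⊢; linarith
      have hp : 0 < t ^ (7 * 1) := by positivity
      have : 0.597 ≤ v10 t - Ys t := by norm_num at hb1 ⊢; linarith
      gcongr
    unfold Yk
    norm_num at s1 e1 ⊢
    linarith
  · push Not at h0
    have hpos1 : 0 < v10 a - kap a := by
      by_contra h
      push Not at h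
      have : (v10 a - kap a) / a ^ (7 * 1) ≤ 0 :=
        div_nonpos_of_nonpos_of_nonneg h (by positivity)
      linarith
    have hex : ∃ n : ℕ, (v10 a - kap a) / a ^ (7 * n) < D := by
      obtain ⟨n, hn⟩ := exists_pow_lt_of_lt_one (x := D / (v10 a - kap a)) (by positivity)
        (y := 1 / a ^ 7) (by
          rw [div_lt_one (by positivity)]
          exact one_lt_pow₀ (by linarith) (by norm_num))
      refine ⟨n, ?_⟩
      rw [lt_div_iff₀ hpos1, one_div_pow, ← pow_mul] at hn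
      rw [div_eq_mul_one_div]
      linarith
    classical
    set n0 := Nat.find hex with hn0
    have hs : (v10 a - kap a) / a ^ (7 * n0) < D := Nat.find_spec hex
    have hn1 : n0 ≠ 0 := by
      intro h
      rw [h] at hs
      simp only [mul_zero, pow_zero, div_one] at hs
      have : (v10 a - kap a) / a ^ (7 * 1) ≤ v10 a - kap a := by
        apply div_le_self hpos1.le
        exact one_le_pow₀ (by linarith)
      linarith
    obtain ⟨k, hk⟩ := Nat.exists_eq_succ_of_ne_zero hn1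
    have hmin : ¬ ((v10 a - kap a) / a ^ (7 * k) < D) :=
      Nat.find_min hex (by rw [← hn0, hk]; exact Nat.lt_succ_self k)
    push Not at hmin
    rw [hk, Nat.succ_eq_add_one] at hs
    have hpk : 0 < a ^ (7 * k) := by positivity
    by_cases h2 : (v0011 a - kap a) / a ^ (7 * k) < D
    · refine near_hit v0011_cont v0011_good ht1 hta ha2 hga hFt (k := k) ?_ h2
      refine sel (b := 0.106) (c := 0.6056) (D := D) ht1 hta ha2 hga hb2 (by norm_num)
        (by norm_num) hD ?_ (by norm_num)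
      calc D ≤ (v10 a - kap a) / a ^ (7 * k) := hmin
        _ ≤ _ := by gcongr
    · push Not at h2
      by_cases h3 : (v001 a - kap a) / a ^ (7 * k) < D
      · refine near_hit v001_cont v001_good ht1 hta ha2 hga hFt (k := k) ?_ h3
        refine sel (b := 0.0329) (c := 0.1145) (D := D) ht1 hta ha2 hga hb3 (by norm_num)
          (by norm_num) hD ?_ (by norm_num)
        calc D ≤ (v0011 a - kap a) / a ^ (7 * k) := h2
          _ ≤ _ := by gcongr
      · push Not at h3
        refine near_hit v10_cont v10_good ht1 hta ha2 hga hFt (k := k + 1) ?_ hs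
        refine sel (b := 0.597) (c := 3.405) (D := D) ht1 hta ha2 hga hb1 (by norm_num)
          (by norm_num) hD ?_ (by norm_num)
        calc D ≤ (v001 a - kap a) / a ^ (7 * k) := h3
          _ ≤ 0.0410 / a ^ (7 * k) := by gcongr
          _ ≤ 3.405 / a ^ (7 * (k + 1)) := by
            rw [div_le_div_iff₀ (by positivity) (by positivity),
              show 7 * (k + 1) = 7 * k + 7 by ring, pow_add]
            have := mul_le_mul_of_nonneg_left ha7 hpk.le
            norm_num at this ⊢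
            linarith

end Pool.Agent.V11309.Uni
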