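import Mathlib
import Pool.Agent.V11309.Uni.Near3

/-! The base `a` is a limit of univoque bases. -/

namespace Pool.Agent.V11309.Uni

lemma digit_reflect (b : Fin 2) : (((1 - b : Fin 2) : ℕ) : ℝ) = 1 - ((b : ℕ) : ℝ) := by
  fin_cases b <;> simp

lemma isExp_reflect {q y : ℝ} (hq : 1 < q) {d : ℕ → Fin 2} (h : IsExp q y d) :
    IsExp q (1 / (q - 1) - y) (fun n => 1 - d n) := by
  unfold IsExp at *
  have := (hasSum_geom hq).sub h
  refine this.congr_fun ?_ |> fun h => h
  intro i
  rw [digit_reflect]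
  ring

lemma UE_reflect {q y : ℝ} (hq : 1 < q) (h : UE q y) : UE q (1 / (q - 1) - y) := by
  obtain ⟨d, hd, hu⟩ := h
  refine ⟨fun n => 1 - d n, isExp_reflect hq hd, ?_⟩
  intro e he
  have h1 := isExp_reflect hq he
  rw [show 1 / (q - 1) - (1 / (q - 1) - y) = y by ring] at h1
  have h2 := hu _ h1
  funext n
  have h3 : 1 - e n = d n := congrFun h2 n
  rw [← h3]; simp

lemma UE_one_of_root {r : ℝ} (h1 : 1.874 ≤ r) {a : ℝ} (hra : r < a) (ha : a ≤ 1.8801)
    (hga : gp a = 0) {k : ℕ} (hk : Yk r (v10 r) (k + 1) = kap r) : UE r 1 := by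
  have h1' := h1
  have ha' := ha
  norm_num at h1' ha'
  have hr : 1 < r := by linarith
  have hr0 : 0 < r := by linarith
  have hE := (E_bound (t := r) (a := a) h1 hra.le ha hga).1
  obtain ⟨hU, hlt⟩ := v10_good r ⟨by norm_num; linarith, by norm_num; linarith⟩
  have hpos : 0 < v10 r - Ys r := by
    have a1 := v10_ge h1 (by linarith)
    have a2 := kap_le h1
    norm_num at a1 a2
    linarith
  have hmono : Yk r (v10 r) (k + 1) < Yk r (v10 r) k := by
    unfold Yk
    have : (v10 r - Ys r) / r ^ (7 * (k + 1)) < (v10 r - Ys r) / r ^ (7 * k) := by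
      apply div_lt_div_of_pos_left hpos (by positivity)
      exact pow_lt_pow_right₀ hr (by omega)
    linarith
  have hkk : kap r < Yk r (v10 r) k := by linarith
  obtain ⟨u1, u2⟩ := UE_Yk (q := r) (by norm_num; linarith) (by norm_num; linarith) hU hlt
    (by linarith) k hkk
  have := UE_block (q := r) (by norm_num; linarith) (by norm_num; linarith) u1 hkk u2
  rw [← Yk_succ hr, hk] at this
  have h2 := UE_reflect hr this
  have e : 1 / (r - 1) - kap r = 1 := by
    unfold kap
    have : r - 1 ≠ 0 := by linarith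
    field_simp
    ring
  rwa [e] at h2

lemma exists_univoque_near {a t : ℝ} (ha1 : 1.88 ≤ a) (ha2 : a ≤ 1.8801) (hga : gp a = 0)
    (ht1 : 1.874 ≤ t) (hta : t < a) : ∃ r, t < r ∧ r < a ∧ UE r 1 := by
  have ha1' := ha1
  have ha2' := ha2
  have ht1' := ht1
  norm_num at ha1' ha2' ht1'
  have ht0 : 0 < t := by linarith
  have ha0 : 0 < a := by linarith
  have hsub : Set.Icc t a ⊆ Set.Icc (1.87 : ℝ) 1.9 := by
    intro q hq
    have b1 := hq.1; have b2 := hq.2
    norm_num
    constructor <;> linarith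
  -- κ t - Ys t > 0
  have hE : 0 < kap t - Ys t := by
    rw [kap_sub_Ys (by linarith)]
    obtain ⟨g1, _⟩ := gp_diff ht1 hta.le ha2
    have h7 : 1 < t ^ 7 := one_lt_pow₀ (by linarith) (by norm_num)
    apply div_pos
    · linarith
    · linarith
  have hYsa : Ys a = kap a := by
    have := kap_sub_Ys (q := a) (by linarith)
    rw [hga] at this
    simp at this
    linarith
  have hpos : 0 < v10 t - Ys t := by
    have a1 := v10_ge ht1 (by linarith)
    have a2 := kap_le ht1
    norm_num at a1 a2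
    linarith
  have hposa : 0 < v10 a - Ys a := by
    have a1 := v10_ge (t := a) (by norm_num; linarith) ha2
    have a2 := kap_le (t := a) (by norm_num; linarith)
    norm_num at a1 a2
    linarith
  obtain ⟨n, hn⟩ := exists_pow_lt_of_lt_one (x := (kap t - Ys t) / (v10 t - Ys t))
    (by positivity) (y := 1 / t ^ 7) (by
      rw [div_lt_one (by positivity)]
      exact one_lt_pow₀ (by linarith) (by norm_num))
  have hlt : Yk t (v10 t) (n + 1) < kap t := by
    rw [lt_div_iff₀ hpos, one_div_pow, ← pow_mul] at hn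
    unfold Yk
    have h1 : (v10 t - Ys t) / t ^ (7 * (n + 1)) ≤ (v10 t - Ys t) / t ^ (7 * n) := by
      gcongr
      · linarith
      · omega
    have h2 : (v10 t - Ys t) / t ^ (7 * n) = 1 / t ^ (7 * n) * (v10 t - Ys t) := by ring
    linarith
  have hgt : kap a < Yk a (v10 a) (n + 1) := by
    unfold Yk
    have : 0 < (v10 a - Ys a) / a ^ (7 * (n + 1)) := by positivity
    linarith
  have hcont : ContinuousOn (fun q => Yk q (v10 q) (n + 1) - kap q) (Set.Icc t a) :=
    ((Yk_cont v10_cont (n + 1)).mono hsub).sub (kap_cont.mono hsub)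
  obtain ⟨r, hr, hr0⟩ := intermediate_value_Icc hta.le hcont
    (show (0 : ℝ) ∈ Set.Icc _ _ from ⟨by linarith, by linarith⟩)
  simp only at hr0
  have hrt : t < r := by
    rcases lt_or_eq_of_le hr.1 with h | h
    · exact h
    · exfalso; rw [← h] at hr0; linarith
  have hra : r < a := by
    rcases lt_or_eq_of_le hr.2 with h | h
    · exact h
    · exfalso; rw [h] at hr0; linarith
  exact ⟨r, hrt, hra, UE_one_of_root (by norm_num; linarith) hra ha2 hga (k := n)
    (by linarith)⟩

/-- The base `a`. -/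
lemma exists_base : ∃ a : ℝ, 1.88 < a ∧ a < 1.8801 ∧ gp a = 0 := by
  have hcont : ContinuousOn gp (Set.Icc 1.88 1.8801) := by
    unfold gp; fun_prop
  have h1 : gp 1.88 < 0 := by unfold gp; norm_num
  have h2 : 0 < gp 1.8801 := by unfold gp; norm_num
  obtain ⟨a, ha, ha0⟩ := intermediate_value_Icc (by norm_num) hcont
    (show (0 : ℝ) ∈ Set.Icc _ _ from ⟨h1.le, h2.le⟩)
  refine ⟨a, ?_, ?_, ha0⟩
  · rcases lt_or_eq_of_le ha.1 with h | h
    · exact h
    · exfalso; rw [← h] at ha0; linarith
  · rcases lt_or_eq_of_le ha.2 with h | h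
    · exact h
    · exfalso; rw [h] at ha0; linarith

end Pool.Agent.V11309.Uni
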