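import Mathlib
import Pool.Agent.V11309.Uni.Closure

/-! The level set of the base `a`. -/

namespace Pool.Agent.V11309.Uni

/-- The univoque bases of `x`. -/
def Ux (x : ℝ) : Set ℝ := {q | 1 < q ∧ q ≤ 2 ∧ UE q x}

lemma Ux_bdd (x : ℝ) : BddBelow (Ux x) := ⟨1, fun _ hq => hq.1.le⟩

lemma sInf_lt_of_mem {x q a : ℝ} (h1 : 1 < q) (h2 : q < a) (ha : a ≤ 2) (hU : UE q x) :
    sInf (Ux x) < a := lt_of_le_of_lt (csInf_le (Ux_bdd x) ⟨h1, by linarith, hU⟩) h2

lemma UE_two_irrational {x : ℝ} (h0 : 0 < x) (h1 : x < 1) (hx : Irrational x) : UE 2 x := by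
  refine UE_of_invariant (by norm_num) le_rfl {y | 0 ≤ y ∧ y ≤ 1 ∧ Irrational y} ?_ ?_ x
    ⟨h0.le, h1.le, hx⟩
  · rintro y ⟨a1, a2, _⟩
    norm_num
    exact ⟨a1, a2⟩
  · rintro y ⟨a1, a2, a3⟩
    have hi : Irrational (2 * y) := by
      have := a3.natCast_mul (show (2 : ℕ) ≠ 0 by norm_num)
      simpa using this
    have hi' : Irrational (2 * y - 1) := by
      have := hi.sub_natCast 1
      simpa using this
    rcases lt_trichotomy (2 * y) 1 with h | h | h
    · left
      exact ⟨⟨by linarith, h.le, hi⟩, h⟩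
    · exfalso
      apply hi
      exact ⟨1, by rw [h]; simp⟩
    · right
      refine ⟨⟨by linarith, by linarith, hi'⟩, ?_⟩
      norm_num
      linarith

lemma F_bounds {a : ℝ} (ha1 : 1.88 < a) (ha2 : a < 1.8801) : F a < 0.63 := by
  have h := F_strictAnti (s := 1.88) (t := a) (by norm_num) ha1
  have : F 1.88 < 0.63 := by unfold F; norm_num
  linarith

/-- For `1/G ≤ x < F a` all univoque bases of `x` are above some `a' > a`. -/
lemma bases_above {a G x : ℝ} (hG : G ^ 2 = G + 1) (hG0 : 0 < G) (ha1 : 1.88 < a)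
    (ha2 : a < 1.8801) (hx0 : 1 / G ≤ x) (hx : x < F a) :
    ∃ a', a < a' ∧ ∀ q ∈ Ux x, a' ≤ q := by
  have hb := F_bounds ha1 ha2
  have ha1' := ha1
  have ha2' := ha2
  norm_num at ha1' ha2' hb
  obtain ⟨g1, g2⟩ := G_bounds hG hG0
  norm_num at g1 g2
  have hF19 : F 1.9 ≤ x := by
    refine le_trans ?_ hx0
    have : (0.618 : ℝ) ≤ 1 / G := by
      rw [le_div_iff₀ hG0]; norm_num; linarith
    refine le_trans ?_ this
    unfold F; norm_num
  have hsub : Set.Icc a 1.9 ⊆ Set.Icc (1.87 : ℝ) 1.9 := by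
    intro q hq
    have b1 := hq.1
    exact ⟨by norm_num; linarith, hq.2⟩
  obtain ⟨a', ha', hFa'⟩ := intermediate_value_Icc' (by norm_num; linarith)
    (F_cont.mono hsub) ⟨hF19, hx.le⟩
  have haa' : a < a' := by
    rcases lt_or_eq_of_le ha'.1 with h | h
    · exact h
    · exfalso; rw [← h] at hFa'; linarith
  refine ⟨a', haa', ?_⟩
  rintro q ⟨q1, q2, q3⟩
  by_contra hlt
  push Not at hlt
  have hxF : x ≤ F q := by
    rw [← hFa']
    exact (F_strictAnti q1 hlt).le
  exact (two_of_le_F hG hG0 q1 q2 hx0 (by linarith) hxF).not_UE q3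

lemma level_subset {a : ℝ} (ha1 : 1.88 < a) (ha2 : a < 1.8801) (hga : gp a = 0) {x : ℝ}
    (hx : 0 < x) (hq : sInf (Ux x) = a) : x = F a := by
  have ha1' := ha1
  have ha2' := ha2
  norm_num at ha1' ha2'
  have hG : Real.goldenRatio ^ 2 = Real.goldenRatio + 1 := Real.goldenRatio_sq
  have hG0 : 0 < Real.goldenRatio := Real.goldenRatio_pos
  by_contra hne
  rcases lt_or_ge x (1 / Real.goldenRatio) with h | h
  · obtain ⟨q, h1, h2, h3⟩ := cover_small hG hG0 hx h
    have := sInf_lt_of_mem h1 (lt_of_le_of_lt h2 ha1) (by linarith) h3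
    linarith
  rcases lt_trichotomy x (F a) with h' | h' | h'
  · obtain ⟨a', haa', hall⟩ := bases_above hG hG0 ha1 ha2 h h'
    rcases Set.eq_empty_or_nonempty (Ux x) with he | he
    · rw [he, Real.sInf_empty] at hq
      linarith
    · have := le_csInf he hall
      linarith
  · exact hne h'
  · rcases le_or_gt 0.6262 x with h2 | h2
    · obtain ⟨q, q1, q2, q3⟩ := cover_big h2
      have := sInf_lt_of_mem q1 (lt_of_le_of_lt q2 ha1) (by linarith) q3
      linarith
    · obtain ⟨q, q1, q2, q3⟩ := near_cover ha1.le ha2.le hga h' h2.le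
      have := sInf_lt_of_mem q1 q2 (by linarith) q3
      linarith

lemma exists_larger {a : ℝ} (ha1 : 1.88 < a) (ha2 : a < 1.8801) :
    ∃ x : ℝ, 0 < x ∧ a < sInf (Ux x) := by
  have ha1' := ha1
  have ha2' := ha2
  norm_num at ha1' ha2'
  have hG : Real.goldenRatio ^ 2 = Real.goldenRatio + 1 := Real.goldenRatio_sq
  have hG0 : 0 < Real.goldenRatio := Real.goldenRatio_pos
  obtain ⟨g1, g2⟩ := G_bounds hG hG0
  norm_num at g1 g2
  refine ⟨1 / Real.goldenRatio, by positivity, ?_⟩
  have hlt : 1 / Real.goldenRatio < F a := by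
    have h1 := F_strictAnti (s := a) (t := 1.8801) (by linarith) ha2
    have h2 : (0.62 : ℝ) < F 1.8801 := by unfold F; norm_num
    have h3 : 1 / Real.goldenRatio < 0.62 := by
      rw [div_lt_iff₀ hG0]; norm_num; linarith
    linarith
  obtain ⟨a', haa', hall⟩ := bases_above hG hG0 ha1 ha2 le_rfl hlt
  have hne : (Ux (1 / Real.goldenRatio)).Nonempty := by
    refine ⟨2, by norm_num, le_rfl, ?_⟩
    apply UE_two_irrational (by positivity)
    · rw [div_lt_one hG0]; linarith
    · rw [one_div]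
      exact irrational_inv_iff.mpr Real.goldenRatio_irrational
  have := le_csInf hne hall
  linarith

lemma mem_closure_base {a : ℝ} (ha1 : 1.88 < a) (ha2 : a < 1.8801) (hga : gp a = 0) :
    a ∈ closure (Ux 1) := by
  rw [Metric.mem_closure_iff]
  intro ε hε
  have ha1' := ha1
  have ha2' := ha2
  norm_num at ha1' ha2'
  obtain ⟨r, r1, r2, r3⟩ := exists_univoque_near (a := a) (t := max 1.874 (a - ε)) ha1.le ha2.le
    hga (le_max_left _ _) (by
      apply max_lt
      · norm_num; linarith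
      · linarith)
  have hr1 : (1.874 : ℝ) < r := lt_of_le_of_lt (le_max_left _ _) r1
  have hr2 : a - ε < r := lt_of_le_of_lt (le_max_right _ _) r1
  norm_num at hr1
  refine ⟨r, ⟨by linarith, by linarith, r3⟩, ?_⟩
  rw [Real.dist_eq, abs_of_pos (by linarith)]
  linarith

end Pool.Agent.V11309.Uni
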