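import Mathlib
import Pool.Agent.V11309.Uni.Near

/-! Digit sequences, their values and the strict univoque condition. -/

namespace Pool.Agent.V11309.Uni

/-- Value of a digit sequence in base `q`. -/
noncomputable def V (q : ℝ) (d : ℕ → Fin 2) : ℝ := ∑' i, (((d i : Fin 2) : ℕ) : ℝ) / q ^ (i + 1)

/-- Shift of a sequence. -/
def sh (n : ℕ) (d : ℕ → Fin 2) : ℕ → Fin 2 := fun i => d (n + i)

/-- Complement of a sequence. -/
def cmp (d : ℕ → Fin 2) : ℕ → Fin 2 := fun i => 1 - d i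

@[simp] lemma sh_apply (n : ℕ) (d : ℕ → Fin 2) (i : ℕ) : sh n d i = d (n + i) := rfl

@[simp] lemma cmp_apply (d : ℕ → Fin 2) (i : ℕ) : cmp d i = 1 - d i := rfl

lemma sh_zero (d : ℕ → Fin 2) : sh 0 d = d := by funext i; simp

lemma sh_sh (m n : ℕ) (d : ℕ → Fin 2) : sh m (sh n d) = sh (n + m) d := by
  funext i; simp [add_assoc]

lemma sh_cmp (n : ℕ) (d : ℕ → Fin 2) : sh n (cmp d) = cmp (sh n d) := rfl

lemma fin2_cases (b : Fin 2) : b = 0 ∨ b = 1 := by
  rcases b with ⟨v, hv⟩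
  interval_cases v
  · left; rfl
  · right; rfl

lemma isExp_V {q : ℝ} (hq : 1 < q) (d : ℕ → Fin 2) : IsExp q (V q d) d := by
  have h0 : 0 < q := by linarith
  have : Summable (fun i : ℕ => (((d i : Fin 2) : ℕ) : ℝ) / q ^ (i + 1)) := by
    refine Summable.of_nonneg_of_le (fun i => by positivity) (fun i => ?_) (hasSum_geom hq).summable
    have := digit_le_one (d i)
    have h0 : 0 < q ^ (i + 1) := by positivity
    gcongr
  exact this.hasSum

lemma V_of_isExp {q x : ℝ} {d : ℕ → Fin 2} (h : IsExp q x d) : V q d = x := h.tsum_eq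

lemma V_nonneg {q : ℝ} (hq : 1 < q) (d : ℕ → Fin 2) : 0 ≤ V q d :=
  isExp_nonneg (by linarith) (isExp_V hq d)

lemma V_le {q : ℝ} (hq : 1 < q) (d : ℕ → Fin 2) : V q d ≤ 1 / (q - 1) :=
  isExp_le hq (isExp_V hq d)

lemma V_tail {q : ℝ} (hq : 1 < q) (d : ℕ → Fin 2) :
    V q (sh 1 d) = q * V q d - ((d 0 : Fin 2) : ℕ) := by
  have h := isExp_tail (by linarith) (isExp_V hq d)
  have e : (fun n => d (n + 1)) = sh 1 d := by funext n; simp [add_comm]
  rw [e] at h
  exact V_of_isExp h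

lemma V_step {q : ℝ} (hq : 1 < q) (d : ℕ → Fin 2) :
    V q d = (((d 0 : Fin 2) : ℕ) + V q (sh 1 d)) / q := by
  rw [V_tail hq]
  have : q ≠ 0 := by linarith
  field_simp
  ring

lemma V_cmp {q : ℝ} (hq : 1 < q) (d : ℕ → Fin 2) : V q (cmp d) = 1 / (q - 1) - V q d := by
  apply V_of_isExp
  have := (hasSum_geom hq).sub (isExp_V hq d)
  unfold IsExp
  refine this.congr_fun ?_ |> fun h => h
  intro i
  have : (((cmp d i : Fin 2) : ℕ) : ℝ) = 1 - ((d i : ℕ) : ℝ) := by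
    rcases fin2_cases (d i) with h | h <;> simp [h]
  rw [this]
  ring

lemma kap_eq {q : ℝ} (hq : 1 < q) : kap q = 1 / (q - 1) - 1 := by
  have : q - 1 ≠ 0 := by linarith
  unfold kap
  field_simp
  ring

/-- Partial sums. -/
noncomputable def PS (q : ℝ) (d : ℕ → Fin 2) (n : ℕ) : ℝ :=
  ∑ i ∈ Finset.range n, (((d i : Fin 2) : ℕ) : ℝ) / q ^ (i + 1)

lemma PS_succ (q : ℝ) (d : ℕ → Fin 2) (n : ℕ) :
    PS q d (n + 1) = PS q d n + (((d n : Fin 2) : ℕ) : ℝ) / q ^ (n + 1) := by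
  unfold PS; rw [Finset.sum_range_succ]

lemma V_split {q : ℝ} (hq : 1 < q) (d : ℕ → Fin 2) (n : ℕ) :
    V q d = PS q d n + V q (sh n d) / q ^ n := by
  have h0 : q ≠ 0 := by linarith
  induction n with
  | zero => simp [PS, sh_zero]
  | succ n ih =>
    rw [PS_succ, ih, V_step hq (sh n d), sh_sh, pow_succ]
    simp only [sh_apply, add_zero]
    field_simp
    ring

lemma PS_congr {q : ℝ} {d e : ℕ → Fin 2} {n : ℕ} (h : ∀ i < n, d i = e i) :
    PS q d n = PS q e n := by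
  unfold PS
  apply Finset.sum_congr rfl
  intro i hi
  rw [h i (Finset.mem_range.mp hi)]

lemma V_agree {q : ℝ} (hq : 1 < q) {d e : ℕ → Fin 2} {n : ℕ} (h : ∀ i < n, d i = e i) :
    q ^ n * (V q d - V q e) = V q (sh n d) - V q (sh n e) := by
  have h0 : 0 < q := by linarith
  rw [V_split hq d n, V_split hq e n, PS_congr h]
  field_simp
  ring

lemma PS_anti {r q : ℝ} (hr : 1 < r) (hrq : r ≤ q) (d : ℕ → Fin 2) (n : ℕ) :
    PS q d n ≤ PS r d n := by
  unfold PS
  apply Finset.sum_le_sum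
  intro i _
  have : 0 < r := by linarith
  gcongr

lemma PS_diff {r q : ℝ} (hr : 1 < r) (hrq : r ≤ q) (d : ℕ → Fin 2) (n : ℕ) :
    PS r d n - PS q d n ≤ 1 / (r - 1) - 1 / (q - 1) := by
  have hq : 1 < q := by linarith
  have h0 : 0 < r := by linarith
  have hs := (hasSum_geom hr).sub (hasSum_geom hq)
  have h1 := sum_le_hasSum (Finset.range n) (fun i _ => by
    have : 1 / q ^ (i + 1) ≤ 1 / r ^ (i + 1) := by gcongr
    linarith) hs
  refine le_trans ?_ h1
  unfold PS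
  rw [← Finset.sum_sub_distrib]
  apply Finset.sum_le_sum
  intro i _
  have e1 : 1 / q ^ (i + 1) ≤ 1 / r ^ (i + 1) := by gcongr
  have e2 := digit_le_one (d i)
  have e3 : (0 : ℝ) ≤ (((d i : Fin 2) : ℕ) : ℝ) := by positivity
  rw [div_eq_mul_one_div, div_eq_mul_one_div (((d i : Fin 2) : ℕ) : ℝ) (q ^ (i + 1))]
  nlinarith

lemma PS_diff_ge {r q : ℝ} (hr : 1 < r) (hrq : r ≤ q) (d : ℕ → Fin 2) (n : ℕ)
    (hn : 1 ≤ n) (hd : d 0 = 1) : 1 / r - 1 / q ≤ PS r d n - PS q d n := by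
  have h0 : 0 < r := by linarith
  unfold PS
  rw [← Finset.sum_sub_distrib]
  have h1 : (((d 0 : Fin 2) : ℕ) : ℝ) / r ^ (0 + 1) - (((d 0 : Fin 2) : ℕ) : ℝ) / q ^ (0 + 1) ≤
      ∑ i ∈ Finset.range n, ((((d i : Fin 2) : ℕ) : ℝ) / r ^ (i + 1) -
        (((d i : Fin 2) : ℕ) : ℝ) / q ^ (i + 1)) := by
    apply Finset.single_le_sum (f := fun i => (((d i : Fin 2) : ℕ) : ℝ) / r ^ (i + 1) -
        (((d i : Fin 2) : ℕ) : ℝ) / q ^ (i + 1)) (fun i _ => ?_) (Finset.mem_range.mpr (by omega))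
    have : (((d i : Fin 2) : ℕ) : ℝ) / q ^ (i + 1) ≤ (((d i : Fin 2) : ℕ) : ℝ) / r ^ (i + 1) := by
      gcongr
    linarith
  rw [hd] at h1
  simpa using h1

lemma V_anti {r q : ℝ} (hr : 1 < r) (hrq : r ≤ q) (d : ℕ → Fin 2) : V q d ≤ V r d := by
  have hq : 1 < q := by linarith
  have h0 : 0 < r := by linarith
  refine hasSum_le (fun i => ?_) (isExp_V hq d) (isExp_V hr d)
  gcongr

/-- The strict univoque condition for a sequence. -/
def SU (q : ℝ) (d : ℕ → Fin 2) : Prop :=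
  ∀ n, (d n = 0 → V q (sh (n + 1) d) < 1) ∧ (d n = 1 → kap q < V q (sh (n + 1) d))

lemma SU_shift {q : ℝ} {d : ℕ → Fin 2} (h : SU q d) (n : ℕ) : SU q (sh n d) := by
  intro m
  have := h (n + m)
  rw [sh_sh]
  exact this

lemma SU_UE {q : ℝ} (hq : 1 < q) (hq2 : q ≤ 2) {d : ℕ → Fin 2} (h : SU q d) : UE q (V q d) := by
  refine UE_of_invariant hq hq2 {y | ∃ n, y = V q (sh n d)} ?_ ?_ _ ⟨0, by rw [sh_zero]⟩
  · rintro y ⟨n, rfl⟩
    exact ⟨V_nonneg hq _, V_le hq _⟩
  · rintro y ⟨n, rfl⟩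
    have ht := V_tail hq (sh n d)
    rw [sh_sh] at ht
    simp only [sh_apply, add_zero] at ht
    rcases fin2_cases (d n) with hd | hd
    · left
      rw [hd] at ht
      simp only [Fin.val_zero, Nat.cast_zero, sub_zero] at ht
      rw [← ht]
      exact ⟨⟨n + 1, rfl⟩, (h n).1 hd⟩
    · right
      rw [hd] at ht
      simp only [Fin.val_one, Nat.cast_one] at ht
      rw [← ht]
      exact ⟨⟨n + 1, rfl⟩, (h n).2 hd⟩

lemma TwoExp_of_sh {q : ℝ} (hq : 1 < q) (d : ℕ → Fin 2) (n : ℕ)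
    (h : TwoExp q (V q (sh n d))) : TwoExp q (V q d) := by
  induction n generalizing d with
  | zero => rwa [sh_zero] at h
  | succ n ih =>
    have h1 : sh (n + 1) d = sh n (sh 1 d) := by rw [sh_sh, add_comm]
    rw [h1] at h
    have h2 := (ih (sh 1 d) h).cons (by linarith) (d 0)
    rwa [← V_step hq] at h2

lemma UE_SU {q : ℝ} (hq : 1 < q) (hq2 : q ≤ 2) {d : ℕ → Fin 2} (h : UE q (V q d)) : SU q d := by
  have h0 : 0 < q := by linarith
  have hq1 : 0 < q - 1 := by linarith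
  intro n
  have hst := V_step hq (sh n d)
  rw [sh_sh] at hst
  simp only [sh_apply, add_zero] at hst
  constructor
  · intro hd
    by_contra hlt
    push Not at hlt
    apply (TwoExp_of_sh hq d n _).not_UE h
    rw [hd] at hst
    simp only [Fin.val_zero, Nat.cast_zero, zero_add] at hst
    apply two_of_switch hq hq2
    · rw [hst]; gcongr
    · rw [hst, div_le_div_iff₀ h0 (by positivity)]
      have := V_le hq (sh (n + 1) d)
      rw [le_div_iff₀ hq1] at this
      nlinarith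
  · intro hd
    by_contra hlt
    push Not at hlt
    apply (TwoExp_of_sh hq d n _).not_UE h
    rw [hd] at hst
    simp only [Fin.val_one, Nat.cast_one] at hst
    have hnn := V_nonneg hq (sh (n + 1) d)
    apply two_of_switch hq hq2
    · rw [hst]; gcongr; linarith
    · rw [hst, div_le_div_iff₀ h0 (by positivity)]
      unfold kap at hlt
      rw [le_div_iff₀ hq1] at hlt
      nlinarith

end Pool.Agent.V11309.Uni
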