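import Mathlib
import Pool.Agent.V11309.Uni.Seq

/-! Block sequences built from the expansion of one. -/

namespace Pool.Agent.V11309.Uni

/-- Infinite concatenation of the blocks `comp(α_0 … α_{a-1}) 1`, `a = m 0, m 1, …`. -/
def dseq (α : ℕ → Fin 2) : (ℕ → ℕ) → ℕ → Fin 2
  | m, N => if N < m 0 then 1 - α N else if h : N = m 0 then 1 else
      dseq α (fun j => m (j + 1)) (N - m 0 - 1)
  termination_by _ N => N
  decreasing_by omega

lemma dseq_lt {α : ℕ → Fin 2} {m : ℕ → ℕ} {N : ℕ} (h : N < m 0) : dseq α m N = 1 - α N := by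
  rw [dseq]; simp [h]

lemma dseq_eq {α : ℕ → Fin 2} {m : ℕ → ℕ} : dseq α m (m 0) = 1 := by
  rw [dseq]; simp

lemma sh_dseq (α : ℕ → Fin 2) (m : ℕ → ℕ) :
    sh (m 0 + 1) (dseq α m) = dseq α (fun j => m (j + 1)) := by
  funext i
  simp only [sh_apply]
  conv_lhs => rw [dseq]
  have h1 : ¬ (m 0 + 1 + i < m 0) := by omega
  have h2 : ¬ (m 0 + 1 + i = m 0) := by omega
  rw [if_neg h1, dif_neg h2]
  congr 1
  omega

/-- Excess of the orbit of one over `κ`. -/
noncomputable def ex (q : ℝ) (α : ℕ → Fin 2) (t : ℕ) : ℝ := V q (sh t α) - kap q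

section

variable {q : ℝ} {α : ℕ → Fin 2}

/-- Basic facts about the orbit of one, for a univoque base `q < 2`. -/
lemma ex_pos (hSU : SU q α) {t : ℕ} (ht : 1 ≤ t) (hd : α (t - 1) = 1) : 0 < ex q α t := by
  have := (hSU (t - 1)).2 hd
  rw [show t - 1 + 1 = t by omega] at this
  unfold ex; linarith

lemma orb_lt_one (hSU : SU q α) {t : ℕ} (ht : 1 ≤ t) (hd : α (t - 1) = 0) :
    V q (sh t α) < 1 := by
  have := (hSU (t - 1)).1 hd
  rwa [show t - 1 + 1 = t by omega] at this

lemma kap_pos (hq : 1 < q) (hq2 : q < 2) : 0 < kap q := by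
  unfold kap; apply div_pos <;> linarith

/-- Existence and properties of the first difference between `σ^t α` and `comp α`. -/
lemma first_diff (hq : 1 < q) (hq2 : q < 2) (hα : V q α = 1) (hSU : SU q α) {t : ℕ}
    (ht : 1 ≤ t) (hd : α (t - 1) = 1) :
    ∃ s, (∀ i < s, α (t + i) = 1 - α i) ∧ α (t + s) = 1 ∧ α s = 1 ∧
      q ^ (s + 1) * ex q α t = V q (sh (t + s + 1) α) + ex q α (s + 1) := by
  have hex := ex_pos hSU ht hd
  have hk := kap_pos hq hq2
  have hVc : V q (cmp α) = kap q := by rw [V_cmp hq, hα, kap_eq hq]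
  have hne : sh t α ≠ cmp α := by
    intro h
    unfold ex at hex
    rw [h, hVc] at hex
    linarith
  have hex' : ∃ s, sh t α s ≠ cmp α s := Function.ne_iff.mp hne
  classical
  set s := Nat.find hex' with hs
  have h1 : sh t α s ≠ cmp α s := Nat.find_spec hex'
  have h2 : ∀ i < s, sh t α i = cmp α i := fun i hi => by
    by_contra h; exact Nat.find_min hex' hi h
  have hag := V_agree hq h2
  rw [hVc] at hag
  -- one more step
  have e1 := V_step hq (sh s (sh t α))
  have e2 := V_step hq (sh s (cmp α))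
  rw [sh_sh, sh_sh] at e1
  rw [sh_sh] at e2
  simp only [sh_apply, add_zero, cmp_apply] at e1 e2
  have e3 : V q (sh (s + 1) (cmp α)) = 1 / (q - 1) - V q (sh (s + 1) α) := by
    rw [sh_cmp, V_cmp hq]
  rw [sh_sh] at hag
  rw [e1, e2, e3] at hag
  have h0 : 0 < q := by linarith
  have key : q ^ (s + 1) * (V q (sh t α) - kap q) =
      (((α (t + s) : Fin 2) : ℕ) : ℝ) - (((1 - α s : Fin 2) : ℕ) : ℝ) +
        V q (sh (t + s + 1) α) - 1 / (q - 1) + V q (sh (s + 1) α) := by
    rw [pow_succ, show q ^ s * q * (V q (sh t α) - kap q) =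
      q * (q ^ s * (V q (sh t α) - kap q)) by ring, hag]
    field_simp
    ring
  simp only [sh_apply, cmp_apply] at h1 h2
  have hkk := kap_eq hq
  rcases fin2_cases (α (t + s)) with ha | ha
  · -- impossible case
    exfalso
    have hb : α s = 0 := by
      rcases fin2_cases (α s) with hb | hb
      · exact hb
      · exfalso; apply h1; rw [ha, hb]; rfl
    have l1 := (hSU (t + s)).1 ha
    have l2 := (hSU s).1 hb
    rw [ha, hb] at key
    simp at key
    unfold ex at hex
    have : 0 < q ^ (s + 1) * (V q (sh t α) - kap q) := by positivity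
    rw [one_div] at hkk
    linarith
  · have hb : α s = 1 := by
      rcases fin2_cases (α s) with hb | hb
      · exfalso; apply h1; rw [ha, hb]; rfl
      · exact hb
    refine ⟨s, h2, ha, hb, ?_⟩
    rw [ha, hb] at key
    unfold ex
    rw [key]
    simp only [Fin.val_one, Nat.cast_one, sub_self, Fin.val_zero, Nat.cast_zero, sub_zero]
    linarith

/-- `a` is a record index: `α a = 1` and the excess at `a + 1` is smaller than all the excesses
before. -/
def IsRec (q : ℝ) (α : ℕ → Fin 2) (a : ℕ) : Prop :=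
  α a = 1 ∧ ∀ t, 1 ≤ t → t ≤ a → α (t - 1) = 1 → ex q α (a + 1) < ex q α t

/-- The key inequality for the interior of a block. -/
lemma interior (hq : 1 < q) (hq2 : q < 2) (hα : V q α = 1) (hSU : SU q α) {a t : ℕ}
    (hrec : IsRec q α a) (ht : 1 ≤ t) (hta : t ≤ a) (hd : α (t - 1) = 1) {w : ℝ}
    (hw1 : 1 - w ≤ 2 - q) (hw2 : 1 - w ≤ ex q α (a + 1)) :
    V q (sh (a + 1) α) + 1 - w < q ^ (a + 1 - t) * ex q α t := by
  have h0 : 0 < q := by linarith
  obtain ⟨s, s1, s2, s3, s4⟩ := first_diff hq hq2 hα hSU ht hd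
  have hk := kap_pos hq hq2
  have hext := ex_pos hSU ht hd
  have hea : 0 < ex q α (a + 1) := ex_pos hSU (by omega) hrec.1
  rcases lt_trichotomy (t + s) a with h | h | h
  · -- difference before index a
    have r1 := hrec.2 (t + s + 1) (by omega) (by omega) (by simpa using s2)
    have r2 : 0 < ex q α (s + 1) := ex_pos hSU (by omega) (by simpa using s3)
    obtain ⟨c, hc⟩ : ∃ c, a + 1 - t = (s + 1) + (c + 1) := ⟨a - t - s - 1, by omega⟩
    rw [hc, pow_add]
    have e : q ^ (s + 1) * q ^ (c + 1) * ex q α t = q ^ (c + 1) * (q ^ (s + 1) * ex q α t) := by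
      ring
    rw [e, s4]
    have hq1 : q ≤ q ^ (c + 1) := by
      calc q = q ^ 1 := by ring
        _ ≤ q ^ (c + 1) := pow_le_pow_right₀ hq.le (by omega)
    have p1 : V q (sh (a + 1) α) < V q (sh (t + s + 1) α) := by
      unfold ex at r1; linarith
    have p2 : kap q < V q (sh (a + 1) α) := by unfold ex at hea; linarith
    have p3 : q * kap q ≥ (2 - q) + kap q := by
      have : kap q * (q - 1) = 2 - q := by
        unfold kap
        have : q - 1 ≠ 0 := by linarith
        field_simp
      nlinarith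
    have p4 : q * (V q (sh (t + s + 1) α) + ex q α (s + 1)) ≤
        q ^ (c + 1) * (V q (sh (t + s + 1) α) + ex q α (s + 1)) := by
      apply mul_le_mul_of_nonneg_right hq1
      linarith
    nlinarith
  · -- difference exactly at a
    have e : a + 1 - t = s + 1 := by omega
    rw [e, s4, h]
    have r2 : ex q α (a + 1) < ex q α (s + 1) :=
      hrec.2 (s + 1) (by omega) (by omega) (by simpa using s3)
    linarith
  · -- agreement through index a: impossible
    exfalso
    have hag : ∀ i < a + 1 - t, sh t α i = cmp α i := fun i hi => s1 i (by omega)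
    have hV := V_agree hq hag
    have hVc : V q (cmp α) = kap q := by rw [V_cmp hq, hα, kap_eq hq]
    rw [hVc, sh_sh, show t + (a + 1 - t) = a + 1 by omega, sh_cmp, V_cmp hq] at hV
    have hlast := s1 (a - t) (by omega)
    rw [show t + (a - t) = a by omega, hrec.1] at hlast
    have hz : α (a - t) = 0 := by
      rcases fin2_cases (α (a - t)) with hb | hb
      · exact hb
      · rw [hb] at hlast; simp at hlast
    have l1 := (hSU (a - t)).1 hz
    rw [show a - t + 1 = a + 1 - t by omega] at l1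
    have hkk := kap_eq hq
    have hpow : 1 ≤ q ^ (a + 1 - t) := one_le_pow₀ hq.le
    have r1 := hrec.2 t ht hta hd
    have : q ^ (a + 1 - t) * ex q α t ≥ ex q α t := by nlinarith
    unfold ex at *
    linarith

/-- The complementary value of a block sequence. -/
noncomputable def cW (q : ℝ) (α : ℕ → Fin 2) (m : ℕ → ℕ) : ℝ := V q (cmp (dseq α m))

lemma cW_eq (hq : 1 < q) (m : ℕ → ℕ) : V q (dseq α m) = 1 / (q - 1) - cW q α m := by
  unfold cW; rw [V_cmp hq]; ring

/-- `q^{a+1}(1 - W) = z(a+1) + 1 - W'`. -/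
lemma one_sub_cW (hq : 1 < q) (hα : V q α = 1) (m : ℕ → ℕ) (hm : α (m 0) = 1) :
    q ^ (m 0 + 1) * (1 - cW q α m) =
      V q (sh (m 0 + 1) α) + 1 - cW q α (fun j => m (j + 1)) := by
  have h0 : 0 < q := by linarith
  have hag : ∀ i < m 0, α i = cmp (dseq α m) i := by
    intro i hi
    simp only [cmp_apply, dseq_lt hi]
    rcases fin2_cases (α i) with h | h <;> rw [h] <;> rfl
  have h1 := V_agree hq hag
  rw [hα] at h1
  have e1 := V_step hq (sh (m 0) α)
  have e2 := V_step hq (sh (m 0) (cmp (dseq α m)))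
  rw [sh_sh] at e1 e2
  simp only [sh_apply, add_zero, cmp_apply] at e1 e2
  rw [hm] at e1
  rw [dseq_eq, sh_cmp (m 0 + 1), sh_dseq] at e2
  unfold cW
  rw [e1, e2] at h1
  simp only [Fin.val_one, Nat.cast_one, sub_self, Fin.val_zero, Nat.cast_zero, zero_add] at h1
  rw [pow_succ, show q ^ m 0 * q * (1 - V q (cmp (dseq α m))) =
    q * (q ^ m 0 * (1 - V q (cmp (dseq α m)))) by ring, h1]
  field_simp
  ring

/-- Interior comp values. -/
lemma interior_value (hq : 1 < q) (hα : V q α = 1) (m : ℕ → ℕ) {t : ℕ} (ht : t ≤ m 0) :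
    q ^ t * (1 - cW q α m) = V q (sh t α) - V q (cmp (sh t (dseq α m))) := by
  have hag : ∀ i < t, α i = cmp (dseq α m) i := by
    intro i hi
    simp only [cmp_apply, dseq_lt (lt_of_lt_of_le hi ht)]
    rcases fin2_cases (α i) with h | h <;> rw [h] <;> rfl
  have h1 := V_agree hq hag
  rw [hα, sh_cmp] at h1
  exact h1

/-- Goodness of a block sequence. -/
def GoodM (q : ℝ) (α : ℕ → Fin 2) (m : ℕ → ℕ) : Prop :=
  ∀ j, IsRec q α (m j) ∧ 1 / (q ^ (m (j + 1)) * (q - 1)) ≤ min (2 - q) (ex q α (m j + 1))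

lemma GoodM.shift {m : ℕ → ℕ} (h : GoodM q α m) : GoodM q α (fun j => m (j + 1)) :=
  fun j => h (j + 1)

lemma cW_lt_one (hq : 1 < q) (hα : V q α = 1) (hSU : SU q α) (m : ℕ → ℕ)
    (hm : α (m 0) = 1) : cW q α m < 1 := by
  have h0 : 0 < q := by linarith
  have h1 := one_sub_cW hq hα m hm
  have h2 : 0 < ex q α (m 0 + 1) := ex_pos hSU (by omega) hm
  have h3 : cW q α (fun j => m (j + 1)) ≤ 1 / (q - 1) := V_le hq _
  have hk := kap_eq hq
  unfold ex at h2
  have h4 : 0 < q ^ (m 0 + 1) * (1 - cW q α m) := by rw [h1]; linarith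
  have h5 : 0 < q ^ (m 0 + 1) := by positivity
  by_contra h
  push Not at h
  nlinarith

lemma one_sub_cW_le (hq : 1 < q) (hα : V q α = 1) (m : ℕ → ℕ) (hm : α (m 0) = 1) :
    1 - cW q α m ≤ 1 / (q ^ (m 0) * (q - 1)) := by
  have h0 : 0 < q := by linarith
  have hq1 : 0 < q - 1 := by linarith
  have h1 := one_sub_cW hq hα m hm
  have h2 := V_le hq (sh (m 0 + 1) α)
  have h3 : 0 ≤ cW q α (fun j => m (j + 1)) := V_nonneg hq _
  rw [le_div_iff₀ (by positivity)]
  have h4 : q ^ (m 0 + 1) * (1 - cW q α m) ≤ 1 / (q - 1) + 1 := by rw [h1]; linarith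
  have h5 : (1 / (q - 1) + 1) * (q - 1) = q := by field_simp; ring
  have h6 : q * ((1 - cW q α m) * (q ^ m 0 * (q - 1))) ≤ q * 1 := by
    calc q * ((1 - cW q α m) * (q ^ m 0 * (q - 1))) =
        (q ^ (m 0 + 1) * (1 - cW q α m)) * (q - 1) := by ring
      _ ≤ (1 / (q - 1) + 1) * (q - 1) := by gcongr
      _ = q * 1 := by rw [h5]; ring
  exact le_of_mul_le_mul_left h6 h0

lemma SU_dseq (hq : 1 < q) (hq2 : q < 2) (hα : V q α = 1) (hSU : SU q α) (N : ℕ) :
    ∀ m : ℕ → ℕ, GoodM q α m →
    ((dseq α m N = 0 → V q (sh (N + 1) (dseq α m)) < 1) ∧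
      (dseq α m N = 1 → kap q < V q (sh (N + 1) (dseq α m)))) := by
  have h0 : 0 < q := by linarith
  have hkk := kap_eq hq
  induction N using Nat.strong_induction_on with
  | _ N ih =>
    intro m hm
    have hm0 : α (m 0) = 1 := (hm 0).1.1
    have hm1 : α (m 1) = 1 := (hm 1).1.1
    have hW := cW_lt_one hq hα hSU m hm0
    have hW' := cW_lt_one hq hα hSU (fun j => m (j + 1)) (by simpa using hm1)
    rcases lt_trichotomy N (m 0) with h | h | h
    · have hint := interior_value hq hα m (t := N + 1) (by omega)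
      rw [V_cmp hq] at hint
      have hval : V q (sh (N + 1) (dseq α m)) = 1 / (q - 1) - V q (sh (N + 1) α) +
          q ^ (N + 1) * (1 - cW q α m) := by linarith
      rw [hval]
      have hp : 0 < q ^ (N + 1) * (1 - cW q α m) := by
        have : 0 < 1 - cW q α m := by linarith
        positivity
      rw [dseq_lt h]
      constructor
      · intro hz
        have hd : α N = 1 := by
          rcases fin2_cases (α N) with hb | hb
          · rw [hb] at hz; simp at hz
          · exact hb
        have hb := (hm 0).2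
        have hw := one_sub_cW_le hq hα (fun j => m (j + 1)) (by simpa using hm1)
        simp only [zero_add] at hb hw
        have key := interior (t := N + 1) (w := cW q α (fun j => m (j + 1))) hq hq2 hα hSU
          (hm 0).1 (by omega) (by omega) (by simpa using hd)
          (le_trans hw (le_trans hb (min_le_left _ _)))
          (le_trans hw (le_trans hb (min_le_right _ _)))
        have h1 := one_sub_cW hq hα m hm0
        have hpow : q ^ (m 0 + 1) = q ^ (m 0 + 1 - (N + 1)) * q ^ (N + 1) := by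
          rw [← pow_add]; congr 1; omega
        rw [hpow] at h1
        have hpp : 0 < q ^ (m 0 + 1 - (N + 1)) := by positivity
        have h2 : q ^ (m 0 + 1 - (N + 1)) * (q ^ (N + 1) * (1 - cW q α m)) <
            q ^ (m 0 + 1 - (N + 1)) * ex q α (N + 1) := by
          rw [← mul_assoc, h1]; exact key
        have h3 := lt_of_mul_lt_mul_left h2 hpp.le
        unfold ex at h3
        linarith
      · intro ho
        have hd : α N = 0 := by
          rcases fin2_cases (α N) with hb | hb
          · exact hb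
          · rw [hb] at ho; simp at ho
        have := (hSU N).1 hd
        linarith
    · subst h
      refine ⟨fun hz => ?_, fun _ => ?_⟩
      · rw [dseq_eq] at hz; simp at hz
      · rw [sh_dseq, cW_eq hq]
        linarith
    · obtain ⟨i, hi⟩ : ∃ i, N = m 0 + 1 + i := ⟨N - m 0 - 1, by omega⟩
      have e1 : dseq α m N = dseq α (fun j => m (j + 1)) i := by
        have := congrFun (sh_dseq α m) i
        simp only [sh_apply] at this
        rw [hi]; exact this
      have e2 : sh (N + 1) (dseq α m) = sh (i + 1) (dseq α (fun j => m (j + 1))) := by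
        rw [← sh_dseq α m, sh_sh]; congr 1; omega
      rw [e1, e2]
      exact ih i (by omega) _ hm.shift

lemma SU_dseq' (hq : 1 < q) (hq2 : q < 2) (hα : V q α = 1) (hSU : SU q α) {m : ℕ → ℕ}
    (hm : GoodM q α m) : SU q (dseq α m) := fun N => SU_dseq hq hq2 hα hSU N m hm

end

end Pool.Agent.V11309.Uni
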