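import Mathlib
import Pool.Agent.V11309.Uni.Block
import Pool.Agent.V11309.Uni.Closure

/-! Lower bounds for univoque bases of points built from block sequences. -/

namespace Pool.Agent.V11309.Uni

/-- No nontrivial unique expansions for bases up to the golden ratio. -/
lemma two_small_base {r x : ℝ} (hr : 1 < r) (hg : r ^ 2 - r - 1 ≤ 0) (hx0 : 0 < x)
    (hx1 : x < 1 / (r - 1)) : TwoExp r x := by
  have h0 : 0 < r := by linarith
  have hr1 : 0 < r - 1 := by linarith
  have hr2 : r ≤ 2 := by nlinarith
  have hrr : r * (r - 1) ≤ 1 := by nlinarith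
  -- case x < 1/r
  have caseA : ∀ y : ℝ, 0 < y → y < 1 / r → TwoExp r y := by
    intro y hy hy1
    rw [lt_div_iff₀ h0] at hy1
    obtain ⟨n, hn⟩ := pow_unbounded_of_one_lt (1 / (r * y)) hr
    have hex : ∃ n : ℕ, 1 / r ≤ r ^ n * y := by
      refine ⟨n, ?_⟩
      rw [div_lt_iff₀ (by positivity)] at hn
      rw [div_le_iff₀ h0]
      nlinarith
    classical
    set k := Nat.find hex with hk
    have hk1 : 1 / r ≤ r ^ k * y := Nat.find_spec hex
    have hkpos : k ≠ 0 := by
      intro h
      rw [h] at hk1
      simp only [pow_zero, one_mul] at hk1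
      rw [div_le_iff₀ h0] at hk1
      linarith
    obtain ⟨m, hm⟩ := Nat.exists_eq_succ_of_ne_zero hkpos
    have hmin : ¬ (1 / r ≤ r ^ m * y) :=
      Nat.find_min hex (by rw [← hk, hm]; exact Nat.lt_succ_self m)
    push Not at hmin
    rw [lt_div_iff₀ h0] at hmin
    have hlt : r ^ k * y < 1 := by
      rw [hm, Nat.succ_eq_add_one, pow_succ]
      nlinarith
    have hle : r ^ k * y ≤ 1 / (r * (r - 1)) := by
      rw [le_div_iff₀ (by positivity)]
      have : 0 < r * (r - 1) := by positivity
      nlinarith
    exact TwoExp.zeros h0 k (two_of_switch hr hr2 hk1 hle)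
  rcases lt_or_ge x (1 / r) with h | h
  · exact caseA x hx0 h
  rcases le_or_gt x (1 / (r * (r - 1))) with h' | h'
  · exact two_of_switch hr hr2 h h'
  · have hy : TwoExp r (1 / (r - 1) - x) := by
      apply caseA
      · linarith
      · have e : 1 / (r - 1) - 1 / (r * (r - 1)) = 1 / r := by field_simp
        linarith
    obtain ⟨d, d', hne, h1, h2⟩ := hy
    have e : 1 / (r - 1) - (1 / (r - 1) - x) = x := by ring
    refine ⟨fun n => 1 - d n, fun n => 1 - d' n, ?_, ?_, ?_⟩
    · intro hh
      apply hne
      funext n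
      have := congrFun hh n
      rcases fin2_cases (d n) with h3 | h3 <;> rcases fin2_cases (d' n) with h4 | h4 <;>
        simp [h3, h4] at this ⊢
    · have := isExp_reflect hr h1; rwa [e] at this
    · have := isExp_reflect hr h2; rwa [e] at this

lemma V_anti_strict {r q : ℝ} (hr : 1 < r) (hrq : r < q) (d : ℕ → Fin 2) {i : ℕ}
    (hi : d i = 1) : V q d < V r d := by
  have hq : 1 < q := by linarith
  have h0 : 0 < r := by linarith
  have hq0 : 0 < q := by linarith
  rw [V_split hq d (i + 1), V_split hr d (i + 1), PS_succ, PS_succ, hi]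
  have h1 := PS_anti hr hrq.le d i
  have h2 : V q (sh (i + 1) d) / q ^ (i + 1) ≤ V r (sh (i + 1) d) / r ^ (i + 1) := by
    have := V_anti hr hrq.le (sh (i + 1) d)
    have hn := V_nonneg hr (sh (i + 1) d)
    gcongr
  have h3 : (((1 : Fin 2) : ℕ) : ℝ) / q ^ (i + 1) < (((1 : Fin 2) : ℕ) : ℝ) / r ^ (i + 1) := by
    simp only [Fin.val_one, Nat.cast_one]
    gcongr
  linarith

lemma LB_first {q r : ℝ} (hr : 1 < r) (hrq : r < q) (hq2 : q < 2) {d e : ℕ → Fin 2}
    (hd : SU q d) (he : SU r e) (hx : V q d = V r e) (h1 : ∃ i, d i = 1) :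
    ∃ N, (∀ i < N, d i = e i) ∧ d N = 1 ∧ e N = 0 ∧
      (r - 1) * (q - 1) * V q (sh (N + 1) d) < (q - r) * q ^ (N + 1) := by
  have hq : 1 < q := by linarith
  have h0 : 0 < r := by linarith
  have hq0 : 0 < q := by linarith
  have hne : d ≠ e := by
    rintro rfl
    obtain ⟨i, hi⟩ := h1
    have := V_anti_strict hr hrq d hi
    linarith
  have hex : ∃ n, d n ≠ e n := Function.ne_iff.mp hne
  classical
  set N := Nat.find hex with hN
  have a1 : d N ≠ e N := Nat.find_spec hex
  have a2 : ∀ i < N, d i = e i := fun i hi => by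
    by_contra h; exact Nat.find_min hex hi h
  have s1 := V_split hq d (N + 1)
  have s2 := V_split hr e (N + 1)
  rw [PS_succ] at s1 s2
  have hPS : PS r e N = PS r d N := PS_congr (fun i hi => (a2 i hi).symm)
  rw [hPS] at s2
  have hPSa := PS_anti hr hrq.le d N
  have hpow : 1 / q ^ (N + 1) ≤ 1 / r ^ (N + 1) := by gcongr
  rcases fin2_cases (d N) with hdN | hdN
  · exfalso
    have heN : e N = 1 := by
      rcases fin2_cases (e N) with h | h
      · exact absurd (hdN.trans h.symm) a1
      · exact h
    have t1 := (hd N).1 hdN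
    have t2 := (he N).2 heN
    have t3 : 0 ≤ kap r := (kap_pos hr (by linarith)).le
    rw [hdN] at s1
    rw [heN] at s2
    simp only [Fin.val_zero, Nat.cast_zero, zero_div, add_zero, Fin.val_one, Nat.cast_one] at s1 s2
    have u1 : V q (sh (N + 1) d) / q ^ (N + 1) < 1 / q ^ (N + 1) := by gcongr
    have u2 : 0 ≤ V r (sh (N + 1) e) / r ^ (N + 1) := by
      have := V_nonneg hr (sh (N + 1) e)
      positivity
    linarith
  · have heN : e N = 0 := by
      rcases fin2_cases (e N) with h | h
      · exact h
      · exact absurd (hdN.trans h.symm) a1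
    refine ⟨N, a2, hdN, heN, ?_⟩
    have t2 := (he N).1 heN
    have hD := PS_diff hr hrq.le d (N + 1)
    rw [PS_succ, PS_succ] at hD
    rw [hdN] at s1 hD
    rw [heN] at s2
    simp only [Fin.val_zero, Nat.cast_zero, zero_div, add_zero, Fin.val_one,
      Nat.cast_one] at s1 s2 hD
    have u1 : V r (sh (N + 1) e) / r ^ (N + 1) < 1 / r ^ (N + 1) := by gcongr
    have u2 : V q (sh (N + 1) d) / q ^ (N + 1) < 1 / (r - 1) - 1 / (q - 1) := by linarith
    have hr1 : 0 < r - 1 := by linarith
    have hq1 : 0 < q - 1 := by linarith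
    have e1 : 1 / (r - 1) - 1 / (q - 1) = (q - r) / ((r - 1) * (q - 1)) := by
      field_simp; ring
    rw [e1, div_lt_div_iff₀ (by positivity) (by positivity)] at u2
    linarith

/-- Smallness of the excesses relative to the starting position. -/
def SmallM (q : ℝ) (α : ℕ → Fin 2) (m : ℕ → ℕ) (n : ℕ) : Prop :=
  ∀ j, ex q α (m j + 1) * q ^ (n + ∑ i ∈ Finset.range j, (m i + 1)) ≤ (2 - q) / 8

lemma SmallM.shift {q : ℝ} {α : ℕ → Fin 2} {m : ℕ → ℕ} {n : ℕ} (h : SmallM q α m n) :
    SmallM q α (fun j => m (j + 1)) (n + m 0 + 1) := by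
  intro j
  have := h (j + 1)
  rw [Finset.sum_range_succ'] at this
  have e : n + m 0 + 1 + ∑ i ∈ Finset.range j, (m (i + 1) + 1) =
      n + (∑ i ∈ Finset.range j, (m (i + 1) + 1) + (m 0 + 1)) := by ring
  rw [e]
  exact this

lemma LB_contra {q r : ℝ} {α : ℕ → Fin 2} (hr : 3 / 2 ≤ r) (hrq : r < q) (hq2 : q < 2)
    (hα : V q α = 1) (hSU : SU q α) {d e : ℕ → Fin 2} (hd : SU q d) (he : SU r e) {N : ℕ}
    (hag : ∀ i < N, d i = e i) (hdN : d N = 1) (heN : e N = 0)
    (hkey : (r - 1) * (q - 1) * V q (sh (N + 1) d) < (q - r) * q ^ (N + 1)) (K : ℕ) :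
    ∀ (m : ℕ → ℕ) (i0 : ℕ), N = i0 + K → sh i0 d = dseq α m → 1 ≤ i0 → d (i0 - 1) = 1 →
      (∀ j, α (m j) = 1) → SmallM q α m i0 → False := by
  have hr1' : 1 < r := by linarith
  have hq : 1 < q := by linarith
  have h0 : 0 < r := by linarith
  have hq0 : 0 < q := by linarith
  have hr1 : 0 < r - 1 := by linarith
  have hq1 : 0 < q - 1 := by linarith
  induction K using Nat.strong_induction_on with
  | _ K ih =>
    intro m i0 hN hsh hi0 hdi0 hm hsm
    have hα0 : α 0 = 1 := by
      rcases fin2_cases (α 0) with h | h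
      · exfalso
        have h1 := (hSU 0).1 h
        have h2 := V_tail hq α
        rw [h, hα] at h2
        simp only [Fin.val_zero, Nat.cast_zero, sub_zero, mul_one] at h2
        simp only [zero_add] at h1
        linarith
      · exact h
    rcases Nat.lt_or_ge (m 0) K with hK | hK
    · -- next block
      refine ih (K - m 0 - 1) (by omega) (fun j => m (j + 1)) (i0 + m 0 + 1) (by omega) ?_
        (by omega) ?_ (fun j => hm (j + 1)) hsm.shift
      · rw [← sh_dseq α m, ← hsh, sh_sh]; congr 1
      · have : d (i0 + m 0) = 1 := by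
          have h1 := congrFun hsh (m 0)
          simp only [sh_apply] at h1
          rw [h1, dseq_eq]
        simpa using this
    · -- the difference is in this block
      have hei0 : e (i0 - 1) = 1 := by rw [← hag (i0 - 1) (by omega)]; exact hdi0
      have c1 := (he (i0 - 1)).2 hei0
      rw [show i0 - 1 + 1 = i0 by omega] at c1
      have c2 : V r (cmp (sh i0 e)) < 1 := by
        rw [V_cmp hr1']
        have := kap_eq hr1'
        linarith
      have hdig : ∀ i < K, cmp (sh i0 e) i = α i := by
        intro i hi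
        have h1 : e (i0 + i) = d (i0 + i) := (hag _ (by omega)).symm
        have h2 := congrFun hsh i
        simp only [sh_apply] at h2
        simp only [cmp_apply, sh_apply]
        rw [h1, h2, dseq_lt (by omega)]
        rcases fin2_cases (α i) with h | h <;> rw [h] <;> rfl
      have c3 := V_split hr1' (cmp (sh i0 e)) K
      rw [PS_congr hdig] at c3
      have c4 := V_step hr1' (sh K (cmp (sh i0 e)))
      rw [sh_sh, sh_cmp, sh_sh, sh_cmp, sh_sh] at c4
      simp only [cmp_apply, sh_apply, add_zero] at c4
      rw [← hN, heN] at c4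
      rw [show i0 + (K + 1) = N + 1 by omega, V_cmp hr1' (sh (N + 1) e)] at c4
      have c5 := (he N).1 heN
      have hkr := kap_eq hr1'
      have c6 : V r (sh K (cmp (sh i0 e))) > (1 + kap r) / r := by
        rw [sh_cmp, sh_sh, ← hN, c4]
        simp only [sub_zero, Fin.val_one, Nat.cast_one]
        gcongr
        linarith
      have c7 : PS r α K + (1 + kap r) / r ^ (K + 1) < 1 := by
        have : (1 + kap r) / r ^ (K + 1) = (1 + kap r) / r / r ^ K := by
          rw [pow_succ]; field_simp
        rw [this]
        have : (1 + kap r) / r / r ^ K < V r (sh K (cmp (sh i0 e))) / r ^ K := by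
          gcongr
        linarith
      have hkrpos := kap_pos hr1' (by linarith)
      have hkqpos := kap_pos hq hq2
      have hpow : 1 / q ^ (K + 1) ≤ 1 / r ^ (K + 1) := by gcongr
      have s1 := V_split hq α (K + 1)
      rw [PS_succ, hα] at s1
      rcases Nat.lt_or_ge K (m 0) with hlt | hge
      · have hαK : α K = 0 := by
          have h2 := congrFun hsh K
          simp only [sh_apply] at h2
          rw [← hN, hdN, dseq_lt hlt] at h2
          rcases fin2_cases (α K) with h | h
          · exact h
          · rw [h] at h2; simp at h2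
        rw [hαK] at s1
        simp only [Fin.val_zero, Nat.cast_zero, zero_div, add_zero] at s1
        have t1 := (hSU K).1 hαK
        have t2 : V q (sh (K + 1) α) / q ^ (K + 1) < 1 / q ^ (K + 1) := by gcongr
        have t3 := PS_anti hr1' hrq.le α K
        have t4 : 1 / r ^ (K + 1) ≤ (1 + kap r) / r ^ (K + 1) := by gcongr; linarith
        linarith
      · have hKm : K = m 0 := by omega
        have hαK : α K = 1 := by rw [hKm]; exact hm 0
        have hsm0 := hsm 0
        simp only [Finset.range_zero, Finset.sum_empty, add_zero] at hsm0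
        rw [← hKm] at hsm0
        have hD := PS_diff_ge hr1' hrq.le α (K + 1) (by omega) hα0
        rw [PS_succ, PS_succ] at hD
        rw [hαK] at s1 hD
        simp only [Fin.val_one, Nat.cast_one] at s1 hD
        have t4 : (1 + kap r) / r ^ (K + 1) = 1 / r ^ (K + 1) + kap r / r ^ (K + 1) := by ring
        have hkk : kap q ≤ kap r := by
          rw [kap_eq hq, kap_eq hr1']
          have : 1 / (q - 1) ≤ 1 / (r - 1) := by gcongr
          linarith
        have t5 : kap q / q ^ (K + 1) ≤ kap r / r ^ (K + 1) := by gcongr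
        have t6 : 1 / r - 1 / q < ex q α (K + 1) / q ^ (K + 1) := by
          have : ex q α (K + 1) / q ^ (K + 1) =
              V q (sh (K + 1) α) / q ^ (K + 1) - kap q / q ^ (K + 1) := by
            unfold ex; ring
          linarith
        have t7 : (q - r) / 4 ≤ 1 / r - 1 / q := by
          have e1 : 1 / r - 1 / q = (q - r) / (r * q) := by field_simp
          rw [e1]
          have : 0 ≤ q - r := by linarith
          gcongr
          nlinarith
        have hpk : 0 < q ^ (K + 1) := by positivity
        have t8 : (q - r) / 4 * q ^ (K + 1) < ex q α (K + 1) := by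
          have := lt_of_le_of_lt t7 t6
          rwa [lt_div_iff₀ hpk] at this
        have hVN : kap q < V q (sh (N + 1) d) := (hd N).2 hdN
        have t9 : (1 / 2) * (2 - q) < (q - r) * q ^ (N + 1) := by
          have e1 : (q - 1) * kap q = 2 - q := by
            unfold kap; field_simp
          have e2 : (1 / 2) * (2 - q) ≤ (r - 1) * (q - 1) * kap q := by
            rw [mul_assoc, e1]
            have : 0 ≤ 2 - q := by linarith
            gcongr
            linarith
          have e3 : (r - 1) * (q - 1) * kap q ≤ (r - 1) * (q - 1) * V q (sh (N + 1) d) := by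
            gcongr
          linarith
        have hpi : 0 < q ^ i0 := by positivity
        have hsplit : q ^ (N + 1) = q ^ i0 * q ^ (K + 1) := by
          rw [← pow_add]; congr 1; omega
        rw [hsplit] at t9
        have t10 : (q - r) * (q ^ i0 * q ^ (K + 1)) < 4 * ex q α (K + 1) * q ^ i0 := by
          have h1 := mul_lt_mul_of_pos_right t8 hpi
          have h2 : (q - r) * (q ^ i0 * q ^ (K + 1)) =
              4 * ((q - r) / 4 * q ^ (K + 1) * q ^ i0) := by ring
          rw [h2]
          linarith
        linarith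

end Pool.Agent.V11309.Uni
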