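import Mathlib
import Pool.Agent.V11309.Uni.Lower
import Pool.Agent.V11309.Uni.Final

/-! Uncountable level sets. -/

namespace Pool.Agent.V11309.Uni

lemma not_countable_bool : ¬ Countable (ℕ → Bool) := by
  intro h
  obtain ⟨g, hg⟩ := h.exists_injective_nat
  classical
  apply Function.cantor_injective (fun s : Set ℕ => g (fun n => decide (n ∈ s)))
  intro s t hst
  have h1 := hg hst
  ext n
  have h2 := congrFun h1 n
  simpa using h2

/-- Property `P`: the orbit of one comes arbitrarily close to `κ` after digits one. -/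
def PropP (q : ℝ) (α : ℕ → Fin 2) : Prop :=
  ∀ ε : ℝ, 0 < ε → ∃ t, 1 ≤ t ∧ α (t - 1) = 1 ∧ ex q α t < ε

lemma finite_min {q : ℝ} {α : ℕ → Fin 2} (hSU : SU q α) {ε : ℝ} (hε : 0 < ε) (A : ℕ) :
    ∃ ε' : ℝ, 0 < ε' ∧ ε' ≤ ε ∧ ∀ t, 1 ≤ t → t ≤ A → α (t - 1) = 1 → ε' ≤ ex q α t := by
  induction A with
  | zero => exact ⟨ε, hε, le_rfl, fun t h1 h2 => by omega⟩
  | succ A ih =>
    obtain ⟨ε', h1, h2, h3⟩ := ih
    by_cases hA : α (A + 1 - 1) = 1
    · have hp := ex_pos hSU (t := A + 1) (by omega) hA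
      refine ⟨min ε' (ex q α (A + 1)), lt_min h1 hp, le_trans (min_le_left _ _) h2, ?_⟩
      intro t t1 t2 t3
      rcases Nat.lt_or_ge t (A + 1) with h | h
      · exact le_trans (min_le_left _ _) (h3 t t1 (by omega) t3)
      · have : t = A + 1 := by omega
        rw [this]; exact min_le_right _ _
    · refine ⟨ε', h1, h2, fun t t1 t2 t3 => ?_⟩
      rcases Nat.lt_or_ge t (A + 1) with h | h
      · exact h3 t t1 (by omega) t3
      · have : t = A + 1 := by omega
        rw [this] at t3; exact absurd t3 hA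

lemma exists_rec {q : ℝ} {α : ℕ → Fin 2} (hSU : SU q α) (hP : PropP q α) {ε : ℝ}
    (hε : 0 < ε) (A : ℕ) : ∃ a, A ≤ a ∧ IsRec q α a ∧ ex q α (a + 1) < ε := by
  obtain ⟨ε', h1, h2, h3⟩ := finite_min hSU hε A
  classical
  have hex := hP ε' h1
  set t := Nat.find hex with ht
  obtain ⟨t1, t2, t3⟩ := Nat.find_spec hex
  rw [← ht] at t1 t2 t3
  have hta : A < t := by
    by_contra h
    push Not at h
    have := h3 t t1 h t2
    linarith
  have htt : t - 1 + 1 = t := by omega
  refine ⟨t - 1, by omega, ⟨t2, ?_⟩, ?_⟩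
  · intro s s1 s2 s3
    rw [htt]
    have hmin := Nat.find_min hex (m := s) (by omega)
    have : ε' ≤ ex q α s := by
      by_contra h
      push Not at h
      exact hmin ⟨s1, s3, h⟩
    linarith
  · rw [htt]; linarith

/-- Requirements for the next block index. -/
def NextOK (q : ℝ) (α : ℕ → Fin 2) (n : ℕ) (ε : ℝ) (a : ℕ) : Prop :=
  IsRec q α a ∧ 1 / (q ^ a * (q - 1)) ≤ min (2 - q) ε ∧ ex q α (a + 1) * q ^ n ≤ (2 - q) / 8

lemma exists_next {q : ℝ} {α : ℕ → Fin 2} (hq : 1 < q) (hq2 : q < 2) (hSU : SU q α)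
    (hP : PropP q α) (n : ℕ) {ε : ℝ} (hε : 0 < ε) (A : ℕ) :
    ∃ a, A ≤ a ∧ NextOK q α n ε a := by
  have h0 : 0 < q := by linarith
  have hq1 : 0 < q - 1 := by linarith
  have hmin : 0 < min (2 - q) ε := lt_min (by linarith) hε
  obtain ⟨B, hB⟩ := pow_unbounded_of_one_lt (1 / (min (2 - q) ε * (q - 1))) hq
  obtain ⟨a, a1, a2, a3⟩ := exists_rec hSU hP (ε := (2 - q) / 8 / q ^ n)
    (by apply div_pos (by linarith) (by positivity)) (max A B)
  refine ⟨a, le_trans (le_max_left _ _) a1, a2, ?_, ?_⟩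
  · have hqa : q ^ B ≤ q ^ a := pow_le_pow_right₀ hq.le (le_trans (le_max_right _ _) a1)
    have h1 : 1 / (min (2 - q) ε * (q - 1)) < q ^ a := lt_of_lt_of_le hB hqa
    rw [div_lt_iff₀ (by positivity)] at h1
    rw [div_le_iff₀ (by positivity)]
    nlinarith
  · rw [lt_div_iff₀ (by positivity)] at a3
    exact a3.le

/-- Choice of the next block index, depending on a bit. -/
noncomputable def nxt (q : ℝ) (α : ℕ → Fin 2) (n : ℕ) (ε : ℝ) (b : Bool) : ℕ :=
  open Classical in
  if h : ∃ a, NextOK q α n ε a then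
    (if b then (if h' : ∃ a', Classical.choose h < a' ∧ NextOK q α n ε a' then
        Classical.choose h' else 0)
      else Classical.choose h)
  else 0

lemma nxt_spec {q : ℝ} {α : ℕ → Fin 2} (hq : 1 < q) (hq2 : q < 2) (hSU : SU q α)
    (hP : PropP q α) (n : ℕ) {ε : ℝ} (hε : 0 < ε) :
    (∀ b, NextOK q α n ε (nxt q α n ε b)) ∧ nxt q α n ε false < nxt q α n ε true := by
  classical
  have h : ∃ a, NextOK q α n ε a := by
    obtain ⟨a, _, h⟩ := exists_next hq hq2 hSU hP n hε 0
    exact ⟨a, h⟩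
  have h' : ∃ a', Classical.choose h < a' ∧ NextOK q α n ε a' := by
    obtain ⟨a, h1, h2⟩ := exists_next hq hq2 hSU hP n hε (Classical.choose h + 1)
    exact ⟨a, by omega, h2⟩
  have e1 : nxt q α n ε false = Classical.choose h := by
    unfold nxt; simp [h]
  have e2 : nxt q α n ε true = Classical.choose h' := by
    unfold nxt; simp only [dif_pos h, if_true, dif_pos h']
  constructor
  · intro b
    cases b
    · rw [e1]; exact Classical.choose_spec h
    · rw [e2]; exact (Classical.choose_spec h').2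
  · rw [e1, e2]; exact (Classical.choose_spec h').1

/-- State recursion. -/
noncomputable def st (q : ℝ) (α : ℕ → Fin 2) (b : ℕ → Bool) : ℕ → ℕ × ℝ
  | 0 => (1, 1)
  | j + 1 => ((st q α b j).1 + (nxt q α (st q α b j).1 (st q α b j).2 (b j) + 1),
      ex q α (nxt q α (st q α b j).1 (st q α b j).2 (b j) + 1))

/-- The block lengths coded by a bit sequence. -/
noncomputable def mb (q : ℝ) (α : ℕ → Fin 2) (b : ℕ → Bool) (j : ℕ) : ℕ :=
  nxt q α (st q α b j).1 (st q α b j).2 (b j)

section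

variable {q : ℝ} {α : ℕ → Fin 2}

lemma st_pos (hq : 1 < q) (hq2 : q < 2) (hSU : SU q α) (hP : PropP q α) (b : ℕ → Bool)
    (j : ℕ) : 0 < (st q α b j).2 := by
  induction j with
  | zero => simp [st]
  | succ j ih =>
    rw [st]
    have := (nxt_spec hq hq2 hSU hP (st q α b j).1 ih).1 (b j)
    exact ex_pos hSU (by omega) this.1.1

lemma mb_ok (hq : 1 < q) (hq2 : q < 2) (hSU : SU q α) (hP : PropP q α) (b : ℕ → Bool)
    (j : ℕ) : NextOK q α (st q α b j).1 (st q α b j).2 (mb q α b j) :=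
  (nxt_spec hq hq2 hSU hP (st q α b j).1 (st_pos hq hq2 hSU hP b j)).1 (b j)

lemma st_fst (b : ℕ → Bool) (j : ℕ) :
    (st q α b j).1 = 1 + ∑ i ∈ Finset.range j, (mb q α b i + 1) := by
  induction j with
  | zero => simp [st]
  | succ j ih =>
    rw [Finset.sum_range_succ, ← add_assoc, ← ih, st]
    rfl

lemma mb_good (hq : 1 < q) (hq2 : q < 2) (hSU : SU q α) (hP : PropP q α) (b : ℕ → Bool) :
    GoodM q α (mb q α b) := by
  intro j
  refine ⟨(mb_ok hq hq2 hSU hP b j).1, ?_⟩
  have := (mb_ok hq hq2 hSU hP b (j + 1)).2.1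
  rw [st] at this
  exact this

lemma mb_small (hq : 1 < q) (hq2 : q < 2) (hSU : SU q α) (hP : PropP q α) (b : ℕ → Bool) :
    SmallM q α (mb q α b) 1 := by
  intro j
  have := (mb_ok hq hq2 hSU hP b j).2.2
  rw [st_fst] at this
  exact this

lemma dseq_inj {m m' : ℕ → ℕ} (h1 : ∀ j, α (m j) = 1) (h2 : ∀ j, α (m' j) = 1)
    (h : dseq α m = dseq α m') : m = m' := by
  have key : ∀ j, ∀ m m' : ℕ → ℕ, (∀ j, α (m j) = 1) → (∀ j, α (m' j) = 1) →
      dseq α m = dseq α m' → m j = m' j := by
    have first : ∀ m m' : ℕ → ℕ, (∀ j, α (m j) = 1) → (∀ j, α (m' j) = 1) →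
      dseq α m = dseq α m' → m 0 = m' 0 := by
      intro m m' h1 h2 h
      rcases lt_trichotomy (m 0) (m' 0) with hlt | heq | hlt
      · exfalso
        have e1 : dseq α m (m 0) = 1 := dseq_eq
        have e2 : dseq α m' (m 0) = 1 - α (m 0) := dseq_lt hlt
        rw [h, e2, h1 0] at e1
        simp at e1
      · exact heq
      · exfalso
        have e1 : dseq α m' (m' 0) = 1 := dseq_eq
        have e2 : dseq α m (m' 0) = 1 - α (m' 0) := dseq_lt hlt
        rw [← h, e2, h2 0] at e1
        simp at e1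
    intro j
    induction j with
    | zero => exact first
    | succ j ih =>
      intro m m' h1 h2 h
      have h0 := first m m' h1 h2 h
      refine ih (fun j => m (j + 1)) (fun j => m' (j + 1)) (fun j => h1 (j + 1))
        (fun j => h2 (j + 1)) ?_
      rw [← sh_dseq, ← sh_dseq, h0, h]
  funext j
  exact key j m m' h1 h2 h

lemma mb_inj (hq : 1 < q) (hq2 : q < 2) (hSU : SU q α) (hP : PropP q α) {b b' : ℕ → Bool}
    (h : mb q α b = mb q α b') : b = b' := by
  have key : ∀ j, st q α b j = st q α b' j ∧ b j = b' j := by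
    intro j
    have hb : ∀ j, st q α b j = st q α b' j → b j = b' j := by
      intro j hs
      have hm := congrFun h j
      unfold mb at hm
      rw [hs] at hm
      have hlt := (nxt_spec hq hq2 hSU hP (st q α b' j).1 (st_pos hq hq2 hSU hP b' j)).2
      cases h1 : b j <;> cases h2 : b' j <;> rw [h1, h2] at hm
      · exfalso; omega
      · exfalso; omega
    induction j with
    | zero => exact ⟨rfl, hb 0 rfl⟩
    | succ j ih =>
      have hs : st q α b (j + 1) = st q α b' (j + 1) := by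
        rw [st, st, ih.1, ih.2]
      exact ⟨hs, hb _ hs⟩
  funext j
  exact (key j).2

/-- The point coded by a bit sequence. -/
noncomputable def pt (q : ℝ) (α : ℕ → Fin 2) (b : ℕ → Bool) : ℝ :=
  V q (cons 1 (dseq α (mb q α b)))

lemma sh_cons (c : Fin 2) (d : ℕ → Fin 2) : sh 1 (cons c d) = d := by
  funext i
  simp only [sh_apply]
  rw [add_comm]
  rfl

lemma UE_pt (hq : 1 < q) (hq2 : q < 2) (hα : V q α = 1) (hSU : SU q α) {m : ℕ → ℕ}
    (hm : GoodM q α m) : UE q (V q (cons 1 (dseq α m))) := by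
  have h1 := SU_UE hq hq2.le (SU_dseq' hq hq2 hα hSU hm)
  have h2 : kap q < V q (dseq α m) := by
    rw [cW_eq hq, kap_eq hq]
    have := cW_lt_one hq hα hSU m (hm 0).1.1
    linarith
  have h3 := UE_one_step hq h1 h2
  have e := V_step hq (cons 1 (dseq α m))
  rw [sh_cons] at e
  simp only [cons, Fin.val_one, Nat.cast_one] at e
  rw [e]
  exact h3

lemma pt_lower (hq : 1 < q) (hq2 : q ≤ 1.84) (hα : V q α = 1) (hSU : SU q α) {m : ℕ → ℕ}
    (hm : GoodM q α m) (hs : SmallM q α m 1) {r : ℝ} (hr : 1 < r) (hrq : r < q) :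
    ¬ UE r (V q (cons 1 (dseq α m))) := by
  intro hU
  norm_num at hq2
  have hq2' : q < 2 := by linarith
  have h0 : 0 < r := by linarith
  have hq0 : 0 < q := by linarith
  set x := V q (cons 1 (dseq α m)) with hx
  set d := cons 1 (dseq α m) with hd
  have hUq : UE q x := UE_pt hq hq2' hα hSU hm
  have hSUd : SU q d := UE_SU hq hq2'.le hUq
  obtain ⟨e, he, _⟩ := id hU
  have hVe : V r e = x := V_of_isExp he
  have hSUe : SU r e := UE_SU hr (by linarith) (by rw [hVe]; exact hU)
  -- x > 1/(q(q-1))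
  have hxlow : 1 / (q * (q - 1)) < x := by
    have e1 := V_step hq d
    rw [hd, sh_cons] at e1
    simp only [cons, Fin.val_one, Nat.cast_one] at e1
    rw [hx, hd, e1]
    have h2 : kap q < V q (dseq α m) := by
      rw [cW_eq hq, kap_eq hq]
      have := cW_lt_one hq hα hSU m (hm 0).1.1
      linarith
    have e2 : 1 / (q * (q - 1)) = (1 + kap q) / q := by
      rw [kap_eq hq]
      have : q - 1 ≠ 0 := by linarith
      field_simp
      ring
    rw [e2]
    gcongr
  have hq1 : 0 < q - 1 := by linarith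
  have hxpos : 0 < x := by
    have : 0 < 1 / (q * (q - 1)) := by positivity
    linarith
  have hxup : x < 1 / (r - 1) := by
    have h1 := V_le hq d
    have h2 : 1 / (q - 1) < 1 / (r - 1) := by
      have : 0 < r - 1 := by linarith
      gcongr
    linarith
  have hrg : 0 < r ^ 2 - r - 1 := by
    by_contra h
    push Not at h
    exact (two_small_base hr h hxpos hxup).not_UE hU
  have hr16 : 1.6 < r := by norm_num; nlinarith
  norm_num at hr16
  obtain ⟨N, n1, n2, n3, n4⟩ := LB_first hr hrq hq2' hSUd hSUe (by rw [hVe]) ⟨0, rfl⟩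
  rcases Nat.eq_zero_or_pos N with hN | hN
  · -- N = 0
    subst hN
    have h1 := (hSUe 0).1 n3
    have h2 := V_tail hr e
    rw [n3, hVe] at h2
    simp only [Fin.val_zero, Nat.cast_zero, sub_zero] at h2
    simp only [zero_add] at h1
    rw [h2] at h1
    have h3 : x * (q * (q - 1)) > 1 := by
      rw [div_lt_iff₀ (by positivity)] at hxlow
      exact hxlow
    have h4 : q * (q - 1) < r := by nlinarith
    nlinarith
  · refine LB_contra (K := N - 1) (by linarith) hrq hq2' hα hSU hSUd hSUe n1 n2 n3 n4 m 1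
      (by omega) ?_ le_rfl ?_ (fun j => (hm j).1.1) hs
    · rw [hd]; exact sh_cons _ _
    · rfl

lemma pt_mem_level (hq : 1 < q) (hq2 : q ≤ 1.84) (hα : V q α = 1) (hSU : SU q α) {m : ℕ → ℕ}
    (hm : GoodM q α m) (hs : SmallM q α m 1) :
    0 < V q (cons 1 (dseq α m)) ∧ sInf (Ux (V q (cons 1 (dseq α m)))) = q := by
  have hq2' : q < 2 := by norm_num at hq2; linarith
  constructor
  · have e1 := V_step hq (cons 1 (dseq α m))
    rw [sh_cons] at e1
    simp only [cons, Fin.val_one, Nat.cast_one] at e1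
    rw [e1]
    have := V_nonneg hq (dseq α m)
    positivity
  · apply le_antisymm
    · exact csInf_le (Ux_bdd _) ⟨hq, hq2'.le, UE_pt hq hq2' hα hSU hm⟩
    · apply le_csInf (show (Ux _).Nonempty from ⟨q, hq, hq2'.le, UE_pt hq hq2' hα hSU hm⟩)
      rintro r ⟨r1, r2, r3⟩
      by_contra hlt
      push Not at hlt
      exact pt_lower hq hq2 hα hSU hm hs r1 hlt r3

/-- The level set of a univoque base with property `P` is uncountable. -/
lemma level_uncountable (hq : 1 < q) (hq2 : q ≤ 1.84) (hα : V q α = 1) (hSU : SU q α)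
    (hP : PropP q α) : ¬ {x : ℝ | 0 < x ∧ sInf (Ux x) = q}.Countable := by
  intro hc
  have hq2' : q < 2 := by norm_num at hq2; linarith
  let f : (ℕ → Bool) → {x : ℝ | 0 < x ∧ sInf (Ux x) = q} := fun b =>
    ⟨V q (cons 1 (dseq α (mb q α b))), pt_mem_level hq hq2 hα hSU
      (mb_good hq hq2' hSU hP b) (mb_small hq hq2' hSU hP b)⟩
  have hf : Function.Injective f := by
    intro b b' h
    have h1 : V q (cons 1 (dseq α (mb q α b))) = V q (cons 1 (dseq α (mb q α b'))) :=
      congrArg Subtype.val h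
    have hU := UE_pt hq hq2' hα hSU (mb_good hq hq2' hSU hP b)
    obtain ⟨e, _, hu⟩ := hU
    have e1 := hu _ (isExp_V hq (cons 1 (dseq α (mb q α b))))
    have e2 := hu _ (by rw [h1]; exact isExp_V hq (cons 1 (dseq α (mb q α b'))))
    have h2 : cons 1 (dseq α (mb q α b)) = cons 1 (dseq α (mb q α b')) := e1.trans e2.symm
    have h3 : dseq α (mb q α b) = dseq α (mb q α b') := by
      rw [← sh_cons 1 (dseq α (mb q α b)), h2, sh_cons]
    exact mb_inj hq hq2' hSU hP (dseq_inj (fun j => (mb_good hq hq2' hSU hP b j).1.1)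
      (fun j => (mb_good hq hq2' hSU hP b' j).1.1) h3)
  have : Countable {x : ℝ | 0 < x ∧ sInf (Ux x) = q} := hc.to_subtype
  have h2 : Countable (ℕ → Bool) := hf.countable
  exact not_countable_bool h2

end

end Pool.Agent.V11309.Uni
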