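import Mathlib
import Pool.Agent.V11309.Uni.TheoremA

/-! A univoque base without property `P` is a limit from the left of univoque bases. -/

namespace Pool.Agent.V11309.Uni

open Filter Topology

lemma V_zero {q : ℝ} (hq : 1 < q) {d : ℕ → Fin 2} (h : ∀ i, d i = 0) : V q d = 0 := by
  unfold V
  simp [h]

lemma alpha_zero {q : ℝ} (hq : 1 < q) {α : ℕ → Fin 2} (hα : V q α = 1) (hSU : SU q α) :
    α 0 = 1 := by
  rcases fin2_cases (α 0) with h | h
  · exfalso
    have h1 := (hSU 0).1 h
    have h2 := V_tail hq α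
    rw [h, hα] at h2
    simp only [Fin.val_zero, Nat.cast_zero, sub_zero, mul_one] at h2
    simp only [zero_add] at h1
    linarith
  · exact h

lemma ones_inf {q : ℝ} {α : ℕ → Fin 2} (hq : 1 < q) (hq2 : q < 2) (hα : V q α = 1)
    (hSU : SU q α) (A : ℕ) : ∃ a, A ≤ a ∧ α a = 1 := by
  by_contra hcon
  push Not at hcon
  have hex : ∃ A, ∀ a, A ≤ a → α a ≠ 1 := ⟨A, hcon⟩
  classical
  have hB := Nat.find_spec hex
  set B := Nat.find hex with hBdef
  have h0 := alpha_zero hq hα hSU
  rcases Nat.eq_zero_or_pos B with h | h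
  · exact hB 0 (by omega) h0
  · have hmin := Nat.find_min hex (m := B - 1) (by omega)
    push Not at hmin
    obtain ⟨a, a1, a2⟩ := hmin
    have haB : a = B - 1 := by
      by_contra hne
      exact hB a (by omega) a2
    have hz : V q (sh (a + 1) α) = 0 := by
      apply V_zero hq
      intro i
      simp only [sh_apply]
      rcases fin2_cases (α (a + 1 + i)) with h1 | h1
      · exact h1
      · exact absurd h1 (hB _ (by omega))
    have := (hSU a).2 a2
    have hk := kap_pos hq hq2
    linarith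

lemma sh_per (α : ℕ → Fin 2) (p n : ℕ) : sh n (per α p) = sh (n % (p + 1)) (per α p) := by
  funext i
  simp only [sh_apply, per]
  rw [Nat.mod_add_mod]

lemma zero_gap {q : ℝ} {α : ℕ → Fin 2} (hSU : SU q α) (p : ℕ) :
    ∃ η : ℝ, 0 < η ∧ ∀ n < p, α n = 0 → V q (sh (n + 1) α) + η ≤ 1 := by
  induction p with
  | zero => exact ⟨1, one_pos, fun n hn => by omega⟩
  | succ p ih =>
    obtain ⟨η, h1, h2⟩ := ih
    by_cases hp : α p = 0
    · have h3 := (hSU p).1 hp
      refine ⟨min η (1 - V q (sh (p + 1) α)), lt_min h1 (by linarith), ?_⟩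
      intro n hn hd
      rcases Nat.lt_or_ge n p with h | h
      · have := min_le_left η (1 - V q (sh (p + 1) α))
        have := h2 n h hd
        linarith
      · have : n = p := by omega
        rw [this]
        have := min_le_right η (1 - V q (sh (p + 1) α))
        linarith
    · refine ⟨η, h1, fun n hn hd => ?_⟩
      rcases Nat.lt_or_ge n p with h | h
      · exact h2 n h hd
      · have : n = p := by omega
        rw [this] at hd; exact absurd hd hp

section

variable {q : ℝ} {α : ℕ → Fin 2}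

/-- Interior digits one of `app`. -/
lemma app_one (hq : 1 < q) (hα : V q α = 1) {a : ℕ} (haα : α a = 1) {τ : ℕ → Fin 2} {μ : ℝ}
    {t : ℕ} (hta : t ≤ a)
    (h : V q (sh (a + 1) α) + 1 - V q τ + μ * q ^ (a + 1 - t) ≤ q ^ (a + 1 - t) * ex q α t) :
    kap q + μ ≤ V q (sh t (app α a τ)) := by
  have h0 : 0 < q := by linarith
  have h1 := app_value hq hα haα τ
  have h2 := app_value_sh hq hα hta τ
  have h3 : q ^ (a + 1) = q ^ (a + 1 - t) * q ^ t := by
    rw [← pow_add]; congr 1; omega
  rw [h3, mul_assoc, h2] at h1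
  rw [← h1] at h
  have hp : 0 < q ^ (a + 1 - t) := by positivity
  unfold ex at h
  have h4 : q ^ (a + 1 - t) * (V q (sh t α) - V q (sh t (app α a τ)) + μ) ≤
      q ^ (a + 1 - t) * (V q (sh t α) - kap q) := by linarith
  have h5 := le_of_mul_le_mul_left h4 hp
  linarith

/-- Interior digits zero of `app`. -/
lemma app_zero_le (hq : 1 < q) (hα : V q α = 1) {a : ℕ} {τ : ℕ → Fin 2} {t : ℕ}
    (hta : t ≤ a) (hV : V q (app α a τ) ≤ 1) : V q (sh t (app α a τ)) ≤ V q (sh t α) := by
  have h0 : 0 < q := by linarith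
  have h2 := app_value_sh hq hα hta τ
  have h3 : 0 ≤ q ^ t * (1 - V q (app α a τ)) := mul_nonneg (by positivity) (by linarith)
  linarith

/-- `per` satisfies the strict condition in nearby smaller bases. -/
lemma SU_per (hq : 1 < q) (hα : V q α = 1) {p : ℕ} (hpα : α p = 1) {μ η : ℝ}
    (hint : ∀ t, 1 ≤ t → t ≤ p → α (t - 1) = 1 →
      V q (sh (p + 1) α) + 1 - V q (per α p) + μ * q ^ (p + 1 - t) ≤ q ^ (p + 1 - t) * ex q α t)
    (hgap : ∀ n < p, α n = 0 → V q (sh (n + 1) α) + η ≤ 1) (hv : V q (per α p) ≤ 1)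
    {r : ℝ} (hr : 1 < r) (hrq : r ≤ q) (hD1 : 1 / (r - 1) - 1 / (q - 1) < μ)
    (hD2 : 1 / (r - 1) - 1 / (q - 1) < η) (hD3 : 1 / (r - 1) - 1 / (q - 1) < 1 - V q (per α p)) :
    SU r (per α p) := by
  intro n
  have e1 : per α p n = per α p (n % (p + 1)) := by
    have := congrFun (sh_per α p n) 0
    simpa using this
  have e2 : sh (n + 1) (per α p) = sh (n % (p + 1) + 1) (per α p) := by
    have h1 : sh (n + 1) (per α p) = sh 1 (sh n (per α p)) := by rw [sh_sh]
    rw [h1, sh_per, sh_sh]
  rw [e1, e2]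
  set m := n % (p + 1) with hm
  have hmp : m ≤ p := by
    have : n % (p + 1) < p + 1 := Nat.mod_lt n (Nat.succ_pos p)
    omega
  rcases Nat.lt_or_ge m p with h | h
  · have e3 : per α p m = α m := by rw [← per_app, app_lt h]
    have hlow := V_anti hr hrq (sh (m + 1) (per α p))
    have hup := V_diff hr hrq (sh (m + 1) (per α p))
    rw [e3]
    constructor
    · intro hd
      have h1 := app_zero_le hq hα (a := p) (τ := per α p) (t := m + 1) (by omega)
        (by rw [per_app]; exact hv)
      rw [per_app] at h1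
      have h2 := hgap m h hd
      linarith
    · intro hd
      have h1 := app_one hq hα hpα (τ := per α p) (t := m + 1) (by omega)
        (hint (m + 1) (by omega) (by omega) (by simpa using hd))
      rw [per_app] at h1
      rw [kap_eq hq] at h1
      rw [kap_eq hr]
      linarith
  · have hmeq : m = p := by omega
    have e3 : per α p m = 0 := by rw [hmeq, ← per_app, app_eq]
    have e4 : sh (m + 1) (per α p) = per α p := by
      rw [hmeq]
      conv_lhs => rw [← per_app]
      rw [sh_app]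
    rw [e3, e4]
    refine ⟨fun _ => ?_, fun h => absurd h (by decide)⟩
    have := V_diff hr hrq (per α p)
    linarith

lemma D_anti {r s q : ℝ} (hr : 1 < r) (hrs : r ≤ s) :
    1 / (s - 1) - 1 / (q - 1) ≤ 1 / (r - 1) - 1 / (q - 1) := by
  have : 0 < r - 1 := by linarith
  have : 1 / (s - 1) ≤ 1 / (r - 1) := by gcongr
  linarith

lemma exists_near (hq : 1 < q) {η δ : ℝ} (hη : 0 < η) (hδ : 0 < δ) :
    ∃ r, 1 < r ∧ r < q ∧ q - δ < r ∧ 1 / (r - 1) - 1 / (q - 1) < η := by
  have hc : ContinuousAt (fun r : ℝ => 1 / (r - 1) - 1 / (q - 1)) q := by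
    apply ContinuousAt.sub _ continuousAt_const
    apply ContinuousAt.div continuousAt_const (continuousAt_id.sub continuousAt_const)
    simp only [Pi.sub_apply, id]; linarith
  have h1 : ∀ᶠ r in 𝓝 q, 1 / (r - 1) - 1 / (q - 1) < η := by
    apply hc.eventually_lt continuousAt_const
    simpa using hη
  rw [Metric.eventually_nhds_iff] at h1
  obtain ⟨ε, hε, h1⟩ := h1
  set m := min (min (ε / 2) (δ / 2)) ((q - 1) / 2) with hm
  have m1 : m ≤ ε / 2 := le_trans (min_le_left _ _) (min_le_left _ _)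
  have m2 : m ≤ δ / 2 := le_trans (min_le_left _ _) (min_le_right _ _)
  have m3 : m ≤ (q - 1) / 2 := min_le_right _ _
  have m0 : 0 < m := lt_min (lt_min (by linarith) (by linarith)) (by linarith)
  refine ⟨q - m, by linarith, by linarith, by linarith, ?_⟩
  apply h1
  rw [Real.dist_eq, show q - m - q = -m by ring, abs_neg, abs_of_pos m0]
  linarith

/-- A univoque base without property `P` is a limit from the left of univoque bases. -/
lemma left_limit (hq : 1 < q) (hq2 : q < 2) (hα : V q α = 1) (hSU : SU q α)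
    (hP : ¬ PropP q α) {δ : ℝ} (hδ : 0 < δ) : ∃ r, 1 < r ∧ q - δ < r ∧ r < q ∧ UE r 1 := by
  have h0 : 0 < q := by linarith
  have hq1 : 0 < q - 1 := by linarith
  have hk := kap_pos hq hq2
  unfold PropP at hP
  push Not at hP
  obtain ⟨ε₀, hε₀, hge⟩ := hP
  have hones := ones_inf hq hq2 hα hSU
  obtain ⟨l, hl, ⟨T, hT⟩, hgood⟩ := exists_level hq hSU hones hε₀ hge hq2
  obtain ⟨A₁, μ, hμ, hint⟩ := interiorA hq hq2 hα hSU hε₀ hge hT hl
  -- choose p
  obtain ⟨B, hB⟩ := pow_unbounded_of_one_lt (2 / (ε₀ * (q - 1)) + 1) hq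
  obtain ⟨p, hp1, hp2, hp3⟩ := hgood (max A₁ B)
  have hpA : A₁ ≤ p := le_trans (le_max_left _ _) hp1
  have hpB : B ≤ p := le_trans (le_max_right _ _) hp1
  set v := V q (per α p) with hv
  have hvid : q ^ (p + 1) * (1 - v) = V q (sh (p + 1) α) + 1 - v := by
    have := app_value hq hα hp2 (per α p)
    rwa [per_app, ← hv] at this
  have hzp : kap q < V q (sh (p + 1) α) := (hSU p).2 hp2
  have hzp2 := V_le hq (sh (p + 1) α)
  have hqB : 2 / (ε₀ * (q - 1)) + 1 < q ^ (p + 1) :=
    lt_of_lt_of_le hB (pow_le_pow_right₀ hq.le (by omega))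
  have hpos2 : 0 < 2 / (ε₀ * (q - 1)) := by positivity
  have hv1 : 0 < 1 - v := by
    by_contra hcon
    push Not at hcon
    have : (q ^ (p + 1) - 1) * (1 - v) = V q (sh (p + 1) α) := by linarith
    have : (q ^ (p + 1) - 1) * (1 - v) ≤ 0 :=
      mul_nonpos_of_nonneg_of_nonpos (by linarith) hcon
    linarith
  have hv2 : 1 - v ≤ ε₀ / 2 := by
    have h1 : (q ^ (p + 1) - 1) * (1 - v) = V q (sh (p + 1) α) := by linarith
    have h2 : 2 / (ε₀ * (q - 1)) * (1 - v) ≤ (q ^ (p + 1) - 1) * (1 - v) :=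
      mul_le_mul_of_nonneg_right (by linarith) hv1.le
    have h3 : 2 / (ε₀ * (q - 1)) * (1 - v) ≤ 1 / (q - 1) := by linarith
    rw [div_mul_eq_mul_div, div_le_div_iff₀ (by positivity) hq1] at h3
    have h4 : (q - 1) * (2 * (1 - v)) ≤ (q - 1) * ε₀ := by linarith
    have h5 := le_of_mul_le_mul_left h4 hq1
    linarith
  obtain ⟨η, hη, hgap⟩ := zero_gap hSU p
  -- the base r₁
  obtain ⟨r₁, r1, r2, r3, r4⟩ := exists_near hq
    (show 0 < min (min μ η) (1 - v) from lt_min (lt_min hμ hη) hv1) hδ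
  have hDm : 1 / (r₁ - 1) - 1 / (q - 1) < μ :=
    lt_of_lt_of_le r4 (le_trans (min_le_left _ _) (min_le_left _ _))
  have hDe : 1 / (r₁ - 1) - 1 / (q - 1) < η :=
    lt_of_lt_of_le r4 (le_trans (min_le_left _ _) (min_le_right _ _))
  have hDv : 1 / (r₁ - 1) - 1 / (q - 1) < 1 - v := lt_of_lt_of_le r4 (min_le_right _ _)
  have hrr : 0 < 1 / r₁ - 1 / q := by
    have : 1 / q < 1 / r₁ := by
      have : 0 < r₁ := by linarith
      gcongr
    linarith
  -- choose a
  obtain ⟨C, hC⟩ := pow_unbounded_of_one_lt ((1 / (q - 1) + 1) / (1 / r₁ - 1 / q)) hq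
  rw [div_lt_iff₀ hrr] at hC
  obtain ⟨a, ha1, ha2, ha3⟩ := hgood (max A₁ C + 1)
  have haA : A₁ ≤ a := by have := le_max_left A₁ C; omega
  have haC : C ≤ a := by have := le_max_right A₁ C; omega
  have ha0 : 0 < a := by omega
  set β := app α a (per α p) with hβ
  have hβid : q ^ (a + 1) * (1 - V q β) = V q (sh (a + 1) α) + 1 - v :=
    app_value hq hα ha2 (per α p)
  have hza : kap q < V q (sh (a + 1) α) := (hSU a).2 ha2
  have hza2 := V_le hq (sh (a + 1) α)
  have hqa : 0 < q ^ (a + 1) := by positivity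
  have hβ1 : V q β < 1 := by
    by_contra hcon
    push Not at hcon
    have : q ^ (a + 1) * (1 - V q β) ≤ 0 :=
      mul_nonpos_of_nonneg_of_nonpos hqa.le (by linarith)
    linarith
  have hvnn : 0 ≤ v := V_nonneg hq _
  have hβ2 : 1 - V q β < 1 / r₁ - 1 / q := by
    have h1 : q ^ C ≤ q ^ (a + 1) := pow_le_pow_right₀ hq.le (by omega)
    have h2 : 1 / (q - 1) + 1 < q ^ (a + 1) * (1 / r₁ - 1 / q) :=
      lt_of_lt_of_le hC (mul_le_mul_of_nonneg_right h1 hrr.le)
    have h3 : q ^ (a + 1) * (1 - V q β) < q ^ (a + 1) * (1 / r₁ - 1 / q) := by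
      rw [hβid]; linarith
    exact lt_of_mul_lt_mul_left h3 hqa.le
  have hβ0 : β 0 = 1 := by
    rw [hβ, app_lt ha0]; exact alpha_zero hq hα hSU
  have hβr : 1 < V r₁ β := by
    have := V_diff_ge r1 r2.le β hβ0
    linarith
  -- intermediate value
  have hcont : ContinuousOn (fun r => V r β) (Set.Icc r₁ q) :=
    (V_cont β).mono (fun x hx => lt_of_lt_of_le r1 hx.1)
  have hivt := intermediate_value_Icc' r2.le hcont
  obtain ⟨r, ⟨hr1, hr2⟩, hr3⟩ := hivt ⟨hβ1.le, hβr.le⟩
  simp only at hr3
  have hr1' : 1 < r := by linarith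
  have hrq : r < q := by
    rcases lt_or_eq_of_le hr2 with h | h
    · exact h
    · rw [h] at hr3; linarith
  refine ⟨r, hr1', by linarith, hrq, ?_⟩
  have hDr := D_anti (q := q) r1 hr1
  have hSUP : SU r (per α p) := by
    refine SU_per hq hα hp2 (μ := μ) (η := η) ?_ hgap (by linarith) hr1' hrq.le
      (by linarith) (by linarith) (by linarith)
    intro t t1 t2 t3
    exact hint p hpA hp2 hp3 v hv2 t t1 t2 t3
  have hvr : V r (per α p) < 1 := by
    have := V_diff hr1' hrq.le (per α p)
    linarith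
  have hSUβ : SU r β := by
    intro n
    rcases lt_trichotomy n a with h | h | h
    · have e3 : β n = α n := app_lt h
      rw [e3]
      constructor
      · intro hd
        have s1 := V_split hr1' β (n + 1)
        have s2 := V_split hq α (n + 1)
        rw [hr3] at s1
        rw [hα] at s2
        have s3 := PS_anti hr1' hrq.le β (n + 1)
        have s4 : PS q β (n + 1) = PS q α (n + 1) :=
          PS_congr (fun i hi => app_lt (by omega))
        rw [s4] at s3
        have s5 := (hSU n).1 hd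
        have s6 := V_nonneg hq (sh (n + 1) α)
        have hrn : 0 < r ^ (n + 1) := by positivity
        have hqn : 0 < q ^ (n + 1) := by positivity
        have hrqn : r ^ (n + 1) ≤ q ^ (n + 1) := pow_le_pow_left₀ (by linarith) hrq.le _
        have s7 : V r (sh (n + 1) β) / r ^ (n + 1) ≤ V q (sh (n + 1) α) / q ^ (n + 1) := by
          linarith
        rw [div_le_div_iff₀ hrn hqn] at s7
        have s8 : V q (sh (n + 1) α) * r ^ (n + 1) ≤ V q (sh (n + 1) α) * q ^ (n + 1) :=
          mul_le_mul_of_nonneg_left hrqn s6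
        have s9 : V r (sh (n + 1) β) * q ^ (n + 1) ≤ V q (sh (n + 1) α) * q ^ (n + 1) := by
          linarith
        have s10 := le_of_mul_le_mul_right s9 hqn
        linarith
      · intro hd
        have h1 := app_one hq hα ha2 (τ := per α p) (μ := μ) (t := n + 1) (by omega)
          (hint a haA ha2 ha3 v hv2 (n + 1) (by omega) (by omega) (by simpa using hd))
        have h2 := V_anti hr1' hrq.le (sh (n + 1) β)
        rw [← hβ] at h1
        rw [kap_eq hq] at h1
        rw [kap_eq hr1']
        linarith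
    · rw [h]
      have e3 : β a = 0 := app_eq
      have e4 : sh (a + 1) β = per α p := sh_app _ _ _
      rw [e3, e4]
      exact ⟨fun _ => hvr, fun h => absurd h (by decide)⟩
    · have e4 : sh (a + 1) β = per α p := sh_app _ _ _
      obtain ⟨k, hk⟩ : ∃ k, n = a + 1 + k := ⟨n - a - 1, by omega⟩
      have e5 : β n = per α p k := by
        rw [← e4, hk]; rfl
      have e6 : sh (n + 1) β = sh (k + 1) (per α p) := by
        rw [← e4, sh_sh]; congr 1; omega
      rw [e5, e6]
      exact hSUP k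
  have := SU_UE hr1' (by linarith) hSUβ
  rwa [hr3] at this

end

end Pool.Agent.V11309.Uni
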