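import Mathlib
import Pool.Agent.V11309.Uni.TheoremA2

/-! Limits of digit sequences, closedness from the right of the univoque set, two-sided
accumulation points of uncountable sets. -/

namespace Pool.Agent.V11309.Uni

open Filter Topology

lemma exists_limit_seq (e : ℕ → (ℕ → Fin 2)) :
    ∃ a : ℕ → Fin 2, ∃ φ : ℕ → ℕ, StrictMono φ ∧ ∀ i, ∀ᶠ k in atTop, e (φ k) i = a i := by
  obtain ⟨a, φ, h1, h2⟩ := CompactSpace.tendsto_subseq e
  refine ⟨a, φ, h1, fun i => ?_⟩
  have := (tendsto_pi_nhds.mp h2) i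
  rw [nhds_discrete, tendsto_pure] at this
  exact this

lemma V_tendsto {r : ℕ → ℝ} {q : ℝ} {e : ℕ → (ℕ → Fin 2)} {a : ℕ → Fin 2} (hq : 1 < q)
    (hr : Tendsto r atTop (𝓝 q)) (he : ∀ i, ∀ᶠ k in atTop, e k i = a i) :
    Tendsto (fun k => V (r k) (e k)) atTop (𝓝 (V q a)) := by
  unfold V
  have hm : 1 < (1 + q) / 2 := by linarith
  apply tendsto_tsum_of_dominated_convergence (hasSum_geom hm).summable
  · intro i
    have h1 : Tendsto (fun k => (((a i : Fin 2) : ℕ) : ℝ) / (r k) ^ (i + 1)) atTop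
        (𝓝 ((((a i : Fin 2) : ℕ) : ℝ) / q ^ (i + 1))) :=
      Tendsto.div tendsto_const_nhds (hr.pow _) (by positivity)
    refine h1.congr' ?_
    filter_upwards [he i] with k hk
    rw [hk]
  · filter_upwards [hr.eventually (lt_mem_nhds (show (1 + q) / 2 < q by linarith))] with k hk i
    have hk0 : 0 < r k := by linarith
    rw [Real.norm_of_nonneg (by positivity)]
    have := digit_le_one (e k i)
    gcongr

lemma kap_tendsto {r : ℕ → ℝ} {q : ℝ} (hq : 1 < q) (hr : Tendsto r atTop (𝓝 q)) :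
    Tendsto (fun k => kap (r k)) atTop (𝓝 (kap q)) := by
  unfold kap
  exact Tendsto.div (tendsto_const_nhds.sub hr) (hr.sub tendsto_const_nhds) (by linarith)

/-- Weakly univoque sequences with strict upper bounds are strictly univoque. -/
lemma SU_of_weak {q : ℝ} {a : ℕ → Fin 2} (hq : 1 < q) (hq2 : q < 2) (ha : V q a = 1)
    (h0 : ∀ n, a n = 0 → V q (sh (n + 1) a) < 1)
    (h1 : ∀ n, a n = 1 → kap q ≤ V q (sh (n + 1) a)) : SU q a := by
  have hk := kap_pos hq hq2
  have hkk := kap_eq hq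
  have hq0 : 0 < q := by linarith
  intro n
  refine ⟨h0 n, fun hn => ?_⟩
  by_contra hcon
  push Not at hcon
  have heq : V q (sh (n + 1) a) = kap q := le_antisymm hcon (h1 n hn)
  set γ := cmp (sh (n + 1) a) with hγ
  have hγ1 : V q γ = 1 := by rw [hγ, V_cmp hq, heq, hkk]; ring
  have hγa : ∀ j, γ j = a j := by
    intro j
    induction j using Nat.strong_induction_on with
    | _ j ih =>
      have hag := V_agree hq ih
      rw [hγ1, ha, sub_self, mul_zero] at hag
      have e1 := V_step hq (sh j γ)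
      have e2 := V_step hq (sh j a)
      rw [sh_sh] at e1 e2
      simp only [sh_apply, add_zero] at e1 e2
      rw [e1, e2] at hag
      have hag' : (((γ j : Fin 2) : ℕ) : ℝ) + V q (sh (j + 1) γ) =
          (((a j : Fin 2) : ℕ) : ℝ) + V q (sh (j + 1) a) := by
        have : ((((γ j : Fin 2) : ℕ) : ℝ) + V q (sh (j + 1) γ)) / q -
          ((((a j : Fin 2) : ℕ) : ℝ) + V q (sh (j + 1) a)) / q = 0 := hag.symm
        rw [← sub_div, div_eq_zero_iff] at this
        rcases this with h | h
        · linarith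
        · linarith
      have hγj : γ j = 1 - a (n + 1 + j) := rfl
      have hγs : V q (sh (j + 1) γ) = 1 / (q - 1) - V q (sh (n + 1 + j + 1) a) := by
        rw [hγ, sh_cmp, V_cmp hq, sh_sh]; rfl
      rcases fin2_cases (a j) with hb | hb <;> rcases fin2_cases (γ j) with hc | hc
      · rw [hb, hc]
      · exfalso
        rw [hb, hc] at hag'
        simp only [Fin.val_one, Nat.cast_one, Fin.val_zero, Nat.cast_zero, zero_add] at hag'
        have := V_nonneg hq (sh (j + 1) γ)
        have := h0 j hb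
        linarith
      · exfalso
        rw [hb, hc] at hag'
        simp only [Fin.val_one, Nat.cast_one, Fin.val_zero, Nat.cast_zero, zero_add] at hag'
        have hd : a (n + 1 + j) = 1 := by
          rcases fin2_cases (a (n + 1 + j)) with hd | hd
          · rw [hγj, hd] at hc; simp at hc
          · exact hd
        have h2 := h1 _ hd
        have h3 := h1 j hb
        rw [hγs] at hag'
        linarith
      · rw [hb, hc]
  have hγa' : γ = a := funext hγa
  have hsa : sh (n + 1) a = cmp a := by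
    funext i
    have : γ i = a i := hγa i
    have h2 : γ i = 1 - a (n + 1 + i) := rfl
    simp only [sh_apply, cmp_apply]
    rw [h2] at this
    rcases fin2_cases (a (n + 1 + i)) with hb | hb <;> rcases fin2_cases (a i) with hc | hc <;>
      rw [hb, hc] at this <;> simp [hb, hc] at this ⊢
  have h2 : sh (2 * n + 1 + 1) a = a := by
    have e1 : sh (2 * n + 1 + 1) a = sh (n + 1) (sh (n + 1) a) := by
      rw [sh_sh]; congr 1; omega
    rw [e1, hsa, sh_cmp, hsa]
    funext i
    simp
  have h3 : a (2 * n + 1) = 0 := by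
    have : sh (n + 1) a n = cmp a n := by rw [hsa]
    simp only [sh_apply, cmp_apply] at this
    rw [show n + 1 + n = 2 * n + 1 by ring, hn] at this
    rw [this]; simp
  have h4 := h0 _ h3
  rw [h2, ha] at h4
  exact lt_irrefl _ h4

/-- The univoque set is closed under decreasing limits. -/
lemma right_closed {q : ℝ} (hq : 1 < q) (hq2 : q < 2)
    (h : ∀ ε : ℝ, 0 < ε → ∃ r, q < r ∧ r < q + ε ∧ UE r 1) : ∃ α, V q α = 1 ∧ SU q α := by
  have hch : ∀ k : ℕ, ∃ r, q < r ∧ r < q + min (1 / ((k : ℝ) + 1)) (2 - q) ∧ UE r 1 :=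
    fun k => h _ (lt_min (by positivity) (by linarith))
  choose r hr1 hr2 hr3 using hch
  have hrlim : Tendsto r atTop (𝓝 q) := by
    have h1 : Tendsto (fun k : ℕ => q + 1 / ((k : ℝ) + 1)) atTop (𝓝 q) := by
      have := (tendsto_const_nhds (x := q)).add tendsto_one_div_add_atTop_nhds_zero_nat
      simpa using this
    refine tendsto_of_tendsto_of_tendsto_of_le_of_le tendsto_const_nhds h1
      (fun k => (hr1 k).le) (fun k => ?_)
    have := hr2 k
    have h3 := min_le_left (1 / ((k : ℝ) + 1)) (2 - q)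
    simp only
    linarith
  have hr4 : ∀ k, r k ≤ 2 := fun k => by
    have := hr2 k
    have h3 := min_le_right (1 / ((k : ℝ) + 1)) (2 - q)
    linarith
  have hex : ∀ k, ∃ e : ℕ → Fin 2, V (r k) e = 1 ∧ SU (r k) e := by
    intro k
    obtain ⟨e, he, _⟩ := id (hr3 k)
    have hV := V_of_isExp he
    refine ⟨e, hV, UE_SU (lt_trans hq (hr1 k)) (hr4 k) (by rw [hV]; exact hr3 k)⟩
  choose e he1 he2 using hex
  obtain ⟨a, φ, hφ, ha⟩ := exists_limit_seq e
  have hrφ : Tendsto (fun k => r (φ k)) atTop (𝓝 q) := hrlim.comp hφ.tendsto_atTop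
  have hVa : V q a = 1 := by
    have h1 := V_tendsto hq hrφ ha
    have h2 : Tendsto (fun k => V (r (φ k)) (e (φ k))) atTop (𝓝 1) := by
      simp_rw [he1]; exact tendsto_const_nhds
    exact tendsto_nhds_unique h1 h2
  refine ⟨a, hVa, SU_of_weak hq hq2 hVa ?_ ?_⟩
  · intro n hn
    have hev : ∀ᶠ k in atTop, ∀ i ∈ Finset.range (n + 1), e (φ k) i = a i :=
      (Filter.eventually_all_finset _).mpr (fun i _ => ha i)
    obtain ⟨k, hk⟩ := hev.exists
    have hrk := hr1 (φ k)
    have hrk1 : 1 < r (φ k) := by linarith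
    have h1 := (he2 (φ k) n).1 (by rw [hk n (Finset.self_mem_range_succ n)]; exact hn)
    have s1 := V_split hrk1 (e (φ k)) (n + 1)
    have s2 := V_split hq a (n + 1)
    rw [he1] at s1
    rw [hVa] at s2
    have s3 : PS (r (φ k)) (e (φ k)) (n + 1) = PS (r (φ k)) a (n + 1) :=
      PS_congr (fun i hi => hk i (Finset.mem_range.mpr hi))
    have s4 := PS_anti hq hrk.le a (n + 1)
    rw [s3] at s1
    have hrn : 0 < r (φ k) ^ (n + 1) := by positivity
    have hqn : 0 < q ^ (n + 1) := by positivity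
    have hrqn : q ^ (n + 1) ≤ r (φ k) ^ (n + 1) := pow_le_pow_left₀ (by linarith) hrk.le _
    have s6 := V_nonneg hq (sh (n + 1) a)
    have s7 : V q (sh (n + 1) a) / q ^ (n + 1) ≤
        V (r (φ k)) (sh (n + 1) (e (φ k))) / r (φ k) ^ (n + 1) := by linarith
    rw [div_le_div_iff₀ hqn hrn] at s7
    have s8 : V q (sh (n + 1) a) * q ^ (n + 1) ≤ V q (sh (n + 1) a) * r (φ k) ^ (n + 1) :=
      mul_le_mul_of_nonneg_left hrqn s6
    have s9 : V q (sh (n + 1) a) * q ^ (n + 1) ≤
      V (r (φ k)) (sh (n + 1) (e (φ k))) * q ^ (n + 1) := by linarith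
    have s10 := le_of_mul_le_mul_right s9 hqn
    linarith
  · intro n hn
    have h1 : Tendsto (fun k => V (r (φ k)) (sh (n + 1) (e (φ k)))) atTop
        (𝓝 (V q (sh (n + 1) a))) := V_tendsto hq hrφ (fun i => ha _)
    refine le_of_tendsto_of_tendsto (kap_tendsto hq hrφ) h1 ?_
    filter_upwards [ha n] with k hk
    exact ((he2 (φ k) n).2 (by rw [hk]; exact hn)).le

/-- A univoque base slightly above `1.8`. -/
lemma exists_uf : ∃ q, 1.8 < q ∧ q < 1.81 ∧ UE q 1 := by
  have hcont : Continuous (fun q : ℝ => q ^ 3 - q ^ 2 - 2 * q + 1) := by fun_prop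
  have hivt := intermediate_value_Icc (show (1.8 : ℝ) ≤ 1.81 by norm_num) hcont.continuousOn
  obtain ⟨q, ⟨h1, h2⟩, h3⟩ := hivt (show (0 : ℝ) ∈ _ by constructor <;> norm_num)
  simp only at h3
  have h1' : 1.8 < q := by
    rcases lt_or_eq_of_le h1 with h | h
    · exact h
    · rw [← h] at h3; norm_num at h3
  have h2' : q < 1.81 := by
    rcases lt_or_eq_of_le h2 with h | h
    · exact h
    · rw [h] at h3; norm_num at h3
  refine ⟨q, h1', h2', ?_⟩
  norm_num at h1' h2'
  have hq : 1 < q := by linarith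
  have hq1 : 0 < q - 1 := by linarith
  have e3 : q * (q * (q - 1) - 1) = q - 1 := by nlinarith
  have b1 : 1 < 1 / (q - 1) := by rw [lt_div_iff₀ hq1]; linarith
  have b2 : 0.43 < q * (q - 1) - 1 := by norm_num; nlinarith
  have b3 : q * (q - 1) - 1 < 0.47 := by norm_num; nlinarith
  have b4 : (2 - q) / (q - 1) < 0.26 := by
    rw [div_lt_iff₀ hq1]; norm_num; linarith
  norm_num at b2 b3 b4
  refine UE_of_invariant hq (by linarith) {1, q - 1, q * (q - 1) - 1} ?_ ?_ 1 (by simp)
  · intro y hy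
    simp only [Set.mem_insert_iff, Set.mem_singleton_iff] at hy
    rcases hy with rfl | rfl | rfl
    · exact ⟨by norm_num, b1.le⟩
    · exact ⟨by linarith, by linarith⟩
    · exact ⟨by linarith, by linarith⟩
  · intro y hy
    simp only [Set.mem_insert_iff, Set.mem_singleton_iff] at hy ⊢
    rcases hy with rfl | rfl | rfl
    · right
      rw [mul_one]
      exact ⟨by tauto, by linarith⟩
    · right
      exact ⟨by tauto, by linarith⟩
    · left
      rw [e3]
      exact ⟨by tauto, by linarith⟩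

/-- Univoque bases exceed `1.6`. -/
lemma Ux_one_gt {r : ℝ} (h : r ∈ Ux 1) : 1.6 < r := by
  obtain ⟨h1, h2, h3⟩ := h
  have hr1 : 0 < r - 1 := by linarith
  by_contra hcon
  push Not at hcon
  norm_num at hcon
  refine (two_small_base h1 (by nlinarith) one_pos ?_).not_UE h3
  rw [lt_div_iff₀ hr1]; linarith

/-- Membership in the univoque set in terms of sequences. -/
lemma mem_Ux_one {q : ℝ} : q ∈ Ux 1 ↔ 1 < q ∧ q ≤ 2 ∧ ∃ α, V q α = 1 ∧ SU q α := by
  constructor
  · rintro ⟨h1, h2, h3⟩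
    obtain ⟨e, he, _⟩ := id h3
    have hV := V_of_isExp he
    exact ⟨h1, h2, e, hV, UE_SU h1 h2 (by rw [hV]; exact h3)⟩
  · rintro ⟨h1, h2, α, h3, h4⟩
    have := SU_UE h1 h2 h4
    rw [h3] at this
    exact ⟨h1, h2, this⟩

/-- The univoque set has a least element. -/
lemma KL_least : IsLeast (Ux 1) (sInf (Ux 1)) ∧ sInf (Ux 1) < 1.81 := by
  obtain ⟨f, f1, f2, f3⟩ := exists_uf
  norm_num at f1 f2
  have hf : f ∈ Ux 1 := ⟨by linarith, by linarith, f3⟩
  have hb := Ux_bdd 1
  set s := sInf (Ux 1) with hs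
  have hsf : s ≤ f := csInf_le hb hf
  have hs1 : 1.6 ≤ s := le_csInf ⟨f, hf⟩ (fun r hr => (Ux_one_gt hr).le)
  norm_num at hs1
  refine ⟨⟨?_, fun r hr => csInf_le hb hr⟩, by norm_num; linarith⟩
  by_contra hcon
  have hR := right_closed (q := s) (by linarith) (by linarith) (by
    intro ε hε
    obtain ⟨r, hr1, hr2⟩ := exists_lt_of_csInf_lt ⟨f, hf⟩ (show sInf (Ux 1) < s + ε by
      rw [← hs]; linarith)
    refine ⟨r, ?_, hr2, hr1.2.2⟩
    rcases lt_or_eq_of_le (csInf_le hb hr1) with h | h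
    · exact h
    · exfalso; apply hcon; rw [hs, h]; exact hr1)
  exact hcon (mem_Ux_one.mpr ⟨by linarith, by linarith, hR⟩)

/-- Two-sided accumulation points. -/
def TwoSided (A : Set ℝ) (y : ℝ) : Prop :=
  ∀ ε : ℝ, 0 < ε → (A ∩ Set.Ioo (y - ε) y).Nonempty ∧ (A ∩ Set.Ioo y (y + ε)).Nonempty

lemma uncountable_twoSided {A : Set ℝ} (hA : ¬ A.Countable) :
    ¬ {y | y ∈ A ∧ TwoSided A y}.Countable := by
  intro hc
  apply hA
  have h1 := countable_setOfPred_isolated_right_within (s := A)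
  have h2 := countable_setOfPred_isolated_left_within (s := A)
  refine ((hc.union h1).union h2).mono ?_
  intro x hx
  by_contra hcon
  simp only [Set.mem_union, Set.mem_ofPred_eq, not_or, not_and] at hcon
  obtain ⟨⟨h3, h4⟩, h5⟩ := hcon
  apply h3 hx
  intro ε hε
  constructor
  · by_contra hne
    rw [Set.not_nonempty_iff_eq_empty] at hne
    apply h5 hx
    rw [← Filter.empty_mem_iff_bot, mem_nhdsWithin_iff_exists_mem_nhds_inter]
    refine ⟨Set.Ioi (x - ε), Ioi_mem_nhds (by linarith), ?_⟩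
    rintro y ⟨y1, y2, y3⟩
    rw [← hne]
    exact ⟨y2, y1, y3⟩
  · by_contra hne
    rw [Set.not_nonempty_iff_eq_empty] at hne
    apply h4 hx
    rw [← Filter.empty_mem_iff_bot, mem_nhdsWithin_iff_exists_mem_nhds_inter]
    refine ⟨Set.Iio (x + ε), Iio_mem_nhds (by linarith), ?_⟩
    rintro y ⟨y1, y2, y3⟩
    rw [← hne]
    exact ⟨y2, y3, y1⟩

end Pool.Agent.V11309.Uni
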