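import Mathlib
import Pool.Agent.V11309.Uni.Limit

/-! Level sets of left-isolated univoque bases. -/

namespace Pool.Agent.V11309.Uni

open Filter Topology

/-- The level set, in the version where the smallest univoque base is attained. -/
def Lmin (q : ℝ) : Set ℝ := {x | 0 < x ∧ IsLeast (Ux x) q}

/-- The level set, in the version with the infimum. -/
def Linf (q : ℝ) : Set ℝ := {x | 0 < x ∧ sInf (Ux x) = q}

lemma Lmin_sub_Linf (q : ℝ) : Lmin q ⊆ Linf q := fun _ hx => ⟨hx.1, hx.2.csInf_eq⟩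

section

variable {q : ℝ} {α : ℕ → Fin 2}

lemma Lmin_uncountable (hq : 1 < q) (hq2 : q ≤ 1.84) (hα : V q α = 1) (hSU : SU q α)
    (hP : PropP q α) : ¬ (Lmin q).Countable := by
  intro hc
  have hq2' : q < 2 := by norm_num at hq2; linarith
  let f : (ℕ → Bool) → (Lmin q : Set ℝ) := fun b =>
    ⟨V q (cons 1 (dseq α (mb q α b))), (pt_mem_level hq hq2 hα hSU
      (mb_good hq hq2' hSU hP b) (mb_small hq hq2' hSU hP b)).1,
      ⟨hq, hq2'.le, UE_pt hq hq2' hα hSU (mb_good hq hq2' hSU hP b)⟩, fun r hr => by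
        by_contra hlt
        push Not at hlt
        exact pt_lower hq hq2 hα hSU (mb_good hq hq2' hSU hP b) (mb_small hq hq2' hSU hP b)
          hr.1 hlt hr.2.2⟩
  have hf : Function.Injective f := by
    intro b b' h
    have h1 : V q (cons 1 (dseq α (mb q α b))) = V q (cons 1 (dseq α (mb q α b'))) :=
      congrArg Subtype.val h
    have hU := UE_pt hq hq2' hα hSU (mb_good hq hq2' hSU hP b)
    obtain ⟨e, _, hu⟩ := hU
    have e1 := hu _ (isExp_V hq (cons 1 (dseq α (mb q α b))))
    have e2 := hu _ (by rw [h1]; exact isExp_V hq (cons 1 (dseq α (mb q α b'))))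
    have h2 : cons 1 (dseq α (mb q α b)) = cons 1 (dseq α (mb q α b')) := e1.trans e2.symm
    have h3 : dseq α (mb q α b) = dseq α (mb q α b') := by
      rw [← sh_cons 1 (dseq α (mb q α b)), h2, sh_cons]
    exact mb_inj hq hq2' hSU hP (dseq_inj (fun j => (mb_good hq hq2' hSU hP b j).1.1)
      (fun j => (mb_good hq hq2' hSU hP b' j).1.1) h3)
  have : Countable (Lmin q : Set ℝ) := hc.to_subtype
  have h2 : Countable (ℕ → Bool) := hf.countable
  exact not_countable_bool h2

end

/-- Left-isolated univoque bases have property `P`. -/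
lemma propP_of_isolated {q : ℝ} {α : ℕ → Fin 2} (hq : 1 < q) (hq2 : q < 2) (hα : V q α = 1)
    (hSU : SU q α) {p : ℝ} (hpq : p < q) (hiso : ∀ r ∈ Ux 1, p < r → q ≤ r) : PropP q α := by
  by_contra hP
  obtain ⟨r, r1, r2, r3, r4⟩ := left_limit hq hq2 hα hSU hP (δ := q - p) (by linarith)
  have := hiso r ⟨r1, by linarith, r4⟩ (by linarith)
  linarith

/-- Left-isolated univoque bases up to `1.84` have uncountable level sets. -/
lemma Lmin_uncountable_of_isolated {q : ℝ} (hq : q ∈ Ux 1) (hq2 : q ≤ 1.84) {p : ℝ}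
    (hpq : p < q) (hiso : ∀ r ∈ Ux 1, p < r → q ≤ r) : ¬ (Lmin q).Countable := by
  obtain ⟨h1, h2, α, h3, h4⟩ := mem_Ux_one.mp hq
  have hq2' : q < 2 := by norm_num at hq2; linarith
  exact Lmin_uncountable h1 hq2 h3 h4 (propP_of_isolated h1 hq2' h3 h4 hpq hiso)

/-- Points of the closure of the univoque set which are isolated from the left are univoque. -/
lemma mem_Ux_of_closure {q : ℝ} (hq2 : q < 2) (hq : q ∈ closure (Ux 1)) {p : ℝ}
    (hpq : p < q) (hiso : ∀ r ∈ Ux 1, p < r → q ≤ r) : q ∈ Ux 1 := by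
  by_contra hcon
  have h16 : 1.6 ≤ q := by
    have : closure (Ux 1) ⊆ Set.Ici 1.6 :=
      closure_minimal (fun r hr => (Ux_one_gt hr).le) isClosed_Ici
    exact this hq
  norm_num at h16
  have hR := right_closed (q := q) (by linarith) hq2 (by
    intro ε hε
    rw [Metric.mem_closure_iff] at hq
    obtain ⟨r, hr, hd⟩ := hq (min ε (q - p)) (lt_min hε (by linarith))
    rw [Real.dist_eq, abs_lt] at hd
    have m1 := min_le_left ε (q - p)
    have m2 := min_le_right ε (q - p)
    have h1 : q ≤ r := hiso r hr (by linarith [hd.2])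
    refine ⟨r, ?_, by linarith [hd.1], hr.2.2⟩
    rcases lt_or_eq_of_le h1 with h | h
    · exact h
    · exfalso; apply hcon; rw [h]; exact hr)
  exact hcon (mem_Ux_one.mpr ⟨by linarith, hq2.le, hR⟩)

lemma twoSided_mono {A B : Set ℝ} (h : A ⊆ B) {y : ℝ} (hy : TwoSided A y) : TwoSided B y :=
  fun ε hε => ⟨(hy ε hε).1.mono (Set.inter_subset_inter_left _ h),
    (hy ε hε).2.mono (Set.inter_subset_inter_left _ h)⟩

end Pool.Agent.V11309.Uni
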