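import Mathlib
import Pool.Agent.V11309.Uni.Final

/-! The point `F a` belongs to the level set. -/

namespace Pool.Agent.V11309.Uni

lemma UE_Yk' {q y : ℝ} (h1 : 1.84 ≤ q) (h2 : q ≤ 1.9) (hU : UE q y) (hy : y < q - 1)
    (hs : kap q < Ys q) (hys : Ys q < y) (k : ℕ) :
    UE q (Yk q y k) ∧ Yk q y k < q - 1 ∧ kap q < Yk q y k := by
  have h1' := h1
  norm_num at h1'
  have hq : 1 < q := by linarith
  have h0 : 0 < q := by linarith
  have hYs : ∀ m, Ys q < Yk q y m := by
    intro m
    unfold Yk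
    have : 0 < (y - Ys q) / q ^ (7 * m) := div_pos (by linarith) (by positivity)
    linarith
  induction k with
  | zero => rw [Yk_zero]; exact ⟨hU, hy, by linarith⟩
  | succ k ih =>
    obtain ⟨i1, i2, i3⟩ := ih
    have hmono : Yk q y (k + 1) ≤ Yk q y k := by
      unfold Yk
      have : (y - Ys q) / q ^ (7 * (k + 1)) ≤ (y - Ys q) / q ^ (7 * k) := by
        have : 0 ≤ y - Ys q := by linarith
        gcongr
        · exact hq.le
        · omega
      linarith
    refine ⟨?_, by linarith, by linarith [hYs (k + 1)]⟩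
    rw [Yk_succ hq]
    exact UE_block h1 h2 i1 i3 i2

lemma hit_above {a b : ℝ} (ha1 : 1.88 < a) (hga : gp a = 0) (hab : a < b)
    (hb : b ≤ 1.8801) : ∃ q, a < q ∧ q < b ∧ UE q (F a) := by
  have ha1' := ha1
  have hb' := hb
  norm_num at ha1' hb'
  have ha0 : 0 < a := by linarith
  have hb0 : 0 < b := by linarith
  have hsub : Set.Icc a b ⊆ Set.Icc (1.87 : ℝ) 1.9 := by
    intro q hq
    have b1 := hq.1; have b2 := hq.2
    norm_num
    constructor <;> linarith
  have hpos : ∀ q, a ≤ q → q ≤ b → kap q ≤ Ys q ∧ Ys q < v10 q ∧ (a < q → kap q < Ys q) := by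
    intro q h1 h2
    have h7 : (1.88 : ℝ) ^ 7 ≤ q ^ 7 := by gcongr; norm_num; linarith
    norm_num at h7
    obtain ⟨g1, g2⟩ := gp_diff (t := a) (a := q) (by norm_num; linarith) h1 (by linarith)
    have e := kap_sub_Ys (q := q) (by linarith)
    have hp7 : 0 < q ^ 7 - 1 := by linarith
    have hg0 : 0 ≤ gp q := by linarith
    have i1 : kap q ≤ Ys q := by
      have : 0 ≤ gp q / (q ^ 7 - 1) := div_nonneg hg0 hp7.le
      have : kap q - Ys q = -(gp q / (q ^ 7 - 1)) := by rw [e]; ring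
      linarith
    refine ⟨i1, ?_, ?_⟩
    · have c1 := v10_ge (t := q) (by norm_num; linarith) (by linarith)
      have c2 := kap_le (t := q) (by norm_num; linarith)
      have c3 : gp q / (q ^ 7 - 1) ≤ 0.001 := by
        rw [div_le_iff₀ hp7]
        norm_num at g2 ⊢
        linarith
      have : kap q - Ys q = -(gp q / (q ^ 7 - 1)) := by rw [e]; ring
      norm_num at c1 c2 c3
      linarith
    · intro h
      have hg : 0 < gp q := by
        have : 0 < 70 * (q - a) := by linarith
        linarith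
      have : 0 < gp q / (q ^ 7 - 1) := div_pos hg hp7
      have : kap q - Ys q = -(gp q / (q ^ 7 - 1)) := by rw [e]; ring
      linarith
  obtain ⟨pb1, pb2, pb3⟩ := hpos b hab.le le_rfl
  obtain ⟨pa1, pa2, _⟩ := hpos a le_rfl hab.le
  have hYsa : Ys a = kap a := by
    have := kap_sub_Ys (q := a) (by linarith)
    rw [hga] at this
    simp at this
    linarith
  -- value at b
  have hB : Ys b < b ^ 4 * F a - b ^ 3 - 1 := by
    have h2 := (F_eq_iff (q := b) (x := F b) (by linarith)).mp rfl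
    have hD := D_bound (t := a) (a := b) (by norm_num; linarith) hab.le hb
    have e := kap_sub_Ys (q := b) (by linarith)
    obtain ⟨g1, g2⟩ := gp_diff (t := a) (a := b) (by norm_num; linarith) hab.le hb
    have h7 : (1.88 : ℝ) ^ 7 ≤ b ^ 7 := by gcongr; norm_num; linarith
    norm_num at h7
    have hp7 : 0 < b ^ 7 - 1 := by linarith
    have c3 : gp b / (b ^ 7 - 1) ≤ 2 * (b - a) := by
      rw [div_le_iff₀ hp7]
      norm_num at g2 ⊢
      nlinarith
    have : kap b - Ys b = -(gp b / (b ^ 7 - 1)) := by rw [e]; ring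
    nlinarith
  obtain ⟨n, hn⟩ := exists_pow_lt_of_lt_one
    (x := (b ^ 4 * F a - b ^ 3 - 1 - Ys b) / (v10 b - Ys b))
    (by apply div_pos <;> linarith) (y := 1 / b ^ 7) (by
      rw [div_lt_one (by positivity)]
      exact one_lt_pow₀ (by linarith) (by norm_num))
  let Φ : ℝ → ℝ := fun q => q ^ 4 * F a - q ^ 3 - 1 - Yk q (v10 q) n
  have hcont : ContinuousOn Φ (Set.Icc a b) := by
    apply ContinuousOn.sub (by fun_prop) ((Yk_cont v10_cont n).mono hsub)
  have hΦa : Φ a < 0 := by
    have h2 := (F_eq_iff (q := a) (x := F a) (by linarith)).mp rfl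
    simp only [Φ, Yk, hYsa]
    have : 0 < (v10 a - kap a) / a ^ (7 * n) := div_pos (by linarith) (by positivity)
    linarith
  have hΦb : 0 < Φ b := by
    rw [lt_div_iff₀ (by linarith), one_div_pow, ← pow_mul] at hn
    simp only [Φ, Yk]
    have : (v10 b - Ys b) / b ^ (7 * n) = 1 / b ^ (7 * n) * (v10 b - Ys b) := by ring
    linarith
  obtain ⟨q, hq, hqΦ⟩ := intermediate_value_Icc hab.le hcont ⟨hΦa.le, hΦb.le⟩
  have hqa : a < q := by
    rcases lt_or_eq_of_le hq.1 with h | h
    · exact h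
    · exfalso; rw [← h] at hqΦ; linarith
  have hqb : q < b := by
    rcases lt_or_eq_of_le hq.2 with h | h
    · exact h
    · exfalso; rw [h] at hqΦ; linarith
  refine ⟨q, hqa, hqb, ?_⟩
  have hYq : Yk q (v10 q) n = q ^ 4 * F a - q ^ 3 - 1 := by
    simp only [Φ] at hqΦ; linarith
  obtain ⟨p1, p2, p3⟩ := hpos q hq.1 hq.2
  obtain ⟨u1, u2⟩ := v10_good q (hsub hq)
  have h184 : (1.84 : ℝ) ≤ q := by norm_num; linarith
  have h19 : q ≤ (1.9 : ℝ) := by norm_num; linarith
  obtain ⟨r1, r2, r3⟩ := UE_Yk' h184 h19 u1 u2 (p3 hqa) p2 n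
  have := UE_prefix h184 h19 r1 r3 r2
  rw [hYq] at this
  have e : (q ^ 3 + 1 + (q ^ 4 * F a - q ^ 3 - 1)) / q ^ 4 = F a := by
    have : q ≠ 0 := by linarith
    field_simp
    ring
  rwa [e] at this

lemma mem_level {a : ℝ} (ha1 : 1.88 < a) (ha2 : a < 1.8801) (hga : gp a = 0) :
    0 < F a ∧ sInf (Ux (F a)) = a := by
  have ha1' := ha1
  have ha2' := ha2
  norm_num at ha1' ha2'
  have hG : Real.goldenRatio ^ 2 = Real.goldenRatio + 1 := Real.goldenRatio_sq
  have hG0 : 0 < Real.goldenRatio := Real.goldenRatio_pos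
  obtain ⟨g1, g2⟩ := G_bounds hG hG0
  norm_num at g1 g2
  have hlow : (0.62 : ℝ) < F a := by
    have h1 := F_strictAnti (s := a) (t := 1.8801) (by linarith) ha2
    have h2 : (0.62 : ℝ) < F 1.8801 := by unfold F; norm_num
    linarith
  have hb := F_bounds ha1 ha2
  norm_num at hlow hb
  refine ⟨by linarith, ?_⟩
  have hge : 1 / Real.goldenRatio ≤ F a := by
    have h3 : 1 / Real.goldenRatio < 0.62 := by
      rw [div_lt_iff₀ hG0]; norm_num; linarith
    norm_num at h3 ⊢
    linarith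
  have hlb : ∀ q ∈ Ux (F a), a ≤ q := by
    rintro q ⟨q1, q2, q3⟩
    by_contra hlt
    push Not at hlt
    exact (two_of_le_F hG hG0 q1 q2 hge (by linarith) (F_strictAnti q1 hlt).le).not_UE q3
  apply le_antisymm
  · apply le_of_forall_gt_imp_ge_of_dense
    intro c hc
    obtain ⟨q, q1, q2, q3⟩ := hit_above (a := a) (b := min c 1.8801) ha1 hga
      (lt_min hc ha2) (min_le_right _ _)
    have hq2 : q < 1.8801 := lt_of_lt_of_le q2 (min_le_right _ _)
    norm_num at hq2
    have : sInf (Ux (F a)) ≤ q := csInf_le (Ux_bdd _) ⟨by linarith, by linarith, q3⟩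
    have := lt_of_lt_of_le q2 (min_le_left c 1.8801)
    linarith
  · apply le_csInf _ hlb
    obtain ⟨q, q1, q2, q3⟩ := hit_above (a := a) (b := 1.8801) ha1 hga ha2 le_rfl
    norm_num at q2
    exact ⟨q, by linarith, by linarith, q3⟩

end Pool.Agent.V11309.Uni
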