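import Mathlib
import Pool.Agent.V11309.Uni.LevelC

/-! The weak univoque condition. -/

namespace Pool.Agent.V11309.Uni

open Filter Topology

/-- The weak univoque condition. -/
def WU (q : ℝ) (d : ℕ → Fin 2) : Prop :=
  ∀ n, (d n = 0 → V q (sh (n + 1) d) ≤ 1) ∧ (d n = 1 → kap q ≤ V q (sh (n + 1) d))

lemma cmp_eq_zero {d : ℕ → Fin 2} {n : ℕ} : cmp d n = 0 ↔ d n = 1 := by
  rw [cmp_apply]
  rcases fin2_cases (d n) with h | h <;> simp [h]

lemma cmp_eq_one {d : ℕ → Fin 2} {n : ℕ} : cmp d n = 1 ↔ d n = 0 := by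
  rw [cmp_apply]
  rcases fin2_cases (d n) with h | h <;> simp [h]

lemma cmp_cmp (d : ℕ → Fin 2) : cmp (cmp d) = d := by
  funext i
  rw [cmp_apply, cmp_apply]
  simp

lemma SU.WU {q : ℝ} {d : ℕ → Fin 2} (h : SU q d) : WU q d :=
  fun n => ⟨fun h0 => ((h n).1 h0).le, fun h1 => ((h n).2 h1).le⟩

lemma WU.shift {q : ℝ} {d : ℕ → Fin 2} (h : WU q d) (n : ℕ) : WU q (sh n d) := by
  intro m
  have := h (n + m)
  rw [sh_sh]
  exact this

lemma V_sh_cmp {q : ℝ} (hq : 1 < q) (d : ℕ → Fin 2) (n : ℕ) :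
    V q (sh n (cmp d)) = 1 / (q - 1) - V q (sh n d) := by
  rw [sh_cmp, V_cmp hq]

lemma WU.cmp {q : ℝ} (hq : 1 < q) {d : ℕ → Fin 2} (h : WU q d) : WU q (cmp d) := by
  intro n
  rw [V_sh_cmp hq]
  have hk := kap_eq hq
  constructor
  · intro h0
    have := (h n).2 (cmp_eq_zero.mp h0)
    linarith
  · intro h1
    have := (h n).1 (cmp_eq_one.mp h1)
    linarith

lemma SU.cmp {q : ℝ} (hq : 1 < q) {d : ℕ → Fin 2} (h : SU q d) : SU q (cmp d) := by
  intro n
  rw [V_sh_cmp hq]
  have hk := kap_eq hq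
  constructor
  · intro h0
    have := (h n).2 (cmp_eq_zero.mp h0)
    linarith
  · intro h1
    have := (h n).1 (cmp_eq_one.mp h1)
    linarith

lemma V_sh_step {q : ℝ} (hq : 1 < q) (d : ℕ → Fin 2) (j : ℕ) :
    q * V q (sh j d) = (((d j : Fin 2) : ℕ) : ℝ) + V q (sh (j + 1) d) := by
  have e1 := V_step hq (sh j d)
  rw [sh_sh] at e1
  simp only [sh_apply, add_zero] at e1
  have h0 : q ≠ 0 := by linarith
  rw [e1]
  field_simp

/-- Weakly univoque expansions are unique. -/
lemma WU_unique {q : ℝ} (hq : 1 < q) (hq2 : q < 2) {d e : ℕ → Fin 2} (hd : WU q d)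
    (he : WU q e) (hV : V q d = V q e) : d = e := by
  have hk := kap_pos hq hq2
  funext j
  induction j using Nat.strong_induction_on with
  | _ j ih =>
    have hag := V_agree hq ih
    rw [hV, sub_self, mul_zero] at hag
    have e1 := V_sh_step hq d j
    have e2 := V_sh_step hq e j
    have e3 : V q (sh j d) = V q (sh j e) := by linarith
    rw [e3] at e1
    rcases fin2_cases (d j) with hb | hb <;> rcases fin2_cases (e j) with hc | hc
    · rw [hb, hc]
    · exfalso
      rw [hb] at e1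
      rw [hc] at e2
      simp only [Fin.val_one, Nat.cast_one, Fin.val_zero, Nat.cast_zero, zero_add] at e1 e2
      have h1 := (hd j).1 hb
      have h2 := (he j).2 hc
      linarith
    · exfalso
      rw [hb] at e1
      rw [hc] at e2
      simp only [Fin.val_one, Nat.cast_one, Fin.val_zero, Nat.cast_zero, zero_add] at e1 e2
      have h1 := (he j).1 hc
      have h2 := (hd j).2 hb
      linarith
    · rw [hb, hc]

lemma exists_one_of_pos {q : ℝ} (hq : 1 < q) {d : ℕ → Fin 2} (h : 0 < V q d) :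
    ∃ i, d i = 1 := by
  by_contra hcon
  push Not at hcon
  have : V q d = 0 := V_zero hq (fun i => by
    rcases fin2_cases (d i) with h | h
    · exact h
    · exact absurd h (hcon i))
  linarith

lemma V_lt_one_of_le {q r : ℝ} (hq : 1 < q) (hqr : q < r) {d : ℕ → Fin 2} (h : V q d ≤ 1) :
    V r d < 1 := by
  rcases lt_or_eq_of_le (V_nonneg (show 1 < r by linarith) d) with h0 | h0
  · obtain ⟨i, hi⟩ := exists_one_of_pos (show 1 < r by linarith) h0
    have := V_anti_strict hq hqr d hi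
    linarith
  · rw [← h0]; norm_num

lemma WU.toSU {q r : ℝ} (hq : 1 < q) (hqr : q < r) {d : ℕ → Fin 2} (h : WU q d) : SU r d := by
  intro n
  constructor
  · intro h0
    exact V_lt_one_of_le hq hqr ((h n).1 h0)
  · intro h1
    have h2 := (h.cmp hq n).1 (cmp_eq_zero.mpr h1)
    have h3 := V_lt_one_of_le hq hqr h2
    rw [V_sh_cmp (by linarith)] at h3
    rw [kap_eq (by linarith)]
    linarith

lemma WU_limit {r : ℕ → ℝ} {q : ℝ} {e : ℕ → (ℕ → Fin 2)} {a : ℕ → Fin 2} (hq : 1 < q)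
    (hr : Tendsto r atTop (𝓝 q)) (he : ∀ i, ∀ᶠ k in atTop, e k i = a i)
    (hW : ∀ k, WU (r k) (e k)) : WU q a := by
  intro n
  have h1 : Tendsto (fun k => V (r k) (sh (n + 1) (e k))) atTop (𝓝 (V q (sh (n + 1) a))) :=
    V_tendsto hq hr (fun i => he _)
  constructor
  · intro h0
    refine le_of_tendsto h1 ?_
    filter_upwards [he n] with k hk
    exact (hW k n).1 (by rw [hk]; exact h0)
  · intro h1'
    refine le_of_tendsto_of_tendsto (kap_tendsto hq hr) h1 ?_
    filter_upwards [he n] with k hk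
    exact (hW k n).2 (by rw [hk]; exact h1')

lemma tendsto_squeeze_right {q c : ℝ} {r : ℕ → ℝ} (h1 : ∀ k, q < r k)
    (h2 : ∀ k : ℕ, r k < q + min (1 / ((k : ℝ) + 1)) c) : Tendsto r atTop (𝓝 q) := by
  have h3 : Tendsto (fun k : ℕ => q + 1 / ((k : ℝ) + 1)) atTop (𝓝 q) := by
    have := (tendsto_const_nhds (x := q)).add tendsto_one_div_add_atTop_nhds_zero_nat
    simpa using this
  refine tendsto_of_tendsto_of_tendsto_of_le_of_le tendsto_const_nhds h3
    (fun k => (h1 k).le) (fun k => ?_)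
  have := h2 k
  have h3 := min_le_left (1 / ((k : ℝ) + 1)) c
  simp only
  linarith

lemma tendsto_squeeze_left {q c : ℝ} {r : ℕ → ℝ} (h1 : ∀ k, r k < q)
    (h2 : ∀ k : ℕ, q - min (1 / ((k : ℝ) + 1)) c < r k) : Tendsto r atTop (𝓝 q) := by
  have h3 : Tendsto (fun k : ℕ => q - 1 / ((k : ℝ) + 1)) atTop (𝓝 q) := by
    have := (tendsto_const_nhds (x := q)).sub tendsto_one_div_add_atTop_nhds_zero_nat
    simpa using this
  refine tendsto_of_tendsto_of_tendsto_of_le_of_le h3 tendsto_const_nhds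
    (fun k => ?_) (fun k => (h1 k).le)
  have := h2 k
  have h3 := min_le_left (1 / ((k : ℝ) + 1)) c
  simp only
  linarith

lemma mem_Ux_iff {q x : ℝ} : q ∈ Ux x ↔ 1 < q ∧ q ≤ 2 ∧ ∃ d, V q d = x ∧ SU q d := by
  constructor
  · rintro ⟨h1, h2, h3⟩
    obtain ⟨e, he, _⟩ := id h3
    have hV := V_of_isExp he
    exact ⟨h1, h2, e, hV, UE_SU h1 h2 (by rw [hV]; exact h3)⟩
  · rintro ⟨h1, h2, α, h3, h4⟩
    have := SU_UE h1 h2 h4
    rw [h3] at this
    exact ⟨h1, h2, this⟩

/-- Points of the level set have weakly univoque expansions. -/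
lemma level_rep {q x : ℝ} (hq : 1 < q) (hq2 : q < 2) (hx : sInf (Ux x) = q) :
    ∃ d, V q d = x ∧ WU q d := by
  by_cases hmem : q ∈ Ux x
  · obtain ⟨_, _, d, h1, h2⟩ := mem_Ux_iff.mp hmem
    exact ⟨d, h1, h2.WU⟩
  have hne : (Ux x).Nonempty := by
    rw [Set.nonempty_iff_ne_empty]
    intro h
    rw [h, Real.sInf_empty] at hx
    linarith
  have hch : ∀ k : ℕ, ∃ r, q < r ∧ r < q + min (1 / ((k : ℝ) + 1)) (2 - q) ∧ r ∈ Ux x := by
    intro k
    have hm : 0 < min (1 / ((k : ℝ) + 1)) (2 - q) := lt_min (by positivity) (by linarith)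
    obtain ⟨r, hr1, hr2⟩ := exists_lt_of_csInf_lt hne
      (show sInf (Ux x) < q + min (1 / ((k : ℝ) + 1)) (2 - q) by linarith)
    refine ⟨r, ?_, hr2, hr1⟩
    have h1 : q ≤ r := by rw [← hx]; exact csInf_le (Ux_bdd x) hr1
    rcases lt_or_eq_of_le h1 with h | h
    · exact h
    · exfalso; apply hmem; rw [h]; exact hr1
  choose r hr1 hr2 hr3 using hch
  have hrlim := tendsto_squeeze_right hr1 hr2
  have hex : ∀ k, ∃ e : ℕ → Fin 2, V (r k) e = x ∧ SU (r k) e :=
    fun k => (mem_Ux_iff.mp (hr3 k)).2.2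
  choose e he1 he2 using hex
  obtain ⟨a, φ, hφ, ha⟩ := exists_limit_seq e
  have hrφ : Tendsto (fun k => r (φ k)) atTop (𝓝 q) := hrlim.comp hφ.tendsto_atTop
  refine ⟨a, ?_, WU_limit hq hrφ ha (fun k => (he2 (φ k)).WU)⟩
  have h1 := V_tendsto hq hrφ ha
  have h2 : Tendsto (fun k => V (r (φ k)) (e (φ k))) atTop (𝓝 x) := by
    simp_rw [he1]; exact tendsto_const_nhds
  exact tendsto_nhds_unique h1 h2

/-- Intermediate bases. -/
lemma ivt_base {p q x : ℝ} (hp : 1 < p) (hpq : p < q) {d : ℕ → Fin 2} (h1 : V q d < x)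
    (h2 : x < V p d) : ∃ r, p < r ∧ r < q ∧ V r d = x := by
  have hcont : ContinuousOn (fun r => V r d) (Set.Icc p q) :=
    (V_cont d).mono (fun x hx => lt_of_lt_of_le hp hx.1)
  obtain ⟨r, ⟨hr1, hr2⟩, hr3⟩ := intermediate_value_Icc' hpq.le hcont ⟨h1.le, h2.le⟩
  simp only at hr3
  refine ⟨r, ?_, ?_, hr3⟩
  · rcases lt_or_eq_of_le hr1 with h | h
    · exact h
    · rw [← h] at hr3; linarith
  · rcases lt_or_eq_of_le hr2 with h | h
    · exact h
    · rw [h] at hr3; linarith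

/-- Upper semicontinuity from the left. -/
lemma left_usc {p q x : ℝ} (hp : p ∈ Ux x) (hpq : p < q) (hq2 : q ≤ 2) (hx : 0 < x) :
    ∃ ε : ℝ, 0 < ε ∧ ∀ x', x - ε < x' → x' < x → ∃ r ∈ Ux x', r < q := by
  obtain ⟨hp1, hp2, c, hc1, hc2⟩ := mem_Ux_iff.mp hp
  obtain ⟨i, hi⟩ := exists_one_of_pos hp1 (by rw [hc1]; exact hx)
  have hlt := V_anti_strict hp1 hpq c hi
  rw [hc1] at hlt
  refine ⟨x - V q c, by linarith, fun x' h1 h2 => ?_⟩
  obtain ⟨r, r1, r2, r3⟩ := ivt_base hp1 hpq (d := c) (x := x') (by linarith)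
    (by rw [hc1]; exact h2)
  exact ⟨r, mem_Ux_iff.mpr ⟨by linarith, by linarith, c, r3, hc2.WU.toSU hp1 r1⟩, r2⟩

/-- Lower semicontinuity from the right. -/
lemma right_lsc {q s x : ℝ} (hq : 1 < q) (hqs : q < s) (hs2 : s ≤ 2) (hx : 0 < x)
    {xs : ℕ → ℝ} (hlim : Tendsto xs atTop (𝓝 x)) (hgt : ∀ k, x < xs k)
    {ds : ℕ → (ℕ → Fin 2)} (hW : ∀ k, WU q (ds k)) (hV : ∀ k, V q (ds k) = xs k) :
    ∃ r ∈ Ux x, r < s := by
  obtain ⟨a, φ, hφ, ha⟩ := exists_limit_seq ds
  have hxφ : Tendsto (fun k => xs (φ k)) atTop (𝓝 x) := hlim.comp hφ.tendsto_atTop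
  have h1 := V_tendsto hq (tendsto_const_nhds (x := q)) ha
  have hVa : V q a = x := by
    refine tendsto_nhds_unique h1 ?_
    simp_rw [hV]; exact hxφ
  obtain ⟨i, hi⟩ := exists_one_of_pos hq (by rw [hVa]; exact hx)
  have hlt := V_anti_strict hq hqs a hi
  rw [hVa] at hlt
  have h2 := V_tendsto (show 1 < s by linarith) (tendsto_const_nhds (x := s)) ha
  obtain ⟨k, hk⟩ := (h2.eventually (gt_mem_nhds hlt)).exists
  obtain ⟨r, r1, r2, r3⟩ := ivt_base hq hqs (d := ds (φ k)) (x := x) hk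
    (by rw [hV]; exact hgt _)
  exact ⟨r, mem_Ux_iff.mpr ⟨by linarith, by linarith, _, r3, (hW (φ k)).toSU hq r1⟩, r2⟩

/-- Weakly univoque expansions of one contain infinitely many ones. -/
lemma ones_infW {q : ℝ} {α : ℕ → Fin 2} (hq : 1 < q) (hq2 : q < 2) (hα : V q α = 1)
    (hW : WU q α) (A : ℕ) : ∃ a, A ≤ a ∧ α a = 1 := by
  by_contra hcon
  push Not at hcon
  have hex : ∃ A, ∀ a, A ≤ a → α a ≠ 1 := ⟨A, hcon⟩
  classical
  have hB := Nat.find_spec hex
  set B := Nat.find hex with hBdef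
  rcases Nat.eq_zero_or_pos B with h | h
  · have : V q α = 0 := V_zero hq (fun i => by
      rcases fin2_cases (α i) with h1 | h1
      · exact h1
      · exact absurd h1 (hB _ (by omega)))
    linarith
  · have hmin := Nat.find_min hex (m := B - 1) (by omega)
    push Not at hmin
    obtain ⟨a, a1, a2⟩ := hmin
    have haB : a = B - 1 := by
      by_contra hne
      exact hB a (by omega) a2
    have hz : V q (sh (a + 1) α) = 0 := by
      apply V_zero hq
      intro i
      simp only [sh_apply]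
      rcases fin2_cases (α (a + 1 + i)) with h1 | h1
      · exact h1
      · exact absurd h1 (hB _ (by omega))
    have := (hW a).2 a2
    have hk := kap_pos hq hq2
    linarith

lemma alpha_zeroW {q : ℝ} {α : ℕ → Fin 2} (hq : 1 < q) (hα : V q α = 1) (hW : WU q α) :
    α 0 = 1 := by
  rcases fin2_cases (α 0) with h | h
  · exfalso
    have h1 := (hW 0).1 h
    have h2 := V_tail hq α
    rw [h, hα] at h2
    simp only [Fin.val_zero, Nat.cast_zero, sub_zero, mul_one] at h2
    simp only [zero_add] at h1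
    linarith
  · exact h

/-- First difference between a tail and the complement of the expansion of one. -/
lemma first_diffW {q : ℝ} {b e : ℕ → Fin 2} (hq : 1 < q) (hq2 : q < 2) (hb : WU q b)
    (he : WU q e) (hV : V q e = 1) {t : ℕ} (ht : 0 < ex q b t) :
    ∃ s, (∀ i < s, b (t + i) = 1 - e i) ∧ b (t + s) = 1 ∧ e s = 1 ∧
      q ^ (s + 1) * ex q b t = V q (sh (s + 1) e) + ex q b (t + s + 1) := by
  have hk := kap_pos hq hq2
  have hVc : V q (cmp e) = kap q := by rw [V_cmp hq, hV, kap_eq hq]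
  have hne : sh t b ≠ cmp e := by
    intro h
    unfold ex at ht
    rw [h, hVc] at ht
    linarith
  have hex' : ∃ s, sh t b s ≠ cmp e s := Function.ne_iff.mp hne
  classical
  set s := Nat.find hex' with hs
  have h1 : sh t b s ≠ cmp e s := Nat.find_spec hex'
  have h2 : ∀ i < s, sh t b i = cmp e i := fun i hi => by
    by_contra h; exact Nat.find_min hex' hi h
  have hag := V_agree hq h2
  rw [hVc] at hag
  have e1 := V_sh_step hq b (t + s)
  have e2 := V_sh_step hq (cmp e) s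
  have e3 := V_sh_cmp hq e (s + 1)
  rw [sh_sh] at hag
  have key : q ^ (s + 1) * (V q (sh t b) - kap q) =
      (((b (t + s) : Fin 2) : ℕ) : ℝ) - (((cmp e s : Fin 2) : ℕ) : ℝ) +
        V q (sh (t + s + 1) b) - 1 / (q - 1) + V q (sh (s + 1) e) := by
    rw [pow_succ, show q ^ s * q * (V q (sh t b) - kap q) =
      q * (q ^ s * (V q (sh t b) - kap q)) by ring, hag, mul_sub, e1, e2, e3]
    ring
  simp only [sh_apply, cmp_apply] at h1 h2
  have hkk := kap_eq hq
  rcases fin2_cases (b (t + s)) with ha | ha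
  · exfalso
    have hb' : e s = 0 := by
      rcases fin2_cases (e s) with hb' | hb'
      · exact hb'
      · exfalso; apply h1; rw [ha, hb']; rfl
    have l1 := (hb (t + s)).1 ha
    have l2 := (he s).1 hb'
    have l3 : cmp e s = 1 := cmp_eq_one.mpr hb'
    rw [ha, l3] at key
    simp only [Fin.val_one, Nat.cast_one, Fin.val_zero, Nat.cast_zero] at key
    unfold ex at ht
    have : 0 < q ^ (s + 1) * (V q (sh t b) - kap q) := by positivity
    linarith
  · have hb' : e s = 1 := by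
      rcases fin2_cases (e s) with hb' | hb'
      · exfalso; apply h1; rw [ha, hb']; rfl
      · exact hb'
    refine ⟨s, h2, ha, hb', ?_⟩
    have l3 : cmp e s = 0 := cmp_eq_zero.mpr hb'
    rw [ha, l3] at key
    unfold ex
    rw [key]
    simp only [Fin.val_one, Nat.cast_one, Fin.val_zero, Nat.cast_zero, sub_zero]
    linarith

end Pool.Agent.V11309.Uni
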