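import Mathlib
import Pool.Agent.V11309.Uni.Weak

/-! Block modifications of weakly univoque sequences. -/

namespace Pool.Agent.V11309.Uni

open Filter Topology

section

variable {q : ℝ} {α : ℕ → Fin 2}

/-- Selection of a level `λ`. -/
lemma exists_levelW (hq : 1 < q) (hones : ∀ A, ∃ a, A ≤ a ∧ α a = 1) {ε₀ : ℝ}
    (hε₀ : 0 < ε₀) (hge : ∀ t, 1 ≤ t → α (t - 1) = 1 → ε₀ ≤ ex q α t) (hq2 : q < 2) :
    ∃ l : ℝ, 0 < l ∧ (∃ T, ∀ t, T ≤ t → 1 ≤ t → α (t - 1) = 1 → l < ex q α t) ∧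
      ∀ A, ∃ a, A ≤ a ∧ α a = 1 ∧ ex q α (a + 1) ≤ q * l := by
  have h0 : 0 < q := by linarith
  let S : Set ℝ := {l | ∃ T, ∀ t, T ≤ t → 1 ≤ t → α (t - 1) = 1 → l < ex q α t}
  have hS1 : ε₀ / 2 ∈ S := ⟨0, fun t _ h1 h2 => by have := hge t h1 h2; linarith⟩
  have hbdd : BddAbove S := by
    refine ⟨1 / (q - 1), ?_⟩
    rintro l ⟨T, hT⟩
    obtain ⟨a, ha, haα⟩ := hones T
    have := hT (a + 1) (by omega) (by omega) (by simpa using haα)
    have h2 := V_le hq (sh (a + 1) α)
    have h3 := kap_pos hq hq2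
    unfold ex at this
    linarith
  set s := sSup S with hs
  have hs1 : ε₀ / 2 ≤ s := le_csSup hbdd hS1
  have hspos : 0 < s := by linarith
  have hlt : s / q < s := div_lt_self hspos hq
  obtain ⟨l, hl, hsl⟩ := exists_lt_of_lt_csSup ⟨_, hS1⟩ hlt
  have hlpos : 0 < l := by
    have : 0 < s / q := by positivity
    linarith
  refine ⟨l, hlpos, hl, ?_⟩
  intro A
  have hql : s < q * l := by
    rw [div_lt_iff₀ h0] at hsl; linarith
  by_contra hcon
  push Not at hcon
  have : q * l ∈ S := by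
    refine ⟨A + 1, fun t h1 h2 h3 => ?_⟩
    have := hcon (t - 1) (by omega) h3
    rwa [show t - 1 + 1 = t by omega] at this
  have := le_csSup hbdd this
  linarith

/-- Uniform interior estimate. -/
lemma interiorAW (hq : 1 < q) (hq2 : q < 2) (hα : V q α = 1) (hW : WU q α) {ε₀ l : ℝ} {T : ℕ}
    (hε₀ : 0 < ε₀) (hge : ∀ t, 1 ≤ t → α (t - 1) = 1 → ε₀ ≤ ex q α t)
    (hT : ∀ t, T ≤ t → 1 ≤ t → α (t - 1) = 1 → l < ex q α t) (hl : 0 < l) :
    ∃ A₁ : ℕ, ∃ μ : ℝ, 0 < μ ∧ ∀ a, A₁ ≤ a → α a = 1 → ex q α (a + 1) ≤ q * l →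
      ∀ w : ℝ, 1 - w ≤ ε₀ / 2 → ∀ t, 1 ≤ t → t ≤ a → α (t - 1) = 1 →
        V q (sh (a + 1) α) + 1 - w + μ * q ^ (a + 1 - t) ≤ q ^ (a + 1 - t) * ex q α t := by
  have h0 : 0 < q := by linarith
  have hq1 : 0 < q - 1 := by linarith
  have hk := kap_pos hq hq2
  have hkk := kap_eq hq
  obtain ⟨C, hC⟩ := pow_unbounded_of_one_lt ((1 / (q - 1)) / min (kap q) ε₀) hq
  have hmin : 0 < min (kap q) ε₀ := lt_min hk hε₀
  rw [div_lt_iff₀ hmin] at hC
  refine ⟨T + C, ε₀ / 2 * ((q - 1) * ε₀ / 2), by positivity, ?_⟩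
  intro a ha haα hexa w hw t ht hta hd
  have hext : 0 < ex q α t := by
    have := hge t ht hd
    linarith
  obtain ⟨s, s1, s2, s3, s4'⟩ := first_diffW hq hq2 hW hW hα hext
  have s4 : q ^ (s + 1) * ex q α t = V q (sh (t + s + 1) α) + ex q α (s + 1) := by
    rw [s4']; unfold ex; ring
  have hes : ε₀ ≤ ex q α (s + 1) := hge (s + 1) (by omega) (by simpa using s3)
  have hza := V_le hq (sh (a + 1) α)
  -- bound on q^(s+1)
  have hM : q ^ (s + 1) * ((q - 1) * ε₀ / 2) ≤ 1 := by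
    have h1 : q ^ (s + 1) * ε₀ ≤ q ^ (s + 1) * ex q α t := by
      have := hge t ht hd
      gcongr
    have h2 := V_le hq (sh (t + s + 1) α)
    have h3 := V_le hq (sh (s + 1) α)
    have h4 : ex q α (s + 1) ≤ 1 / (q - 1) := by unfold ex; linarith
    have h5 : q ^ (s + 1) * ε₀ ≤ 2 / (q - 1) := by
      have : 2 / (q - 1) = 1 / (q - 1) + 1 / (q - 1) := by ring
      rw [this]; linarith
    rw [le_div_iff₀ hq1] at h5
    linarith
  have hbigC : ∀ c, C ≤ c → 1 / (q - 1) < q ^ c * min (kap q) ε₀ := by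
    intro c hc
    have : q ^ C ≤ q ^ c := pow_le_pow_right₀ hq.le hc
    nlinarith
  rcases lt_trichotomy (t + s) a with h | h | h
  · obtain ⟨c, hc, hc2⟩ : ∃ c, a + 1 - t = (s + 1) + c ∧ t + s + 1 + c = a + 1 :=
      ⟨a - t - s, by omega, by omega⟩
    have hc1 : 1 ≤ c := by omega
    rw [hc, pow_add]
    have e : q ^ (s + 1) * q ^ c * ex q α t = q ^ c * (q ^ (s + 1) * ex q α t) := by ring
    rw [e, s4]
    have hqc : q ≤ q ^ c := by
      calc q = q ^ 1 := by ring
        _ ≤ q ^ c := pow_le_pow_right₀ hq.le hc1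
    have hext' : ε₀ ≤ ex q α (t + s + 1) := hge (t + s + 1) (by omega) (by simpa using s2)
    have hzt' : V q (sh (t + s + 1) α) = kap q + ex q α (t + s + 1) := by unfold ex; ring
    have hmain : V q (sh (a + 1) α) ≤ q ^ c * V q (sh (t + s + 1) α) := by
      have hVpos : 0 ≤ V q (sh (t + s + 1) α) := V_nonneg hq _
      rcases Nat.lt_or_ge (t + s + 1) T with h1 | h1
      · have h2 := hbigC c (by omega)
        have h3 : q ^ c * min (kap q) ε₀ ≤ q ^ c * V q (sh (t + s + 1) α) := by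
          have : min (kap q) ε₀ ≤ V q (sh (t + s + 1) α) := by
            rw [hzt']
            have := min_le_left (kap q) ε₀
            linarith
          exact mul_le_mul_of_nonneg_left this (by positivity)
        linarith
      · have h2 := hT (t + s + 1) h1 (by omega) (by simpa using s2)
        have h3 : V q (sh (a + 1) α) ≤ kap q + q * l := by
          unfold ex at hexa; linarith
        have h4 : q * V q (sh (t + s + 1) α) ≤ q ^ c * V q (sh (t + s + 1) α) :=
          mul_le_mul_of_nonneg_right hqc hVpos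
        have h10 : q * (kap q + l) ≤ q * V q (sh (t + s + 1) α) := by
          rw [hzt']
          exact mul_le_mul_of_nonneg_left (by linarith) h0.le
        have h11 : kap q ≤ q * kap q := by nlinarith
        have h12 : q * (kap q + l) = q * kap q + q * l := by ring
        linarith
    have hqcpos : 0 < q ^ c := by positivity
    have hμ : ε₀ / 2 * ((q - 1) * ε₀ / 2) * (q ^ (s + 1) * q ^ c) ≤ ε₀ / 2 * q ^ c := by
      have h8 : 0 < ε₀ / 2 * q ^ c := by positivity
      calc ε₀ / 2 * ((q - 1) * ε₀ / 2) * (q ^ (s + 1) * q ^ c)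
          = (ε₀ / 2 * q ^ c) * (q ^ (s + 1) * ((q - 1) * ε₀ / 2)) := by ring
        _ ≤ (ε₀ / 2 * q ^ c) * 1 := mul_le_mul_of_nonneg_left hM h8.le
        _ = ε₀ / 2 * q ^ c := by ring
    have h5 : q ^ c * ε₀ ≤ q ^ c * ex q α (s + 1) := mul_le_mul_of_nonneg_left hes hqcpos.le
    have h6 : 1 ≤ q ^ c := by linarith
    have h7 : ε₀ / 2 * 1 ≤ ε₀ / 2 * q ^ c := mul_le_mul_of_nonneg_left h6 (by positivity)
    have h9 : q ^ c * (V q (sh (t + s + 1) α) + ex q α (s + 1)) =
        q ^ c * V q (sh (t + s + 1) α) + q ^ c * ex q α (s + 1) := by ring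
    rw [h9]
    linarith
  · have e : a + 1 - t = s + 1 := by omega
    rw [e, s4, h]
    have hμ : ε₀ / 2 * ((q - 1) * ε₀ / 2) * q ^ (s + 1) ≤ ε₀ / 2 := by
      calc ε₀ / 2 * ((q - 1) * ε₀ / 2) * q ^ (s + 1)
          = (ε₀ / 2) * (q ^ (s + 1) * ((q - 1) * ε₀ / 2)) := by ring
        _ ≤ (ε₀ / 2) * 1 := mul_le_mul_of_nonneg_left hM (by positivity)
        _ = ε₀ / 2 := by ring
    linarith
  · exfalso
    have hag : ∀ i < a + 1 - t, sh t α i = cmp α i := fun i hi => s1 i (by omega)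
    have hV := V_agree hq hag
    have hVc : V q (cmp α) = kap q := by rw [V_cmp hq, hα, kap_eq hq]
    rw [hVc, sh_sh, show t + (a + 1 - t) = a + 1 by omega, sh_cmp, V_cmp hq] at hV
    have hlast := s1 (a - t) (by omega)
    rw [show t + (a - t) = a by omega, haα] at hlast
    have hz : α (a - t) = 0 := by
      rcases fin2_cases (α (a - t)) with hb | hb
      · exact hb
      · rw [hb] at hlast; simp at hlast
    have l1 := (hW (a - t)).1 hz
    rw [show a - t + 1 = a + 1 - t by omega] at l1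
    have hcon : q ^ (a + 1 - t) * ex q α t ≤ ex q α (a + 1) := by
      unfold ex; linarith
    rcases Nat.lt_or_ge t T with h1 | h1
    · have h2 := hbigC (a + 1 - t) (by omega)
      have h3 : q ^ (a + 1 - t) * min (kap q) ε₀ ≤ q ^ (a + 1 - t) * ex q α t := by
        have := hge t ht hd
        have := min_le_right (kap q) ε₀
        gcongr
        linarith
      have h4 : ex q α (a + 1) ≤ 1 / (q - 1) := by unfold ex; linarith
      linarith
    · have h2 := hT t h1 ht hd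
      have hqc : q ≤ q ^ (a + 1 - t) := by
        calc q = q ^ 1 := by ring
          _ ≤ q ^ (a + 1 - t) := pow_le_pow_right₀ hq.le (by omega)
      nlinarith

end

end Pool.Agent.V11309.Uni
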