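import Mathlib
import Pool.Agent.V11309.Uni.WeakA

/-! Upper semicontinuity from the right of the smallest univoque base. -/

namespace Pool.Agent.V11309.Uni

open Filter Topology

/-- Value identity for `app`. -/
lemma app_gen {q : ℝ} (hq : 1 < q) {b : ℕ → Fin 2} (τ : ℕ → Fin 2) {n t : ℕ} (hn : b n = 1)
    (ht : t ≤ n) : q ^ (n + 1 - t) * (V q (sh t b) - V q (sh t (app b n τ))) =
      1 + V q (sh (n + 1) b) - V q τ := by
  have h0 : q ≠ 0 := by linarith
  have hag : ∀ i < n - t, sh t b i = sh t (app b n τ) i := by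
    intro i hi
    simp only [sh_apply]
    rw [app_lt (by omega)]
  have h1 := V_agree hq hag
  rw [sh_sh, sh_sh, show t + (n - t) = n by omega] at h1
  have e1 := V_sh_step hq b n
  have e2 := V_sh_step hq (app b n τ) n
  rw [app_eq, sh_app] at e2
  rw [hn] at e1
  simp only [Fin.val_one, Nat.cast_one, Fin.val_zero, Nat.cast_zero, zero_add] at e1 e2
  rw [show n + 1 - t = (n - t) + 1 by omega, pow_succ,
    show q ^ (n - t) * q * (V q (sh t b) - V q (sh t (app b n τ))) =
      q * (q ^ (n - t) * (V q (sh t b) - V q (sh t (app b n τ)))) by ring, h1, mul_sub, e1, e2]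

/-- General criterion for `app b n e`. -/
lemma WU_app {q : ℝ} (hq : 1 < q) {b e : ℕ → Fin 2} (hb : WU q b)
    (he : WU q e) (heV : V q e = 1) {n : ℕ} (hn : b n = 1)
    (h : ∀ i < n, b i = 1 → kap q ≤ V q (sh (i + 1) (app b n e))) : WU q (app b n e) := by
  have h0 : 0 < q := by linarith
  intro i
  rcases lt_trichotomy i n with hi | hi | hi
  · have e1 : app b n e i = b i := app_lt hi
    rw [e1]
    refine ⟨fun hd => ?_, h i hi⟩
    have h1 := app_gen hq e (t := i + 1) hn (by omega)
    have h2 := (hb i).1 hd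
    have h3 := V_nonneg hq (sh (n + 1) b)
    rw [heV] at h1
    have h4 : 0 < q ^ (n + 1 - (i + 1)) := by positivity
    by_contra hcon
    push Not at hcon
    have : q ^ (n + 1 - (i + 1)) * (V q (sh (i + 1) b) - V q (sh (i + 1) (app b n e))) < 0 :=
      mul_neg_of_pos_of_neg h4 (by linarith)
    linarith
  · rw [hi, app_eq, sh_app, heV]
    exact ⟨fun _ => le_rfl, fun h => absurd h (by decide)⟩
  · obtain ⟨k, hk⟩ : ∃ k, i = n + 1 + k := ⟨i - n - 1, by omega⟩
    have e5 : app b n e i = e k := by
      rw [hk]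
      have := congrFun (sh_app b n e) k
      simpa using this
    have e6 : sh (i + 1) (app b n e) = sh (k + 1) e := by
      have h1 : sh (i + 1) (app b n e) = sh (k + 1) (sh (n + 1) (app b n e)) := by
        rw [sh_sh]; congr 1; omega
      rw [h1, sh_app]
    rw [e5, e6]
    exact he k

/-- Record positions. -/
lemma WU_app_rec {q : ℝ} (hq : 1 < q) (hq2 : q < 2) {b e : ℕ → Fin 2} (hb : SU q b)
    (he : WU q e) (heV : V q e = 1) {n : ℕ} (hn : IsRec q b n) : WU q (app b n e) := by
  have h0 : 0 < q := by linarith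
  have hkk := kap_eq hq
  refine WU_app hq hb.WU he heV hn.1 ?_
  intro i hi hd
  have h1 := app_gen hq e (t := i + 1) hn.1 (by omega)
  rw [heV] at h1
  have hex : 0 < ex q b (i + 1) := ex_pos hb (by omega) (by simpa using hd)
  have hrec : ex q b (n + 1) < ex q b (i + 1) := hn.2 (i + 1) (by omega) (by omega)
    (by simpa using hd)
  obtain ⟨s, s1, s2, s3, s4⟩ := first_diffW hq hq2 hb.WU he heV hex
  have hes := (he s).2 s3
  have hpow : 0 < q ^ (n + 1 - (i + 1)) := by positivity
  have hmain : V q (sh (n + 1) b) ≤ q ^ (n + 1 - (i + 1)) * ex q b (i + 1) := by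
    have hzn : V q (sh (n + 1) b) = kap q + ex q b (n + 1) := by unfold ex; ring
    rcases lt_trichotomy (i + 1 + s) n with h | h | h
    · obtain ⟨c, hc, hc1⟩ : ∃ c, n + 1 - (i + 1) = (s + 1) + c ∧ 1 ≤ c :=
        ⟨n - (i + 1) - s, by omega, by omega⟩
      rw [hc, pow_add, show q ^ (s + 1) * q ^ c * ex q b (i + 1) =
        q ^ c * (q ^ (s + 1) * ex q b (i + 1)) by ring, s4]
      have h2 := hn.2 (i + 1 + s + 1) (by omega) (by omega) (by simpa using s2)
      have hqc : 1 ≤ q ^ c := one_le_pow₀ hq.le
      have hnn : 0 < V q (sh (n + 1) b) := by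
        have := (hb n).2 hn.1
        have := kap_pos hq hq2
        linarith
      have h3 : V q (sh (n + 1) b) ≤ V q (sh (s + 1) e) + ex q b (i + 1 + s + 1) := by linarith
      calc V q (sh (n + 1) b) = 1 * V q (sh (n + 1) b) := by ring
        _ ≤ q ^ c * (V q (sh (s + 1) e) + ex q b (i + 1 + s + 1)) := by
          apply mul_le_mul hqc h3 hnn.le (by positivity)
    · rw [show n + 1 - (i + 1) = s + 1 by omega, s4, show i + 1 + s + 1 = n + 1 by omega]
      linarith
    · exfalso
      have hag : ∀ j < n + 1 - (i + 1), sh (i + 1) b j = cmp e j :=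
        fun j hj => s1 j (by omega)
      have hV := V_agree hq hag
      have hVc : V q (cmp e) = kap q := by rw [V_cmp hq, heV, hkk]
      rw [hVc, sh_sh, show i + 1 + (n + 1 - (i + 1)) = n + 1 by omega, V_sh_cmp hq] at hV
      have hlast := s1 (n - (i + 1)) (by omega)
      rw [show i + 1 + (n - (i + 1)) = n by omega, hn.1] at hlast
      have hz : e (n - (i + 1)) = 0 := by
        rcases fin2_cases (e (n - (i + 1))) with hb' | hb'
        · exact hb'
        · rw [hb'] at hlast; simp at hlast
      have l1 := (he (n - (i + 1))).1 hz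
      rw [show n - (i + 1) + 1 = n + 1 - (i + 1) by omega] at l1
      have hcon : q ^ (n + 1 - (i + 1)) * ex q b (i + 1) ≤ ex q b (n + 1) := by
        unfold ex; linarith
      have hqc : 1 ≤ q ^ (n + 1 - (i + 1)) := one_le_pow₀ hq.le
      have : ex q b (i + 1) ≤ q ^ (n + 1 - (i + 1)) * ex q b (i + 1) := by
        calc ex q b (i + 1) = 1 * ex q b (i + 1) := by ring
          _ ≤ _ := mul_le_mul_of_nonneg_right hqc hex.le
      linarith
  by_contra hcon
  push Not at hcon
  have h2 : q ^ (n + 1 - (i + 1)) * (V q (sh (i + 1) b) - V q (sh (i + 1) (app b n e))) >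
      q ^ (n + 1 - (i + 1)) * ex q b (i + 1) := by
    apply mul_lt_mul_of_pos_left _ hpow
    unfold ex; linarith
  linarith

/-- Tails close to `κ` after ones yield an expansion of one. -/
lemma exists_one_of_PropP {q : ℝ} (hq : 1 < q) {b : ℕ → Fin 2} (hb : WU q b)
    (hP : PropP q b) : ∃ e, V q e = 1 ∧ WU q e := by
  have hkk := kap_eq hq
  have hch : ∀ k : ℕ, ∃ t, 1 ≤ t ∧ b (t - 1) = 1 ∧ ex q b t < 1 / ((k : ℝ) + 1) :=
    fun k => hP _ (by positivity)
  choose t t1 t2 t3 using hch
  obtain ⟨a, φ, hφ, ha⟩ := exists_limit_seq (fun k => cmp (sh (t k) b))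
  refine ⟨a, ?_, WU_limit hq tendsto_const_nhds ha (fun k => (hb.shift _).cmp hq)⟩
  have h1 := V_tendsto hq (tendsto_const_nhds (x := q)) ha
  refine tendsto_nhds_unique h1 ?_
  have h2 : Tendsto (fun k : ℕ => 1 - 1 / ((k : ℝ) + 1)) atTop (𝓝 1) := by
    have := (tendsto_const_nhds (x := (1 : ℝ))).sub tendsto_one_div_add_atTop_nhds_zero_nat
    simpa using this
  refine tendsto_of_tendsto_of_tendsto_of_le_of_le (h2.comp hφ.tendsto_atTop)
    tendsto_const_nhds (fun k => ?_) (fun k => ?_)
  · simp only [Function.comp]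
    rw [V_cmp hq]
    have := t3 (φ k)
    unfold ex at this
    linarith
  · simp only
    rw [V_cmp hq]
    have := (hb (t (φ k) - 1)).2 (t2 (φ k))
    rw [show t (φ k) - 1 + 1 = t (φ k) by have := t1 (φ k); omega] at this
    linarith

/-- Modification at arbitrarily late positions. -/
lemma exists_mod {q : ℝ} (hq : 1 < q) (hq2 : q < 2) {b : ℕ → Fin 2} (hb : SU q b)
    (hgap : ¬ ∃ η : ℝ, 0 < η ∧ ∀ n, (b n = 0 → V q (sh (n + 1) b) + η ≤ 1) ∧
      (b n = 1 → kap q + η ≤ V q (sh (n + 1) b))) (N : ℕ) :
    ∃ n, N ≤ n ∧ b n = 1 ∧ ∃ e, V q e = 1 ∧ WU q (app b n e) := by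
  have h0 : 0 < q := by linarith
  have hq1 : 0 < q - 1 := by linarith
  by_cases hP : PropP q b
  · obtain ⟨e, he1, he2⟩ := exists_one_of_PropP hq hb.WU hP
    obtain ⟨n, n1, n2, _⟩ := exists_rec hb hP (ε := 1) one_pos N
    exact ⟨n, n1, n2.1, e, he1, WU_app_rec hq hq2 hb he2 he1 n2⟩
  · unfold PropP at hP
    push Not at hP
    obtain ⟨η, hη, hge⟩ := hP
    push Not at hgap
    -- digits zero with tails close to one
    have hch : ∀ k : ℕ, ∃ n, b n = 0 ∧ 1 - 1 / ((k : ℝ) + 1) < V q (sh (n + 1) b) := by
      intro k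
      have hpos : 0 < min η (1 / ((k : ℝ) + 1)) := lt_min hη (by positivity)
      obtain ⟨n, hn⟩ := hgap _ hpos
      have hn1 : b n = 0 := by
        rcases fin2_cases (b n) with h | h
        · exact h
        · exfalso
          have h2 := hn (fun h' => by rw [h] at h'; exact absurd h' (by decide))
          have h3 := hge (n + 1) (by omega) (by simpa using h)
          have h4 := min_le_left η (1 / ((k : ℝ) + 1))
          unfold ex at h3
          linarith [h2.2]
      refine ⟨n, hn1, ?_⟩
      by_contra hcon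
      push Not at hcon
      have h4 := min_le_right η (1 / ((k : ℝ) + 1))
      have h5 := hn (fun _ => by linarith)
      rw [hn1] at h5
      exact absurd h5.1 (by decide)
    choose m m1 m2 using hch
    obtain ⟨e, φ, hφ, he⟩ := exists_limit_seq (fun k => sh (m k + 1) b)
    have heW : WU q e := WU_limit hq tendsto_const_nhds he (fun k => hb.WU.shift _)
    have hlim := V_tendsto hq (tendsto_const_nhds (x := q)) he
    have heV : V q e = 1 := by
      refine tendsto_nhds_unique hlim ?_
      have h2 : Tendsto (fun k : ℕ => 1 - 1 / ((k : ℝ) + 1)) atTop (𝓝 1) := by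
        have := (tendsto_const_nhds (x := (1 : ℝ))).sub tendsto_one_div_add_atTop_nhds_zero_nat
        simpa using this
      refine tendsto_of_tendsto_of_tendsto_of_le_of_le (h2.comp hφ.tendsto_atTop)
        tendsto_const_nhds (fun k => (m2 (φ k)).le) (fun k => ((hb (m (φ k))).1 (m1 (φ k))).le)
    have hege : ∀ t, 1 ≤ t → e (t - 1) = 1 → η ≤ ex q e t := by
      intro t ht hd
      have h1 : Tendsto (fun k => V q (sh t (sh (m (φ k) + 1) b))) atTop (𝓝 (V q (sh t e))) :=
        V_tendsto hq tendsto_const_nhds (fun i => he _)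
      have h2 : η + kap q ≤ V q (sh t e) := by
        refine ge_of_tendsto h1 ?_
        filter_upwards [he (t - 1)] with k hk
        rw [sh_sh]
        have h3 := hge (m (φ k) + 1 + t) (by omega) (by
          rw [hd] at hk
          simp only [sh_apply] at hk
          rw [← hk]; congr 1; omega)
        unfold ex at h3
        linarith
      unfold ex; linarith
    have hones := ones_infW hq hq2 heV heW
    obtain ⟨l, hl, ⟨T, hT⟩, hgood⟩ := exists_levelW hq hones hη hege hq2
    obtain ⟨A₁, μ, hμ, hint⟩ := interiorAW hq hq2 heV heW hη hege hT hl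
    obtain ⟨B, hB⟩ := pow_unbounded_of_one_lt ((1 / (q - 1)) / η) hq
    rw [div_lt_iff₀ hη] at hB
    obtain ⟨a, ha1, ha2, ha3⟩ := hgood (max A₁ (max B N))
    have haA : A₁ ≤ a := le_trans (le_max_left _ _) ha1
    have haB : B ≤ a := le_trans (le_trans (le_max_left _ _) (le_max_right _ _)) ha1
    have haN : N ≤ a := le_trans (le_trans (le_max_right _ _) (le_max_right _ _)) ha1
    have hev : ∀ᶠ k in atTop, ∀ i ∈ Finset.range (a + 1), sh (m (φ k) + 1) b i = e i :=
      (Filter.eventually_all_finset _).mpr (fun i _ => he i)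
    obtain ⟨k, hk⟩ := hev.exists
    set M := m (φ k) with hM
    have hMb : b M = 0 := m1 (φ k)
    have hagree : ∀ i ≤ a, b (M + 1 + i) = e i :=
      fun i hi => hk i (Finset.mem_range.mpr (by omega))
    have hbn : b (M + 1 + a) = 1 := by rw [hagree a le_rfl, ha2]
    refine ⟨M + 1 + a, by omega, hbn, e, heV, WU_app hq hb.WU heW heV hbn ?_⟩
    intro i hi hd
    have h1 := app_gen hq e (t := i + 1) hbn (by omega)
    rw [heV] at h1
    have hVn := V_le hq (sh (M + 1 + a + 1) b)
    rcases lt_trichotomy i M with h | h | h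
    · have h2 := hge (i + 1) (by omega) (by simpa using hd)
      have h3 : q ^ B ≤ q ^ (M + 1 + a + 1 - (i + 1)) := pow_le_pow_right₀ hq.le (by omega)
      have h4 : q ^ B * η ≤ q ^ (M + 1 + a + 1 - (i + 1)) * η :=
        mul_le_mul_of_nonneg_right h3 hη.le
      by_contra hcon
      push Not at hcon
      have hpow : 0 < q ^ (M + 1 + a + 1 - (i + 1)) := by positivity
      have h5 : q ^ (M + 1 + a + 1 - (i + 1)) * η <
          q ^ (M + 1 + a + 1 - (i + 1)) *
            (V q (sh (i + 1) b) - V q (sh (i + 1) (app b (M + 1 + a) e))) := by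
        apply mul_lt_mul_of_pos_left _ hpow
        unfold ex at h2; linarith
      linarith
    · exfalso; rw [h, hMb] at hd; exact absurd hd (by decide)
    · obtain ⟨t', ht', ht1⟩ : ∃ t', i + 1 = M + 1 + t' ∧ 1 ≤ t' := ⟨i - M, by omega, by omega⟩
      have hta : t' ≤ a := by omega
      have hed : e (t' - 1) = 1 := by
        rw [← hagree (t' - 1) (by omega), ← hd]; congr 1; omega
      have hseq : sh (i + 1) (app b (M + 1 + a) e) = sh t' (app e a e) := by
        funext j
        simp only [sh_apply]
        rw [ht']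
        rcases lt_trichotomy (t' + j) a with hj | hj | hj
        · rw [app_lt (by omega), app_lt hj, ← hagree (t' + j) (by omega)]
          congr 1; omega
        · rw [show M + 1 + t' + j = M + 1 + a by omega, hj, app_eq, app_eq]
        · have e1 := congrFun (sh_app b (M + 1 + a) e) (t' + j - a - 1)
          have e2 := congrFun (sh_app e a e) (t' + j - a - 1)
          simp only [sh_apply] at e1 e2
          rw [show M + 1 + t' + j = M + 1 + a + 1 + (t' + j - a - 1) by omega, e1,
            show t' + j = a + 1 + (t' + j - a - 1) by omega, e2]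
          congr 1; omega
      rw [hseq]
      have h5 := hint a haA ha2 ha3 (V q e) (by rw [heV]; linarith) t' ht1 hta hed
      have h6 := app_one hq heV ha2 (τ := e) (μ := μ) hta h5
      linarith

end Pool.Agent.V11309.Uni
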