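import Mathlib
import Pool.Agent.V11309.Uni.WeakB

/-! Upper semicontinuity from the right of the smallest univoque base. -/

namespace Pool.Agent.V11309.Uni

open Filter Topology

/-- Upper semicontinuity from the right. -/
lemma right_usc {p q x : ℝ} (hp : p ∈ Ux x) (hpq : p < q) (hq2 : q ≤ 2) (hx : 0 < x) :
    ∃ ε : ℝ, 0 < ε ∧ ∀ x', x < x' → x' < x + ε → ∃ r ∈ Ux x', r < q := by
  obtain ⟨hp1, hp2, c, hc1, hc2⟩ := mem_Ux_iff.mp hp
  obtain ⟨i, hi⟩ := exists_one_of_pos hp1 (by rw [hc1]; exact hx)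
  have hq : 1 < q := by linarith
  have hkp := kap_eq hp1
  set b := cmp c with hb
  have hbS : SU p b := hc2.cmp hp1
  have hbc : ∀ n, V p (sh n b) = 1 / (p - 1) - V p (sh n c) := fun n => V_sh_cmp hp1 c n
  by_cases hgap : ∃ η : ℝ, 0 < η ∧ ∀ n, (b n = 0 → V p (sh (n + 1) b) + η ≤ 1) ∧
      (b n = 1 → kap p + η ≤ V p (sh (n + 1) b))
  · obtain ⟨η, hη, hall⟩ := hgap
    obtain ⟨p0, p1, p2, _, p4⟩ := exists_near hp1 hη one_pos
    have hk0 := kap_eq p1
    have hSU : SU p0 c := by
      intro n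
      have hlow := V_anti p1 p2.le (sh (n + 1) c)
      have hup := V_diff p1 p2.le (sh (n + 1) c)
      have hn := hbc (n + 1)
      constructor
      · intro h0
        have h1 := (hall n).2 (cmp_eq_one.mpr h0)
        linarith
      · intro h0
        have h1 := (hall n).1 (cmp_eq_zero.mpr h0)
        linarith
    have hlt := V_anti_strict p1 p2 c hi
    rw [hc1] at hlt
    refine ⟨V p0 c - x, by linarith, fun x' h1 h2 => ?_⟩
    obtain ⟨r, r1, r2, r3⟩ := ivt_base p1 p2 (d := c) (x := x') (by rw [hc1]; exact h1)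
      (by linarith)
    exact ⟨r, mem_Ux_iff.mpr ⟨by linarith, by linarith, c, r3, hSU.WU.toSU p1 r1⟩, by linarith⟩
  · have hlt := V_anti_strict hp1 hpq c hi
    rw [hc1] at hlt
    have hxq : 0 < x - V q c := by linarith
    obtain ⟨N, hN⟩ := pow_unbounded_of_one_lt ((1 + 1 / (q - 1)) / (x - V q c)) hq
    rw [div_lt_iff₀ hxq] at hN
    have hp2' : p < 2 := by linarith
    obtain ⟨n, n1, n2, e, e1, e2⟩ := exists_mod hp1 hp2' hbS hgap N
    set c' := cmp (app b n e) with hc'
    have hW : WU p c' := e2.cmp hp1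
    have hV1 : x < V p c' := by
      have h1 := app_gen hp1 e (t := 0) n2 (by omega)
      rw [e1, sh_zero, sh_zero] at h1
      have h2 : kap p < V p (sh (n + 1) b) := (hbS n).2 n2
      have h3 := kap_pos hp1 hp2'
      have h4 : V p c' = 1 / (p - 1) - V p (app b n e) := V_cmp hp1 _
      have h5 : V p b = 1 / (p - 1) - V p c := V_cmp hp1 _
      have hpow : 0 < p ^ (n + 1 - 0) := by positivity
      by_contra hcon
      push Not at hcon
      have : p ^ (n + 1 - 0) * (V p b - V p (app b n e)) ≤ 0 :=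
        mul_nonpos_of_nonneg_of_nonpos hpow.le (by linarith)
      linarith
    have hV2 : V q c' < x := by
      have h1 := app_gen hq e (t := 0) n2 (by omega)
      rw [sh_zero, sh_zero] at h1
      have h2 := V_le hq (sh (n + 1) b)
      have h3 := V_nonneg hq e
      have h4 : V q c' = 1 / (q - 1) - V q (app b n e) := V_cmp hq _
      have h5 : V q b = 1 / (q - 1) - V q c := V_cmp hq _
      have h6 : q ^ N ≤ q ^ (n + 1 - 0) := pow_le_pow_right₀ hq.le (by omega)
      have h7 : q ^ N * (x - V q c) ≤ q ^ (n + 1 - 0) * (x - V q c) :=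
        mul_le_mul_of_nonneg_right h6 hxq.le
      have hpow : 0 < q ^ (n + 1 - 0) := by positivity
      by_contra hcon
      push Not at hcon
      have : q ^ (n + 1 - 0) * (x - V q c) ≤ q ^ (n + 1 - 0) * (V q b - V q (app b n e)) :=
        mul_le_mul_of_nonneg_left (by linarith) hpow.le
      linarith
    refine ⟨V p c' - x, by linarith, fun x' h1 h2 => ?_⟩
    obtain ⟨r, r1, r2, r3⟩ := ivt_base hp1 hpq (d := c') (x := x') (by linarith)
      (by linarith)
    exact ⟨r, mem_Ux_iff.mpr ⟨by linarith, by linarith, c', r3, hW.toSU hp1 r1⟩, r2⟩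

end Pool.Agent.V11309.Uni
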