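import Mathlib
import Pool.Agent.V11309.Uni.WeakC

/-! Approximation from the left of bases in which one has a weakly univoque expansion. -/

namespace Pool.Agent.V11309.Uni

open Filter Topology

section

variable {q : ℝ} {α : ℕ → Fin 2}

/-- `per` satisfies the strict condition in nearby smaller bases. -/
lemma SU_perW (hq : 1 < q) (hα : V q α = 1) (hW : WU q α) {p : ℕ} (hpα : α p = 1) {μ : ℝ}
    (hint : ∀ t, 1 ≤ t → t ≤ p → α (t - 1) = 1 →
      V q (sh (p + 1) α) + 1 - V q (per α p) + μ * q ^ (p + 1 - t) ≤ q ^ (p + 1 - t) * ex q α t)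
    (hv : V q (per α p) ≤ 1)
    {r : ℝ} (hr : 1 < r) (hrq : r ≤ q) (hD1 : 1 / (r - 1) - 1 / (q - 1) < μ)
    (hD3 : 1 / (r - 1) - 1 / (q - 1) < 1 - V q (per α p)) :
    SU r (per α p) := by
  intro n
  have e1 : per α p n = per α p (n % (p + 1)) := by
    have := congrFun (sh_per α p n) 0
    simpa using this
  have e2 : sh (n + 1) (per α p) = sh (n % (p + 1) + 1) (per α p) := by
    have h1 : sh (n + 1) (per α p) = sh 1 (sh n (per α p)) := by rw [sh_sh]
    rw [h1, sh_per, sh_sh]
  rw [e1, e2]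
  set m := n % (p + 1) with hm
  have hmp : m ≤ p := by
    have : n % (p + 1) < p + 1 := Nat.mod_lt n (Nat.succ_pos p)
    omega
  rcases Nat.lt_or_ge m p with h | h
  · have e3 : per α p m = α m := by rw [← per_app, app_lt h]
    have hlow := V_anti hr hrq (sh (m + 1) (per α p))
    have hup := V_diff hr hrq (sh (m + 1) (per α p))
    rw [e3]
    constructor
    · intro hd
      have h1 := app_value_sh hq hα (a := p) (t := m + 1) (by omega) (per α p)
      rw [per_app] at h1
      have h2 := (hW m).1 hd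
      have h3 : 1 ≤ q ^ (m + 1) := one_le_pow₀ hq.le
      have h4 : 1 * (1 - V q (per α p)) ≤ q ^ (m + 1) * (1 - V q (per α p)) :=
        mul_le_mul_of_nonneg_right h3 (by linarith)
      linarith
    · intro hd
      have h1 := app_one hq hα hpα (τ := per α p) (t := m + 1) (by omega)
        (hint (m + 1) (by omega) (by omega) (by simpa using hd))
      rw [per_app] at h1
      rw [kap_eq hq] at h1
      rw [kap_eq hr]
      linarith
  · have hmeq : m = p := by omega
    have e3 : per α p m = 0 := by rw [hmeq, ← per_app, app_eq]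
    have e4 : sh (m + 1) (per α p) = per α p := by
      rw [hmeq]
      conv_lhs => rw [← per_app]
      rw [sh_app]
    rw [e3, e4]
    refine ⟨fun _ => ?_, fun h => absurd h (by decide)⟩
    have := V_diff hr hrq (per α p)
    linarith

/-- Comparison of tails in a smaller base. -/
lemma tail_le {r q : ℝ} (hr : 1 < r) (hrq : r < q) {α β : ℕ → Fin 2} {n : ℕ}
    (hα : V q α = 1) (hβ : V r β = 1) (hag : ∀ i < n + 1, β i = α i)
    (h : V q (sh (n + 1) α) ≤ 1) : V r (sh (n + 1) β) < 1 := by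
  have hq : 1 < q := by linarith
  have s1 := V_split hr β (n + 1)
  have s2 := V_split hq α (n + 1)
  rw [hβ] at s1
  rw [hα] at s2
  have s3 := PS_anti hr hrq.le β (n + 1)
  have s4 : PS q β (n + 1) = PS q α (n + 1) := PS_congr hag
  rw [s4] at s3
  have s6 := V_nonneg hq (sh (n + 1) α)
  have hrn : 0 < r ^ (n + 1) := by positivity
  have hqn : 0 < q ^ (n + 1) := by positivity
  have hrqn : r ^ (n + 1) < q ^ (n + 1) := pow_lt_pow_left₀ hrq (by linarith) (by omega)
  have s7 : V r (sh (n + 1) β) / r ^ (n + 1) ≤ V q (sh (n + 1) α) / q ^ (n + 1) := by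
    linarith
  rw [div_le_div_iff₀ hrn hqn] at s7
  have s8 : V q (sh (n + 1) α) * r ^ (n + 1) ≤ 1 * r ^ (n + 1) :=
    mul_le_mul_of_nonneg_right h hrn.le
  have s9 : V r (sh (n + 1) β) * q ^ (n + 1) < 1 * q ^ (n + 1) := by
    linarith
  exact lt_of_mul_lt_mul_right s9 hqn.le

/-- Weak version of `left_limit`. -/
lemma left_limitW (hq : 1 < q) (hq2 : q < 2) (hα : V q α = 1) (hW : WU q α) {ε₀ : ℝ}
    (hε₀ : 0 < ε₀) (hge : ∀ t, 1 ≤ t → α (t - 1) = 1 → ε₀ ≤ ex q α t) {δ : ℝ} (hδ : 0 < δ) :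
    ∃ r, 1 < r ∧ q - δ < r ∧ r < q ∧ ∃ β, V r β = 1 ∧ WU r β := by
  have h0 : 0 < q := by linarith
  have hq1 : 0 < q - 1 := by linarith
  have hk := kap_pos hq hq2
  have hones := ones_infW hq hq2 hα hW
  obtain ⟨l, hl, ⟨T, hT⟩, hgood⟩ := exists_levelW hq hones hε₀ hge hq2
  obtain ⟨A₁, μ, hμ, hint⟩ := interiorAW hq hq2 hα hW hε₀ hge hT hl
  -- choose p
  obtain ⟨B, hB⟩ := pow_unbounded_of_one_lt (2 / (ε₀ * (q - 1)) + 1) hq
  obtain ⟨p, hp1, hp2, hp3⟩ := hgood (max A₁ B)
  have hpA : A₁ ≤ p := le_trans (le_max_left _ _) hp1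
  have hpB : B ≤ p := le_trans (le_max_right _ _) hp1
  set v := V q (per α p) with hv
  have hvid : q ^ (p + 1) * (1 - v) = V q (sh (p + 1) α) + 1 - v := by
    have := app_value hq hα hp2 (per α p)
    rwa [per_app, ← hv] at this
  have hzp : kap q ≤ V q (sh (p + 1) α) := (hW p).2 hp2
  have hzp2 := V_le hq (sh (p + 1) α)
  have hqB : 2 / (ε₀ * (q - 1)) + 1 < q ^ (p + 1) :=
    lt_of_lt_of_le hB (pow_le_pow_right₀ hq.le (by omega))
  have hpos2 : 0 < 2 / (ε₀ * (q - 1)) := by positivity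
  have hv1 : 0 < 1 - v := by
    by_contra hcon
    push Not at hcon
    have : (q ^ (p + 1) - 1) * (1 - v) = V q (sh (p + 1) α) := by linarith
    have : (q ^ (p + 1) - 1) * (1 - v) ≤ 0 :=
      mul_nonpos_of_nonneg_of_nonpos (by linarith) hcon
    linarith
  have hv2 : 1 - v ≤ ε₀ / 2 := by
    have h1 : (q ^ (p + 1) - 1) * (1 - v) = V q (sh (p + 1) α) := by linarith
    have h2 : 2 / (ε₀ * (q - 1)) * (1 - v) ≤ (q ^ (p + 1) - 1) * (1 - v) :=
      mul_le_mul_of_nonneg_right (by linarith) hv1.le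
    have h3 : 2 / (ε₀ * (q - 1)) * (1 - v) ≤ 1 / (q - 1) := by linarith
    rw [div_mul_eq_mul_div, div_le_div_iff₀ (by positivity) hq1] at h3
    have h4 : (q - 1) * (2 * (1 - v)) ≤ (q - 1) * ε₀ := by linarith
    have h5 := le_of_mul_le_mul_left h4 hq1
    linarith
  -- the base r₁
  obtain ⟨r₁, r1, r2, r3, r4⟩ := exists_near hq
    (show 0 < min μ (1 - v) from lt_min hμ hv1) hδ
  have hDm : 1 / (r₁ - 1) - 1 / (q - 1) < μ := lt_of_lt_of_le r4 (min_le_left _ _)
  have hDv : 1 / (r₁ - 1) - 1 / (q - 1) < 1 - v := lt_of_lt_of_le r4 (min_le_right _ _)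
  have hrr : 0 < 1 / r₁ - 1 / q := by
    have : 1 / q < 1 / r₁ := by
      have : 0 < r₁ := by linarith
      gcongr
    linarith
  -- choose a
  obtain ⟨C, hC⟩ := pow_unbounded_of_one_lt ((1 / (q - 1) + 1) / (1 / r₁ - 1 / q)) hq
  rw [div_lt_iff₀ hrr] at hC
  obtain ⟨a, ha1, ha2, ha3⟩ := hgood (max A₁ C + 1)
  have haA : A₁ ≤ a := by have := le_max_left A₁ C; omega
  have haC : C ≤ a := by have := le_max_right A₁ C; omega
  have ha0 : 0 < a := by omega
  set β := app α a (per α p) with hβ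
  have hβid : q ^ (a + 1) * (1 - V q β) = V q (sh (a + 1) α) + 1 - v :=
    app_value hq hα ha2 (per α p)
  have hza : kap q ≤ V q (sh (a + 1) α) := (hW a).2 ha2
  have hza2 := V_le hq (sh (a + 1) α)
  have hqa : 0 < q ^ (a + 1) := by positivity
  have hβ1 : V q β < 1 := by
    by_contra hcon
    push Not at hcon
    have : q ^ (a + 1) * (1 - V q β) ≤ 0 :=
      mul_nonpos_of_nonneg_of_nonpos hqa.le (by linarith)
    linarith
  have hvnn : 0 ≤ v := V_nonneg hq _
  have hβ2 : 1 - V q β < 1 / r₁ - 1 / q := by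
    have h1 : q ^ C ≤ q ^ (a + 1) := pow_le_pow_right₀ hq.le (by omega)
    have h2 : 1 / (q - 1) + 1 < q ^ (a + 1) * (1 / r₁ - 1 / q) :=
      lt_of_lt_of_le hC (mul_le_mul_of_nonneg_right h1 hrr.le)
    have h3 : q ^ (a + 1) * (1 - V q β) < q ^ (a + 1) * (1 / r₁ - 1 / q) := by
      rw [hβid]; linarith
    exact lt_of_mul_lt_mul_left h3 hqa.le
  have hβ0 : β 0 = 1 := by
    rw [hβ, app_lt ha0]; exact alpha_zeroW hq hα hW
  have hβr : 1 < V r₁ β := by
    have := V_diff_ge r1 r2.le β hβ0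
    linarith
  obtain ⟨r, hr1, hrq, hr3⟩ := ivt_base r1 r2 hβ1 hβr
  have hr1' : 1 < r := by linarith
  refine ⟨r, hr1', by linarith, hrq, β, hr3, SU.WU ?_⟩
  have hDr := D_anti (q := q) r1 hr1.le
  have hSUP : SU r (per α p) := by
    refine SU_perW hq hα hW hp2 (μ := μ) ?_ (by linarith) hr1' hrq.le
      (by linarith) (by linarith)
    intro t t1 t2 t3
    exact hint p hpA hp2 hp3 v hv2 t t1 t2 t3
  have hvr : V r (per α p) < 1 := by
    have := V_diff hr1' hrq.le (per α p)
    linarith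
  intro n
  rcases lt_trichotomy n a with h | h | h
  · have e3 : β n = α n := app_lt h
    rw [e3]
    constructor
    · intro hd
      exact tail_le hr1' hrq hα hr3 (fun i hi => app_lt (by omega)) ((hW n).1 hd)
    · intro hd
      have h1 := app_one hq hα ha2 (τ := per α p) (μ := μ) (t := n + 1) (by omega)
        (hint a haA ha2 ha3 v hv2 (n + 1) (by omega) (by omega) (by simpa using hd))
      have h2 := V_anti hr1' hrq.le (sh (n + 1) β)
      rw [← hβ] at h1
      rw [kap_eq hq] at h1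
      rw [kap_eq hr1']
      linarith
  · rw [h]
    have e3 : β a = 0 := app_eq
    have e4 : sh (a + 1) β = per α p := sh_app _ _ _
    rw [e3, e4]
    exact ⟨fun _ => hvr, fun h => absurd h (by decide)⟩
  · have e4 : sh (a + 1) β = per α p := sh_app _ _ _
    obtain ⟨k, hk⟩ : ∃ k, n = a + 1 + k := ⟨n - a - 1, by omega⟩
    have e5 : β n = per α p k := by
      rw [← e4, hk]; rfl
    have e6 : sh (n + 1) β = sh (k + 1) (per α p) := by
      rw [← e4, sh_sh]; congr 1; omega
    rw [e5, e6]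
    exact hSUP k

/-- The sequence `w comp(w) w comp(w) …`, `w = α_0 … α_a`. -/
def alt (α : ℕ → Fin 2) (a : ℕ) : ℕ → Fin 2 :=
  fun i => if (i / (a + 1)) % 2 = 0 then α (i % (a + 1)) else 1 - α (i % (a + 1))

lemma alt_lt (α : ℕ → Fin 2) {a i : ℕ} (h : i ≤ a) : alt α a i = α i := by
  unfold alt
  rw [Nat.div_eq_of_lt (show i < a + 1 by omega), Nat.mod_eq_of_lt (show i < a + 1 by omega)]
  simp

lemma sh_alt (α : ℕ → Fin 2) (a : ℕ) : sh (a + 1) (alt α a) = cmp (alt α a) := by
  funext i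
  simp only [sh_apply, cmp_apply, alt]
  have e1 : (a + 1 + i) / (a + 1) = i / (a + 1) + 1 := by
    rw [Nat.add_div_left _ (Nat.succ_pos a)]
  have e2 : (a + 1 + i) % (a + 1) = i % (a + 1) := Nat.add_mod_left _ _
  rw [e1, e2]
  rcases Nat.mod_two_eq_zero_or_one (i / (a + 1)) with h | h
  · rw [if_neg (by omega), if_pos h]
  · rw [if_pos (by omega), if_neg (by omega)]
    simp

/-- A base with property `P` is a limit from the left of bases in which one has a weakly
univoque expansion. -/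
lemma left_limit_rec (hq : 1 < q) (hq2 : q < 2) (hα : V q α = 1) (hW : WU q α)
    (hpos : ∀ t, 1 ≤ t → α (t - 1) = 1 → 0 < ex q α t) (hrec : ∀ A, ∃ a, A ≤ a ∧ IsRec q α a)
    {δ : ℝ} (hδ : 0 < δ) :
    ∃ r, 1 < r ∧ q - δ < r ∧ r < q ∧ ∃ β, V r β = 1 ∧ WU r β := by
  have h0 : 0 < q := by linarith
  have hq1 : 0 < q - 1 := by linarith
  have hk := kap_pos hq hq2
  have hkk := kap_eq hq
  obtain ⟨r₁, r1, r2, r3, _⟩ := exists_near hq one_pos hδ
  have hr10 : 0 < r₁ - 1 := by linarith
  have hrr : 0 < 1 / r₁ - 1 / q := by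
    have : 1 / q < 1 / r₁ := by
      have : 0 < r₁ := by linarith
      gcongr
    linarith
  have hqq : 0 < 1 - 1 / q := by
    have : 1 / q < 1 := by rw [div_lt_one h0]; exact hq
    linarith
  set K := q ^ 2 / ((r₁ - 1) * (q - 1)) with hK
  have hKpos : 0 < K := by positivity
  obtain ⟨B, hB⟩ := pow_unbounded_of_one_lt (K / (1 - 1 / q)) hq
  obtain ⟨C, hC⟩ := pow_unbounded_of_one_lt ((1 / (q - 1)) / (1 / r₁ - 1 / q)) hq
  rw [div_lt_iff₀ hrr] at hC
  rw [div_lt_iff₀ hqq] at hB
  obtain ⟨a, ha1, ha2, ha3⟩ := hrec (max B C)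
  have haB : B ≤ a := le_trans (le_max_left _ _) ha1
  have haC : C ≤ a := le_trans (le_max_right _ _) ha1
  set β := alt α a with hβ
  have hag : ∀ i < a + 1, α i = β i := fun i hi => (alt_lt α (by omega)).symm
  have hid : q ^ (a + 1) * (1 - V q β) = ex q α (a + 1) - (1 - V q β) := by
    have h1 := V_agree hq hag
    rw [hα, hβ, sh_alt, V_cmp hq, ← hβ] at h1
    rw [h1]
    unfold ex
    linarith
  have hexa := hpos (a + 1) (by omega) (by simpa using ha2)
  have hqa : 0 < q ^ (a + 1) := by positivity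
  have hv1 : 0 < 1 - V q β := by
    by_contra hcon
    push Not at hcon
    have : (q ^ (a + 1) + 1) * (1 - V q β) ≤ 0 :=
      mul_nonpos_of_nonneg_of_nonpos (by positivity) hcon
    linarith
  have hv2 : q ^ (a + 1) * (1 - V q β) ≤ ex q α (a + 1) := by linarith
  have hexle : ex q α (a + 1) ≤ 1 / (q - 1) := by
    have := V_le hq (sh (a + 1) α)
    unfold ex; linarith
  have hβ2 : 1 - V q β < 1 / r₁ - 1 / q := by
    have h1 : q ^ C ≤ q ^ (a + 1) := pow_le_pow_right₀ hq.le (by omega)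
    have h2 : 1 / (q - 1) < q ^ (a + 1) * (1 / r₁ - 1 / q) :=
      lt_of_lt_of_le hC (mul_le_mul_of_nonneg_right h1 hrr.le)
    have h3 : q ^ (a + 1) * (1 - V q β) < q ^ (a + 1) * (1 / r₁ - 1 / q) := by linarith
    exact lt_of_mul_lt_mul_left h3 hqa.le
  have hβ0 : β 0 = 1 := by
    rw [hβ, alt_lt α (by omega)]; exact alpha_zeroW hq hα hW
  have hβr : 1 < V r₁ β := by
    have := V_diff_ge r1 r2.le β hβ0
    linarith
  obtain ⟨r, hr1, hrq, hr3⟩ := ivt_base r1 r2 (d := β) (by linarith) hβr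
  have hr1' : 1 < r := by linarith
  have hr0 : 0 < r - 1 := by linarith
  -- the shift of kappa
  have hD : 1 / (r - 1) - 1 / (q - 1) ≤ (1 - 1 / q) * ex q α (a + 1) := by
    have g1 := V_diff_ge hr1' hrq.le β hβ0
    rw [hr3] at g1
    have g2 : 1 / (r - 1) - 1 / (q - 1) = (1 / r - 1 / q) * (r * q / ((r - 1) * (q - 1))) := by
      have : r ≠ 0 := by linarith
      field_simp
      ring
    have g3 : r * q / ((r - 1) * (q - 1)) ≤ K := by
      rw [hK]
      have : r * q ≤ q ^ 2 := by nlinarith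
      gcongr
    have g4 : 0 ≤ 1 / r - 1 / q := by
      have : 1 / q ≤ 1 / r := by
        have : 0 < r := by linarith
        gcongr
      linarith
    have g5 : (1 / r - 1 / q) * (r * q / ((r - 1) * (q - 1))) ≤ (1 - V q β) * K :=
      mul_le_mul g1 g3 (by positivity) hv1.le
    have g6 : q ^ B ≤ q ^ (a + 1) := pow_le_pow_right₀ hq.le (by omega)
    have g7 : K ≤ q ^ (a + 1) * (1 - 1 / q) := by
      have := mul_le_mul_of_nonneg_right g6 hqq.le
      linarith
    have g8 : (1 - V q β) * K ≤ (1 - V q β) * (q ^ (a + 1) * (1 - 1 / q)) :=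
      mul_le_mul_of_nonneg_left g7 hv1.le
    have g9 : (1 - V q β) * (q ^ (a + 1) * (1 - 1 / q)) ≤ (1 - 1 / q) * ex q α (a + 1) := by
      have := mul_le_mul_of_nonneg_left hv2 hqq.le
      linarith
    rw [g2]
    linarith
  refine ⟨r, hr1', by linarith, hrq, β, hr3, ?_⟩
  have hshift : sh (a + 1) β = cmp β := sh_alt α a
  have hfirst : ∀ n ≤ a, (β n = 0 → V r (sh (n + 1) β) ≤ 1) ∧
      (β n = 1 → kap r ≤ V r (sh (n + 1) β)) := by
    intro n hn
    have e1 : β n = α n := alt_lt α hn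
    rcases Nat.lt_or_ge n a with h | h
    · rw [e1]
      constructor
      · intro hd
        exact (tail_le hr1' hrq hα hr3 (fun i hi => alt_lt α (by omega)) ((hW n).1 hd)).le
      · intro hd
        have hag' : ∀ i < n + 1, α i = β i := fun i hi => hag i (by omega)
        have h1 := V_agree hq hag'
        rw [hα] at h1
        have h2 := ha3 (n + 1) (by omega) (by omega) (by simpa using hd)
        have h3 := V_anti hr1' hrq.le (sh (n + 1) β)
        -- q^(n+1) (1 - v) ≤ ex (a+1) / q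
        have h4 : q * (q ^ (n + 1) * (1 - V q β)) ≤ ex q α (a + 1) := by
          have h5 : q ^ (n + 1 + 1) ≤ q ^ (a + 1) := pow_le_pow_right₀ hq.le (by omega)
          calc q * (q ^ (n + 1) * (1 - V q β)) = q ^ (n + 1 + 1) * (1 - V q β) := by ring
            _ ≤ q ^ (a + 1) * (1 - V q β) := mul_le_mul_of_nonneg_right h5 hv1.le
            _ ≤ _ := hv2
        have h6 : q ^ (n + 1) * (1 - V q β) ≤ 1 / q * ex q α (a + 1) := by
          rw [div_mul_eq_mul_div, le_div_iff₀ h0, one_mul]; linarith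
        have h7 : (1 - 1 / q) * ex q α (a + 1) = ex q α (a + 1) - 1 / q * ex q α (a + 1) := by
          ring
        have h8 : V q (sh (n + 1) α) = kap q + ex q α (n + 1) := by unfold ex; ring
        rw [kap_eq hr1']
        linarith
    · have hna : n = a := by omega
      rw [hna, show sh (a + 1) β = cmp β from hshift, V_cmp hr1', hr3, ← kap_eq hr1']
      have e2 : β a = 1 := by rw [hβ, alt_lt α le_rfl, ha2]
      rw [e2]
      exact ⟨fun h => absurd h (by decide), fun _ => le_rfl⟩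
  intro n
  induction n using Nat.strong_induction_on with
  | _ n ih =>
    rcases Nat.lt_or_ge a n with h | h
    · obtain ⟨k, hk⟩ : ∃ k, n = a + 1 + k := ⟨n - a - 1, by omega⟩
      have ihk := ih k (by omega)
      have e5 : β n = cmp β k := by
        rw [← hshift, hk]; rfl
      have e6 : V r (sh (n + 1) β) = 1 / (r - 1) - V r (sh (k + 1) β) := by
        have : sh (n + 1) β = sh (k + 1) (sh (a + 1) β) := by
          rw [sh_sh]; congr 1; omega
        rw [this, hshift, V_sh_cmp hr1']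
      have hkr := kap_eq hr1'
      rw [e5, e6]
      constructor
      · intro hd
        have := ihk.2 (cmp_eq_zero.mp hd)
        linarith
      · intro hd
        have := ihk.1 (cmp_eq_one.mp hd)
        linarith
    · exact hfirst n h

end

end Pool.Agent.V11309.Uni
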