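import Mathlib
import Pool.Agent.V11309.Uni.WeakD

/-! Level sets of the smallest univoque base are closed. -/

namespace Pool.Agent.V11309.Uni

open Filter Topology

section

variable {q : ℝ} {α : ℕ → Fin 2}

lemma finite_minW (hpos : ∀ t, 1 ≤ t → α (t - 1) = 1 → 0 < ex q α t) {ε : ℝ} (hε : 0 < ε)
    (A : ℕ) :
    ∃ ε' : ℝ, 0 < ε' ∧ ε' ≤ ε ∧ ∀ t, 1 ≤ t → t ≤ A → α (t - 1) = 1 → ε' ≤ ex q α t := by
  induction A with
  | zero => exact ⟨ε, hε, le_rfl, fun t h1 h2 => by omega⟩
  | succ A ih =>
    obtain ⟨ε', h1, h2, h3⟩ := ih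
    by_cases hA : α (A + 1 - 1) = 1
    · have hp := hpos (A + 1) (by omega) hA
      refine ⟨min ε' (ex q α (A + 1)), lt_min h1 hp, le_trans (min_le_left _ _) h2, ?_⟩
      intro t t1 t2 t3
      rcases Nat.lt_or_ge t (A + 1) with h | h
      · exact le_trans (min_le_left _ _) (h3 t t1 (by omega) t3)
      · have : t = A + 1 := by omega
        rw [this]; exact min_le_right _ _
    · refine ⟨ε', h1, h2, fun t t1 t2 t3 => ?_⟩
      rcases Nat.lt_or_ge t (A + 1) with h | h
      · exact h3 t t1 (by omega) t3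
      · have : t = A + 1 := by omega
        rw [this] at t3; exact absurd t3 hA

lemma exists_recW (hpos : ∀ t, 1 ≤ t → α (t - 1) = 1 → 0 < ex q α t) (hP : PropP q α)
    (A : ℕ) : ∃ a, A ≤ a ∧ IsRec q α a := by
  obtain ⟨ε', h1, h2, h3⟩ := finite_minW hpos one_pos A
  classical
  have hex := hP ε' h1
  set t := Nat.find hex with ht
  obtain ⟨t1, t2, t3⟩ := Nat.find_spec hex
  rw [← ht] at t1 t2 t3
  have hta : A < t := by
    by_contra h
    push Not at h
    have := h3 t t1 h t2
    linarith
  have htt : t - 1 + 1 = t := by omega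
  refine ⟨t - 1, by omega, ⟨t2, ?_⟩⟩
  intro s s1 s2 s3
  rw [htt]
  have hmin := Nat.find_min hex (m := s) (by omega)
  have : ε' ≤ ex q α s := by
    by_contra h
    push Not at h
    exact hmin ⟨s1, s3, h⟩
  linarith

/-- If all tails after ones are above `κ`, the base is a limit from the left. -/
lemma left_approx (hq : 1 < q) (hq2 : q < 2) (hα : V q α = 1) (hW : WU q α)
    (hstr : ∀ s, α s = 1 → kap q < V q (sh (s + 1) α)) {δ : ℝ} (hδ : 0 < δ) :
    ∃ r, 1 < r ∧ q - δ < r ∧ r < q ∧ ∃ β, V r β = 1 ∧ WU r β := by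
  have hpos : ∀ t, 1 ≤ t → α (t - 1) = 1 → 0 < ex q α t := by
    intro t ht hd
    have := hstr (t - 1) hd
    rw [show t - 1 + 1 = t by omega] at this
    unfold ex; linarith
  by_cases hP : PropP q α
  · exact left_limit_rec hq hq2 hα hW hpos (exists_recW hpos hP) hδ
  · unfold PropP at hP
    push Not at hP
    obtain ⟨ε₀, hε₀, hge⟩ := hP
    exact left_limitW hq hq2 hα hW hε₀ hge hδ

end

/-- Lower semicontinuity from the left along points represented in base `q`. -/
lemma left_lsc {q x : ℝ} (hq : 1 < q) (hq2 : q < 2)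
    {xs : ℕ → ℝ} (hlim : Tendsto xs atTop (𝓝 x)) (hlt : ∀ k, xs k < x)
    {ds : ℕ → (ℕ → Fin 2)} (hW : ∀ k, WU q (ds k)) (hV : ∀ k, V q (ds k) = xs k) :
    ∃ r ∈ Ux x, r ≤ q := by
  have h0 : 0 < q := by linarith
  have hkk := kap_eq hq
  obtain ⟨a, φ, hφ, ha⟩ := exists_limit_seq ds
  have hxφ : Tendsto (fun k => xs (φ k)) atTop (𝓝 x) := hlim.comp hφ.tendsto_atTop
  have h1 := V_tendsto hq (tendsto_const_nhds (x := q)) ha
  have hVa : V q a = x := by
    refine tendsto_nhds_unique h1 ?_
    simp_rw [hV]; exact hxφ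
  have haW : WU q a := WU_limit hq tendsto_const_nhds ha (fun k => hW (φ k))
  have hagr : ∀ N, ∃ k, ∀ i < N, ds (φ k) i = a i := by
    intro N
    have hev : ∀ᶠ k in atTop, ∀ i ∈ Finset.range N, ds (φ k) i = a i :=
      (Filter.eventually_all_finset _).mpr (fun i _ => ha i)
    obtain ⟨k, hk⟩ := hev.exists
    exact ⟨k, fun i hi => hk i (Finset.mem_range.mpr hi)⟩
  by_cases hSU : SU q a
  · exact ⟨q, mem_Ux_iff.mpr ⟨hq, hq2.le, a, hVa, hSU⟩, le_rfl⟩
  unfold SU at hSU
  have hex : ∃ n, ¬ ((a n = 0 → V q (sh (n + 1) a) < 1) ∧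
      (a n = 1 → kap q < V q (sh (n + 1) a))) := by
    by_contra hcon
    push Not at hcon
    exact hSU (fun n => hcon n)
  classical
  set n := Nat.find hex with hn
  have hn1 := Nat.find_spec hex
  rw [← hn] at hn1
  have hn2 : ∀ i < n, (a i = 0 → V q (sh (i + 1) a) < 1) ∧
      (a i = 1 → kap q < V q (sh (i + 1) a)) := fun i hi => by
    by_contra h
    exact Nat.find_min hex hi h
  rcases fin2_cases (a n) with han | han
  swap
  · exfalso
    have hle : V q (sh (n + 1) a) ≤ kap q := by
      by_contra hcon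
      push Not at hcon
      exact hn1 ⟨fun h => by rw [han] at h; exact absurd h (by decide), fun _ => hcon⟩
    obtain ⟨k, hk⟩ := hagr (n + 1)
    have h2 := V_agree hq hk
    rw [hV, hVa] at h2
    have h3 := (hW (φ k) n).2 (by rw [hk n (by omega), han])
    have h4 : q ^ (n + 1) * (xs (φ k) - x) < 0 :=
      mul_neg_of_pos_of_neg (by positivity) (by linarith [hlt (φ k)])
    linarith
  have heV : V q (sh (n + 1) a) = 1 := by
    apply le_antisymm ((haW n).1 han)
    by_contra hcon
    push Not at hcon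
    exact hn1 ⟨fun _ => hcon, fun h => by rw [han] at h; exact absurd h (by decide)⟩
  set e := sh (n + 1) a with he
  have heW : WU q e := haW.shift _
  by_cases hs : ∃ s, e s = 1 ∧ V q (sh (s + 1) e) ≤ kap q
  · exfalso
    obtain ⟨s, hs1, hs2⟩ := hs
    have hs3 : V q (sh (s + 1) e) = kap q := le_antisymm hs2 ((heW s).2 hs1)
    have hce : sh (s + 1) e = cmp e := by
      apply WU_unique hq hq2 (heW.shift _) (heW.cmp hq)
      rw [hs3, V_cmp hq, heV, hkk]
    obtain ⟨k, hk⟩ := hagr (n + 1 + (s + 1) + (s + 1))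
    set a' := ds (φ k) with ha'
    set e' := sh (n + 1) a' with he'
    have he'W : WU q e' := (hW (φ k)).shift _
    have hag : ∀ i < (s + 1) + (s + 1), e' i = e i := by
      intro i hi
      simp only [he', he, sh_apply]
      exact hk _ (by omega)
    have g1 : kap q ≤ V q (sh (s + 1) e') := (he'W s).2 (by rw [hag s (by omega), hs1])
    have g2 : e' (s + 1 + s) = 0 := by
      rw [hag _ (by omega)]
      have : sh (s + 1) e s = cmp e s := by rw [hce]
      simp only [sh_apply, cmp_apply] at this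
      rw [this, hs1]; simp
    have g3 : V q (sh (s + 1 + s + 1) e') ≤ 1 := (he'W _).1 g2
    have hag2 : ∀ i < s + 1, sh (s + 1) e' i = sh (s + 1) e i := by
      intro i hi
      simp only [sh_apply]
      exact hag _ (by omega)
    have g4 := V_agree hq hag2
    rw [sh_sh (s + 1) (s + 1) e', sh_sh (s + 1) (s + 1) e, hs3] at g4
    have g5 : V q (sh (s + 1 + (s + 1)) e) = 1 := by
      have : sh (s + 1 + (s + 1)) e = e := by
        rw [← sh_sh, hce, sh_cmp, hce, cmp_cmp]
      rw [this, heV]
    rw [g5, show s + 1 + (s + 1) = s + 1 + s + 1 by ring] at g4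
    have hp : 0 < q ^ (s + 1) := by positivity
    have g6 : V q (sh (s + 1) e') = kap q := by
      apply le_antisymm _ g1
      by_contra hcon
      push Not at hcon
      have : 0 < q ^ (s + 1) * (V q (sh (s + 1) e') - kap q) := mul_pos hp (by linarith)
      linarith
    have g7 := V_agree hq (n := s + 1) (fun i hi => hag i (by omega))
    rw [g6, hs3, sub_self] at g7
    have g8 : V q e' = 1 := by
      rcases mul_eq_zero.mp g7 with h | h
      · exact absurd h hp.ne'
      · linarith
    have g9 := V_agree hq (d := a') (e := a) (n := n + 1) (fun i hi => hk i (by omega))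
    rw [← he', ← he, g8, heV, sub_self, ha', hV, hVa] at g9
    rcases mul_eq_zero.mp g9 with h | h
    · have : 0 < q ^ (n + 1) := by positivity
      exact absurd h this.ne'
    · have := hlt (φ k)
      linarith
  · push Not at hs
    have hch : ∀ j : ℕ, ∃ r, 1 < r ∧ q - min (1 / ((j : ℝ) + 1)) 1 < r ∧ r < q ∧
        ∃ β, V r β = 1 ∧ WU r β := fun j =>
      left_approx hq hq2 heV heW hs (lt_min (by positivity) one_pos)
    choose r hr1 hr2 hr3 β hβ1 hβ2 using hch
    have hrlim := tendsto_squeeze_left hr3 hr2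
    obtain ⟨b, ψ, hψ, hb⟩ := exists_limit_seq β
    have hrψ : Tendsto (fun j => r (ψ j)) atTop (𝓝 q) := hrlim.comp hψ.tendsto_atTop
    have hbW : WU q b := WU_limit hq hrψ hb (fun j => hβ2 (ψ j))
    have hbV : V q b = 1 := by
      refine tendsto_nhds_unique (V_tendsto hq hrψ hb) ?_
      simp_rw [hβ1]; exact tendsto_const_nhds
    have hbe : b = e := WU_unique hq hq2 hbW heW (by rw [hbV, heV])
    have hρ : ∀ j, ∃ ρ, r j < ρ ∧ ρ < q ∧ V ρ (app a n (β j)) = x := by
      intro j
      apply ivt_base (hr1 j) (hr3 j)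
      · have s1 := V_split hq (app a n (β j)) (n + 1)
        have s2 := V_split hq a (n + 1)
        rw [sh_app] at s1
        rw [hVa, ← he, heV] at s2
        have s3 : PS q (app a n (β j)) (n + 1) = PS q a (n + 1) := by
          apply PS_congr
          intro i hi
          rcases Nat.lt_or_ge i n with h | h
          · exact app_lt h
          · have : i = n := by omega
            rw [this, app_eq, han]
        have s4 := V_lt_one_of_le (hr1 j) (hr3 j) (hβ1 j).le
        have hp : 0 < q ^ (n + 1) := by positivity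
        have s5 : V q (β j) / q ^ (n + 1) < 1 / q ^ (n + 1) := by gcongr
        rw [s1, s3, s2]
        linarith
      · have s1 := V_split (hr1 j) (app a n (β j)) (n + 1)
        have s2 := V_split hq a (n + 1)
        rw [sh_app, hβ1] at s1
        rw [hVa, ← he, heV] at s2
        have s3 : PS (r j) (app a n (β j)) (n + 1) = PS (r j) a (n + 1) := by
          apply PS_congr
          intro i hi
          rcases Nat.lt_or_ge i n with h | h
          · exact app_lt h
          · have : i = n := by omega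
            rw [this, app_eq, han]
        have s4 := PS_anti (hr1 j) (hr3 j).le a (n + 1)
        have hrj : 0 < r j := by linarith [hr1 j]
        have s5 : 1 / q ^ (n + 1) < 1 / r j ^ (n + 1) := by
          apply one_div_lt_one_div_of_lt (by positivity)
          exact pow_lt_pow_left₀ (hr3 j) hrj.le (by omega)
        rw [s1, s3, s2]
        linarith
    choose ρ hρ1 hρ2 hρ3 using hρ
    have hρlim : Tendsto (fun j => ρ (ψ j)) atTop (𝓝 q) :=
      tendsto_of_tendsto_of_tendsto_of_le_of_le hrψ tendsto_const_nhds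
        (fun j => (hρ1 (ψ j)).le) (fun j => (hρ2 (ψ j)).le)
    have hDlim : ∀ i, ∀ᶠ j in atTop, app a n (β (ψ j)) i = a i := by
      intro i
      rcases lt_trichotomy i n with h | h | h
      · exact Eventually.of_forall fun j => app_lt h
      · rw [h]
        exact Eventually.of_forall fun j => by rw [app_eq, han]
      · filter_upwards [hb (i - n - 1)] with j hj
        have e1 := congrFun (sh_app a n (β (ψ j))) (i - n - 1)
        simp only [sh_apply] at e1
        rw [show n + 1 + (i - n - 1) = i by omega] at e1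
        rw [e1, hj, hbe, he]
        simp only [sh_apply]
        congr 1; omega
    have hev : ∀ᶠ j in atTop, ∀ i ∈ Finset.range n,
        (a i = 0 → V (ρ (ψ j)) (sh (i + 1) (app a n (β (ψ j)))) < 1) ∧
        (a i = 1 → kap (ρ (ψ j)) < V (ρ (ψ j)) (sh (i + 1) (app a n (β (ψ j))))) := by
      rw [Filter.eventually_all_finset]
      intro i hi
      have hin : i < n := Finset.mem_range.mp hi
      have hlimi : Tendsto (fun j => V (ρ (ψ j)) (sh (i + 1) (app a n (β (ψ j))))) atTop
          (𝓝 (V q (sh (i + 1) a))) := V_tendsto hq hρlim (fun m => hDlim _)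
      rcases fin2_cases (a i) with hai | hai
      · have h2 := (hn2 i hin).1 hai
        filter_upwards [hlimi.eventually (gt_mem_nhds h2)] with j hj
        exact ⟨fun _ => hj, fun h => by rw [hai] at h; exact absurd h (by decide)⟩
      · have h2 := (hn2 i hin).2 hai
        filter_upwards [(kap_tendsto hq hρlim).eventually_lt hlimi h2] with j hj
        exact ⟨fun h => by rw [hai] at h; exact absurd h (by decide), fun _ => hj⟩
    obtain ⟨j, hj⟩ := hev.exists
    set D := app a n (β (ψ j)) with hD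
    have hρgt : 1 < ρ (ψ j) := by linarith [hr1 (ψ j), hρ1 (ψ j)]
    have hβSU : SU (ρ (ψ j)) (β (ψ j)) := (hβ2 (ψ j)).toSU (hr1 _) (hρ1 _)
    refine ⟨ρ (ψ j), mem_Ux_iff.mpr ⟨hρgt, by linarith [hρ2 (ψ j)], D, hρ3 (ψ j), ?_⟩,
      (hρ2 (ψ j)).le⟩
    intro i
    rcases lt_trichotomy i n with h | h | h
    · have e1 : D i = a i := app_lt h
      rw [e1]
      exact hj i (Finset.mem_range.mpr h)
    · rw [h, show D n = 0 from app_eq, show sh (n + 1) D = β (ψ j) from sh_app _ _ _]
      refine ⟨fun _ => ?_, fun h => absurd h (by decide)⟩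
      exact V_lt_one_of_le (hr1 _) (hρ1 _) (hβ1 _).le
    · have e4 : sh (n + 1) D = β (ψ j) := sh_app _ _ _
      obtain ⟨k, hk⟩ : ∃ k, i = n + 1 + k := ⟨i - n - 1, by omega⟩
      have e5 : D i = β (ψ j) k := by
        rw [← e4, hk]; rfl
      have e6 : sh (i + 1) D = sh (k + 1) (β (ψ j)) := by
        rw [← e4, sh_sh]; congr 1; omega
      rw [e5, e6]
      exact hβSU k

/-- The level sets are closed in `(0, ∞)`, for `q < 2`. -/
lemma Linf_closed {q x : ℝ} (hq : 1 < q) (hq2 : q < 2) (hx : 0 < x)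
    (hcl : x ∈ closure (Linf q)) : x ∈ Linf q := by
  by_contra hmem
  have hside : (∀ ε : ℝ, 0 < ε → (Linf q ∩ Set.Ioo x (x + ε)).Nonempty) ∨
      (∀ ε : ℝ, 0 < ε → (Linf q ∩ Set.Ioo (x - ε) x).Nonempty) := by
    by_contra hcon
    push Not at hcon
    obtain ⟨⟨ε₁, h1, h2⟩, ε₂, h3, h4⟩ := hcon
    rw [Metric.mem_closure_iff] at hcl
    obtain ⟨y, hy, hd⟩ := hcl (min ε₁ ε₂) (lt_min h1 h3)
    rw [Real.dist_eq, abs_lt] at hd
    have m1 := min_le_left ε₁ ε₂
    have m2 := min_le_right ε₁ ε₂
    rcases lt_trichotomy x y with h | h | h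
    · have : y ∈ Linf q ∩ Set.Ioo x (x + ε₁) := ⟨hy, h, by linarith [hd.1]⟩
      rw [h2] at this
      exact this
    · exact hmem (by rw [h]; exact hy)
    · have : y ∈ Linf q ∩ Set.Ioo (x - ε₂) x := ⟨hy, by linarith [hd.2], h⟩
      rw [h4] at this
      exact this
  have hlow : ∀ p ∈ Ux x, q ≤ p := by
    intro p hp
    by_contra hcon
    push Not at hcon
    rcases hside with hR | hL
    · obtain ⟨ε, hε, hall⟩ := right_usc hp hcon hq2.le hx
      obtain ⟨y, hy1, hy2, hy3⟩ := hR ε hε
      obtain ⟨r, hr1, hr2⟩ := hall y hy2 hy3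
      have := csInf_le (Ux_bdd y) hr1
      rw [hy1.2] at this
      linarith
    · obtain ⟨ε, hε, hall⟩ := left_usc hp hcon hq2.le hx
      obtain ⟨y, hy1, hy2, hy3⟩ := hL ε hε
      obtain ⟨r, hr1, hr2⟩ := hall y hy2 hy3
      have := csInf_le (Ux_bdd y) hr1
      rw [hy1.2] at this
      linarith
  have hup : ∀ s, q < s → s ≤ 2 → ∃ r ∈ Ux x, r < s := by
    intro s hs hs2
    rcases hside with hR | hL
    · have hch : ∀ k : ℕ, ∃ y, y ∈ Linf q ∧ x < y ∧ y < x + min (1 / ((k : ℝ) + 1)) 1 := by
        intro k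
        obtain ⟨y, h1, h2, h3⟩ := hR (min (1 / ((k : ℝ) + 1)) 1)
          (lt_min (by positivity) one_pos)
        exact ⟨y, h1, h2, h3⟩
      choose y hy1 hy2 hy3 using hch
      have hrep : ∀ k, ∃ d, V q d = y k ∧ WU q d := fun k => level_rep hq hq2 (hy1 k).2
      choose d hd1 hd2 using hrep
      exact right_lsc hq hs hs2 hx (tendsto_squeeze_right hy2 hy3) hy2 hd2 hd1
    · have hch : ∀ k : ℕ, ∃ y, y ∈ Linf q ∧ x - min (1 / ((k : ℝ) + 1)) 1 < y ∧ y < x := by
        intro k
        obtain ⟨y, h1, h2, h3⟩ := hL (min (1 / ((k : ℝ) + 1)) 1)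
          (lt_min (by positivity) one_pos)
        exact ⟨y, h1, h2, h3⟩
      choose y hy1 hy2 hy3 using hch
      have hrep : ∀ k, ∃ d, V q d = y k ∧ WU q d := fun k => level_rep hq hq2 (hy1 k).2
      choose d hd1 hd2 using hrep
      obtain ⟨r, hr1, hr2⟩ := left_lsc hq hq2 (tendsto_squeeze_left hy3 hy2) hy3 hd2 hd1
      exact ⟨r, hr1, by linarith⟩
  apply hmem
  refine ⟨hx, le_antisymm ?_ ?_⟩
  · apply le_of_forall_gt_imp_ge_of_dense
    intro c hc
    obtain ⟨r, hr1, hr2⟩ := hup (min c 2) (lt_min hc hq2) (min_le_right _ _)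
    have h1 := csInf_le (Ux_bdd x) hr1
    have h2 := min_le_left c 2
    linarith
  · obtain ⟨r, hr1, _⟩ := hup 2 hq2 le_rfl
    exact le_csInf ⟨r, hr1⟩ hlow

/-- Every positive number has a univoque base below two. -/
lemma exists_base_lt_two {x : ℝ} (hx : 0 < x) : ∃ q ∈ Ux x, q < 2 := by
  rcases lt_or_ge x (1 / Real.goldenRatio) with h | h
  · obtain ⟨q, h1, h2, h3⟩ := cover_small Real.goldenRatio_sq Real.goldenRatio_pos hx h
    norm_num at h2
    exact ⟨q, ⟨h1, by linarith, h3⟩, by linarith⟩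
  rcases le_or_gt 0.6262 x with h2 | h2
  · obtain ⟨q, q1, q2, q3⟩ := cover_big h2
    norm_num at q2
    exact ⟨q, ⟨q1, by linarith, q3⟩, by linarith⟩
  · have hx618 : 0.61 ≤ x := by
      refine le_trans ?_ h
      obtain ⟨g1, g2⟩ := G_bounds Real.goldenRatio_sq Real.goldenRatio_pos
      norm_num at g2
      rw [le_div_iff₀ Real.goldenRatio_pos, show (0.61 : ℝ) = 61 / 100 by norm_num]
      linarith
    obtain ⟨q, hq1, hq2, hU⟩ := cover (f := v100) (ql := 1.84) (qr := 1.92)
      (x := x) (by norm_num) (by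
        unfold v100
        apply ContinuousOn.div (by fun_prop) (by fun_prop)
        intro q hq
        have a1 := hq.1
        norm_num at a1
        have : (1.84 : ℝ) ^ 3 ≤ q ^ 3 := by gcongr; norm_num; linarith
        norm_num at this
        linarith)
      (by unfold v100; norm_num at hx618 ⊢; linarith)
      (by unfold v100; norm_num at h2 ⊢; linarith) (by
        intro q hq
        have a1 := hq.1
        have a2 := hq.2
        norm_num at a1 a2
        apply UE_v100 (by linarith) (by linarith)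
        nlinarith [mul_nonneg (show (0:ℝ) ≤ q - 46/25 by linarith) (show (0:ℝ) ≤ q by linarith),
          mul_nonneg (show (0:ℝ) ≤ q - 46/25 by linarith)
            (show (0:ℝ) ≤ q ^ 2 by positivity)])
    norm_num at hq1 hq2
    exact ⟨q, ⟨by linarith, by linarith, hU⟩, by linarith⟩

lemma Linf_two : Linf 2 = ∅ := by
  rw [Set.eq_empty_iff_forall_notMem]
  rintro x ⟨hx, h⟩
  obtain ⟨q, h1, h2⟩ := exists_base_lt_two hx
  have := csInf_le (Ux_bdd x) h1
  linarith

end Pool.Agent.V11309.Uni
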